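import Pool.Agent.Helper61.GL.Dec

/-!
# The window bound: a sum of nearly independent non-atomic variables is spread over many scales
-/

set_option autoImplicit false

namespace Pool.Agent.Helper61.GL

open Finset Pool.Agent.Helper69.RK

variable {Ω γ β ι α : Type} [Fintype Ω] [Fintype ι] [DecidableEq ι]

/-- conditional mean given the atom of `ω` -/
noncomputable def cm (μ : Ω → ℝ) (G : Ω → γ) (ω : Ω) (f : Ω → ℝ) : ℝ := ∑ ω', cw μ G ω ω' * f ω'

theorem cm_congr (μ : Ω → ℝ) (G : Ω → γ) {ω1 ω2 : Ω} (h : G ω1 = G ω2) (f : Ω → ℝ) :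
    cm μ G ω1 f = cm μ G ω2 f := by
  unfold cm
  simp only [cw_congr μ G h]

theorem EQ_one (μ : Ω → ℝ) (H : ι → Ω → γ) (hμ : ∀ ω, 0 ≤ μ ω) (ω : Ω) (h : μ ω ≠ 0) (f : Ω → ℝ)
    (i : ι) : EQ μ H ω (fun a : ι → Ω => f (a i)) = cm μ (H i) ω f := by
  classical
  unfold EQ cm
  have e1 : ∀ a : ι → Ω, (∏ j, cw μ (H j) ω (a j)) * f (a i)
      = ∏ j, (cw μ (H j) ω (a j) * (if j = i then f (a j) else 1)) := by
    intro a
    rw [Finset.prod_mul_distrib, Finset.prod_ite_eq' univ i (fun j => f (a j)),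
      if_pos (Finset.mem_univ i)]
  simp only [e1]
  rw [sum_prod_fun (fun (j : ι) (ω' : Ω) => cw μ (H j) ω ω' * (if j = i then f ω' else 1)),
    Finset.prod_eq_single i]
  · refine Finset.sum_congr rfl fun ω' _ => ?_
    rw [if_pos rfl]
  · intro j _ hj
    simp only [if_neg hj, mul_one]
    exact cw_sum μ (H j) hμ ω h
  · intro hi
    exact absurd (Finset.mem_univ i) hi

theorem EQ_two (μ : Ω → ℝ) (H : ι → Ω → γ) (hμ : ∀ ω, 0 ≤ μ ω) (ω : Ω) (h : μ ω ≠ 0) (f g : Ω → ℝ)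
    {i j : ι} (hij : i ≠ j) :
    EQ μ H ω (fun a : ι → Ω => f (a i) * g (a j)) = cm μ (H i) ω f * cm μ (H j) ω g := by
  classical
  unfold EQ cm
  have e1 : ∀ a : ι → Ω, (∏ l, cw μ (H l) ω (a l)) * (f (a i) * g (a j))
      = ∏ l, (cw μ (H l) ω (a l) * ((if l = i then f (a l) else 1) * (if l = j then g (a l) else 1))) := by
    intro a
    rw [Finset.prod_mul_distrib, Finset.prod_mul_distrib,
      Finset.prod_ite_eq' univ i (fun j => f (a j)), Finset.prod_ite_eq' univ j (fun j => g (a j)),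
      if_pos (Finset.mem_univ i), if_pos (Finset.mem_univ j)]
  simp only [e1]
  rw [sum_prod_fun (fun (l : ι) (ω' : Ω) => cw μ (H l) ω ω' * ((if l = i then f ω' else 1) *
    (if l = j then g ω' else 1)))]
  rw [← Finset.mul_prod_erase univ _ (Finset.mem_univ i),
    ← Finset.mul_prod_erase (univ.erase i) _ (Finset.mem_erase.2 ⟨hij.symm, Finset.mem_univ j⟩)]
  have e2 : ∏ l ∈ (univ.erase i).erase j, ∑ ω', cw μ (H l) ω ω' * ((if l = i then f ω' else 1) *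
      (if l = j then g ω' else 1)) = 1 := by
    refine Finset.prod_eq_one fun l hl => ?_
    rw [Finset.mem_erase, Finset.mem_erase] at hl
    simp only [if_neg hl.1, if_neg hl.2.1, mul_one]
    exact cw_sum μ (H l) hμ ω h
  rw [e2, mul_one]
  congr 1
  · refine Finset.sum_congr rfl fun ω' _ => ?_
    rw [if_pos rfl, if_neg hij, mul_one]
  · refine Finset.sum_congr rfl fun ω' _ => ?_
    rw [if_pos rfl, if_neg hij.symm, one_mul]

/-- variance of a sum of independent centered variables -/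
theorem EQ_var (μ : Ω → ℝ) (H : ι → Ω → γ) (hμ : ∀ ω, 0 ≤ μ ω) (ω : Ω) (h : μ ω ≠ 0)
    (y : ι → Ω → ℝ) (K : ℝ) (h0 : ∀ i, cm μ (H i) ω (y i) = 0)
    (hK : ∀ i ω', H i ω' = H i ω → μ ω' ≠ 0 → |y i ω'| ≤ K) :
    EQ μ H ω (fun a : ι → Ω => (∑ i, y i (a i)) ^ 2) ≤ Fintype.card ι * K ^ 2 := by
  classical
  have e1 : ∀ a : ι → Ω, (∑ i, y i (a i)) ^ 2 = ∑ i, ∑ j, y i (a i) * y j (a j) := by
    intro a
    rw [sq, Finset.sum_mul_sum]
  simp only [e1]
  rw [EQ_sum]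
  have e2 : ∀ i, EQ μ H ω (fun a : ι → Ω => ∑ j, y i (a i) * y j (a j)) ≤ K ^ 2 := by
    intro i
    rw [EQ_sum, Finset.sum_eq_single i]
    · have e3 : EQ μ H ω (fun a : ι → Ω => y i (a i) * y i (a i))
          ≤ EQ μ H ω (fun _ : ι → Ω => K ^ 2) := by
        refine EQ_mono μ H hμ ω fun a ha => ?_
        have h1 := hK i (a i) (ha i).1 (ha i).2
        rw [← sq, ← sq_abs]
        exact pow_le_pow_left₀ (abs_nonneg _) h1 2
      rwa [EQ_const μ H hμ ω h] at e3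
    · intro j _ hj
      rw [EQ_two μ H hμ ω h (y i) (y j) (Ne.symm hj), h0 i, zero_mul]
    · intro hi
      exact absurd (Finset.mem_univ i) hi
  calc ∑ i, EQ μ H ω (fun a : ι → Ω => ∑ j, y i (a i) * y j (a j)) ≤ ∑ _i : ι, K ^ 2 :=
        Finset.sum_le_sum fun i _ => e2 i
    _ = Fintype.card ι * K ^ 2 := by rw [Finset.sum_const, Finset.card_univ, nsmul_eq_mul]

/-- **fine part of the window bound** -/
theorem window_fine (μ : Ω → ℝ) (D : ι → Ω → α) (G : Ω → γ) (H : ι → γ → β) (hμ : ∀ ω, 0 ≤ μ ω)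
    (E : γ → Prop)
    (z : γ → ℝ) (x : ι → β → α → ℝ) {p : ℝ} (hp : 0 < p) (hp1 : p ≤ 1) (T : γ → Finset ι)
    (hx : ∀ ω, μ ω ≠ 0 → E (G ω) → ∀ i ∈ T (G ω), ∀ c : ℝ,
      p ≤ ∑ ω' ∈ univ.filter (fun ω' => 1 ≤ |x i (H i (G ω)) (D i ω') - c|),
        cw μ (hg H G i) ω ω') :
    (∑ ω, res μ (fun ω => E (G ω)) ω * (1 / 2 * Real.logb 2 (p * ((T (G ω)).card + 1))))
        - TC μ D G H ≤
      CH (res μ (fun ω => E (G ω))) (fun ω => ⌊z (G ω) + ∑ i, x i (H i (G ω)) (D i ω)⌋) G := by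
  classical
  have h := entropy_lower μ D G H hμ E (fun g d => ⌊z g + ∑ i, x i (H i g) (d i)⌋)
    (fun g => 1 / Real.sqrt (p * ((T g).card + 1))) (fun ω _ _ => by positivity) ?_
  · refine le_trans (le_of_eq ?_) h
    congr 1
    refine Finset.sum_congr rfl fun ω _ => ?_
    congr 1
    have hpos : 0 < p * (((T (G ω)).card : ℝ) + 1) := by positivity
    rw [one_div_one_div, Real.sqrt_eq_rpow, Real.logb_rpow_eq_mul_logb_of_pos hpos]
  · intro ω h0 hE c
    have h1 := kolmogorov_rogozin (fun i : ι => cw μ (hg H G i) ω)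
      (fun i ω' => x i (H i (G ω)) (D i ω'))
      (fun i ω' => cw_nonneg μ (hg H G i) hμ ω ω') (fun i => cw_sum μ (hg H G i) hμ ω h0) hp hp1
      (T (G ω)) (hx ω h0 hE) ((c : ℝ) - z (G ω))
    refine le_trans (le_of_eq ?_) h1
    unfold EQ
    rw [Finset.sum_filter]
    refine Finset.sum_congr rfl fun a _ => ?_
    have h2 : (⌊z (G ω) + ∑ i, x i (H i (G ω)) (D i (a i))⌋ = c) ↔
        ((c : ℝ) - z (G ω) ≤ ∑ i, x i (H i (G ω)) (D i (a i)) ∧
          ∑ i, x i (H i (G ω)) (D i (a i)) < (c : ℝ) - z (G ω) + 1) := by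
      rw [Int.floor_eq_iff]
      constructor
      · rintro ⟨a1, a2⟩
        constructor <;> linarith
      · rintro ⟨a1, a2⟩
        constructor <;> linarith
    by_cases h3 : ⌊z (G ω) + ∑ i, x i (H i (G ω)) (D i (a i))⌋ = c
    · simp only [if_pos h3, if_pos (h2.1 h3), mul_one]
    · simp only [if_neg h3, if_neg (fun h4 => h3 (h2.2 h4)), mul_zero]

theorem logb_sixty : Real.logb 2 60 ≤ 6 := by
  have h1 : Real.logb 2 60 ≤ Real.logb 2 64 :=
    Real.logb_le_logb_of_le (by norm_num) (by norm_num) (by norm_num)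
  have h2 : Real.logb 2 64 = 6 := by
    rw [show (64 : ℝ) = 2 ^ (6 : ℝ) by norm_num, Real.logb_rpow (by norm_num) (by norm_num)]
  linarith

/-- heavy tailed weights on the integers -/
theorem heavy (c0 : ℤ) (S : Finset ℤ) : ∑ c ∈ S, (1 / (3 * (1 + |((c - c0 : ℤ) : ℝ)|) ^ 2)) ≤ 1 := by
  classical
  have h1 : ∑ c ∈ S, (1 / (3 * (1 + |((c - c0 : ℤ) : ℝ)|) ^ 2))
      = ∑ a ∈ S.image (fun c => c - c0), (1 / (3 * (1 + |(a : ℝ)|) ^ 2)) := by
    rw [Finset.sum_image]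
    intro a _ b _ hab
    exact sub_left_injective hab
  rw [h1]
  set F := S.image (fun c => c - c0) with hF
  obtain ⟨N, hN⟩ : ∃ N : ℕ, F ⊆ Finset.Icc (-(N : ℤ)) N := by
    refine ⟨F.sup fun a => a.natAbs, fun a ha => ?_⟩
    have := Finset.le_sup (f := fun a : ℤ => a.natAbs) ha
    rw [Finset.mem_Icc]
    constructor <;> omega
  have hpos : ∀ a : ℤ, 0 ≤ (1 / (3 * (1 + |(a : ℝ)|) ^ 2)) := fun a => by positivity
  refine (Finset.sum_le_sum_of_subset_of_nonneg hN fun a _ _ => hpos a).trans ?_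
  have tel : ∀ n : ℕ, ∑ a ∈ Finset.Icc (-(n : ℤ)) n, (1 / (3 * (1 + |(a : ℝ)|) ^ 2))
      ≤ 1 - 2 / (3 * ((n : ℝ) + 1)) := by
    intro n
    induction n with
    | zero =>
      simp
      norm_num
    | succ n ih =>
      have e0 : Finset.Icc (-((n + 1 : ℕ) : ℤ)) ((n + 1 : ℕ) : ℤ)
          = insert (-((n : ℤ) + 1)) (insert ((n : ℤ) + 1) (Finset.Icc (-(n : ℤ)) n)) := by
        ext a
        simp only [Finset.mem_Icc, Finset.mem_insert]
        push_cast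
        omega
      rw [e0, Finset.sum_insert, Finset.sum_insert]
      · have a1 : |(((-((n : ℤ) + 1) : ℤ)) : ℝ)| = (n : ℝ) + 1 := by
          push_cast
          rw [abs_of_nonpos (by have : (0 : ℝ) ≤ n := Nat.cast_nonneg n; linarith)]
          ring
        have a2 : |((((n : ℤ) + 1 : ℤ)) : ℝ)| = (n : ℝ) + 1 := by
          push_cast
          rw [abs_of_nonneg (by positivity)]
        rw [a1, a2]
        have hn : (0 : ℝ) ≤ n := Nat.cast_nonneg n
        have e3 : 2 * (1 / (3 * (1 + ((n : ℝ) + 1)) ^ 2)) ≤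
            2 / (3 * ((n : ℝ) + 1)) - 2 / (3 * (((n + 1 : ℕ) : ℝ) + 1)) := by
          push_cast
          rw [div_sub_div _ _ (by positivity) (by positivity), mul_one_div,
            div_le_div_iff₀ (by positivity) (by positivity)]
          nlinarith [mul_nonneg hn hn, mul_nonneg (mul_nonneg hn hn) hn]
        linarith
      · simp
      · simp only [Finset.mem_insert, Finset.mem_Icc]
        omega
  have h2 := tel N
  have h3 : 0 ≤ 2 / (3 * ((N : ℝ) + 1)) := by positivity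
  linarith

/-- **coarse part of the window bound** -/
theorem window_coarse (μ : Ω → ℝ) (D : ι → Ω → α) (G : Ω → γ) (H : ι → γ → β) (hμ : ∀ ω, 0 ≤ μ ω)
    (E : γ → Prop) (z : γ → ℝ) (x : ι → β → α → ℝ) (K L : ℝ) (hL : 0 < L) (hKL : Fintype.card ι * K ^ 2 ≤ L ^ 2)
    (hx : ∀ i ω ω', μ ω ≠ 0 → μ ω' ≠ 0 → H i (G ω) = H i (G ω') →
      |x i (H i (G ω)) (D i ω) - x i (H i (G ω)) (D i ω')| ≤ K) :
    CH (res μ (fun ω => E (G ω))) (fun ω => ⌊(z (G ω) + ∑ i, x i (H i (G ω)) (D i ω)) / L⌋) G ≤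
      TC μ D G H + 6 * mass (res μ (fun ω => E (G ω))) := by
  classical
  -- the mean
  set mn : Ω → ℝ := fun ω =>
    (z (G ω) + ∑ i, cm μ (hg H G i) ω (fun ω' => x i (H i (G ω)) (D i ω'))) / L with hmn
  have hmnc : ∀ ω ω', G ω = G ω' → mn ω = mn ω' := by
    intro ω ω' h
    simp only [hmn]
    rw [h]
    have h' : ∀ i, hg H G i ω = hg H G i ω' := fun i => by
      unfold hg
      rw [h]
    simp only [fun i => cm_congr μ (hg H G i) (h' i)]
  set c0 : γ → ℤ := fun g => if h : ∃ ω, G ω = g then ⌊mn h.choose⌋ else 0 with hc0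
  have hc0e : ∀ ω, c0 (G ω) = ⌊mn ω⌋ := by
    intro ω
    have hex : ∃ ω', G ω' = G ω := ⟨ω, rfl⟩
    simp only [hc0, dif_pos hex]
    rw [hmnc _ ω hex.choose_spec]
  have h := entropy_upper μ D G H hμ E (fun g d => ⌊(z g + ∑ i, x i (H i g) (d i)) / L⌋)
    (fun g c => 1 / (3 * (1 + |((c - c0 g : ℤ) : ℝ)|) ^ 2)) (fun g c => by positivity)
    (fun g S => heavy (c0 g) S) 60 (by norm_num) ?_
  · refine h.trans ?_
    have h1 : 0 ≤ mass (res μ (fun ω => E (G ω))) :=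
      Finset.sum_nonneg fun ω _ => e4_res_nonneg μ _ hμ ω
    have h2 := mul_le_mul_of_nonneg_left logb_sixty h1
    linarith
  · intro ω h0 _
    set y : ι → Ω → ℝ := fun i ω' => x i (H i (G ω)) (D i ω')
      - cm μ (hg H G i) ω (fun ω' => x i (H i (G ω)) (D i ω')) with hy
    have hcw : ∀ i, ∑ ω', cw μ (hg H G i) ω ω' = 1 := fun i => cw_sum μ (hg H G i) hμ ω h0
    have hy0 : ∀ i, cm μ (hg H G i) ω (y i) = 0 := by
      intro i
      unfold cm
      simp only [hy, mul_sub]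
      rw [Finset.sum_sub_distrib, ← Finset.sum_mul, hcw, one_mul]
      exact sub_self _
    have hyK : ∀ i ω', hg H G i ω' = hg H G i ω → μ ω' ≠ 0 → |y i ω'| ≤ K := by
      intro i ω' h1 h2
      have e1 : y i ω' = ∑ ω2, cw μ (hg H G i) ω ω2 *
          (x i (H i (G ω)) (D i ω') - x i (H i (G ω)) (D i ω2)) := by
        simp only [hy, mul_sub]
        rw [Finset.sum_sub_distrib, ← Finset.sum_mul, hcw, one_mul]
        rfl
      rw [e1]
      calc |∑ ω2, cw μ (hg H G i) ω ω2 * (x i (H i (G ω)) (D i ω') - x i (H i (G ω)) (D i ω2))|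
          ≤ ∑ ω2, |cw μ (hg H G i) ω ω2 *
              (x i (H i (G ω)) (D i ω') - x i (H i (G ω)) (D i ω2))| :=
            Finset.abs_sum_le_sum_abs _ _
        _ ≤ ∑ ω2, cw μ (hg H G i) ω ω2 * K := by
            refine Finset.sum_le_sum fun ω2 _ => ?_
            rw [abs_mul, abs_of_nonneg (cw_nonneg μ (hg H G i) hμ ω ω2)]
            by_cases h3 : cw μ (hg H G i) ω ω2 = 0
            · rw [h3, zero_mul, zero_mul]
            · obtain ⟨h4, h5⟩ := cw_ne_zero μ (hg H G i) h3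
              have h7 : H i (G ω') = H i (G ω) := h1
              have h8 : H i (G ω2) = H i (G ω) := h4
              have h6 := hx i ω' ω2 h2 h5 (h7.trans h8.symm)
              rw [h7] at h6
              exact mul_le_mul_of_nonneg_left h6 (cw_nonneg μ (hg H G i) hμ ω ω2)
        _ = K := by rw [← Finset.sum_mul, hcw, one_mul]
    have hvar := EQ_var μ (hg H G) hμ ω h0 y K hy0 hyK
    have hpt : ∀ a : ι → Ω, 1 / (1 / (3 * (1 + |((⌊(z (G ω) +
        ∑ i, x i (H i (G ω)) (D i (a i))) / L⌋ - c0 (G ω) : ℤ) : ℝ)|) ^ 2))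
          ≤ 54 + (6 / L ^ 2) * (∑ i, y i (a i)) ^ 2 := by
      intro a
      rw [one_div_one_div, hc0e]
      set s := (z (G ω) + ∑ i, x i (H i (G ω)) (D i (a i))) / L with hs
      have e2 : s - mn ω = (∑ i, y i (a i)) / L := by
        simp only [hs, hmn, hy]
        rw [Finset.sum_sub_distrib, ← sub_div]
        congr 1
        ring
      have e3 : |((⌊s⌋ - ⌊mn ω⌋ : ℤ) : ℝ)| ≤ 2 + |s - mn ω| := by
        push_cast
        have a1 := Int.floor_le s
        have a2 := Int.lt_floor_add_one s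
        have a3 := Int.floor_le (mn ω)
        have a4 := Int.lt_floor_add_one (mn ω)
        have a5 := neg_abs_le (s - mn ω)
        have a6 := le_abs_self (s - mn ω)
        rw [abs_le]
        constructor <;> linarith
      have e4 : (1 + |((⌊s⌋ - ⌊mn ω⌋ : ℤ) : ℝ)|) ^ 2 ≤ 18 + 2 * (s - mn ω) ^ 2 := by
        have a7 := abs_nonneg ((⌊s⌋ - ⌊mn ω⌋ : ℤ) : ℝ)
        have a8 : (1 + |((⌊s⌋ - ⌊mn ω⌋ : ℤ) : ℝ)|) ^ 2 ≤ (3 + |s - mn ω|) ^ 2 :=
          pow_le_pow_left₀ (by linarith) (by linarith) 2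
        have a9 : (3 + |s - mn ω|) ^ 2 ≤ 18 + 2 * (s - mn ω) ^ 2 := by
          rw [← sq_abs (s - mn ω)]
          nlinarith [sq_nonneg (3 - |s - mn ω|)]
        linarith
      rw [e2, div_pow] at e4
      have e5 : (6 / L ^ 2) * (∑ i, y i (a i)) ^ 2 = 3 * (2 * ((∑ i, y i (a i)) ^ 2 / L ^ 2)) := by
        ring
      rw [e5]
      linarith
    have h7 := EQ_mono μ (hg H G) hμ ω (Ψ := fun a : ι → Ω => 1 / (1 / (3 * (1 + |((⌊(z (G ω) +
        ∑ i, x i (H i (G ω)) (D i (a i))) / L⌋ - c0 (G ω) : ℤ) : ℝ)|) ^ 2)))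
        (Ψ' := fun a => 54 + (6 / L ^ 2) * (∑ i, y i (a i)) ^ 2) (fun a _ => hpt a)
    refine h7.trans ?_
    rw [EQ_add, EQ_const μ (hg H G) hμ ω h0, EQ_mul]
    have h8 : (6 / L ^ 2) * EQ μ (hg H G) ω (fun a : ι → Ω => (∑ i, y i (a i)) ^ 2) ≤ 6 := by
      have hL2 : 0 < L ^ 2 := by positivity
      calc (6 / L ^ 2) * EQ μ (hg H G) ω (fun a : ι → Ω => (∑ i, y i (a i)) ^ 2)
          ≤ (6 / L ^ 2) * L ^ 2 := mul_le_mul_of_nonneg_left (hvar.trans hKL) (by positivity)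
        _ = 6 := by field_simp
    linarith

/-- **window bound** -/
theorem window_bound (μ : Ω → ℝ) (D : ι → Ω → α) (G : Ω → γ) (H : ι → γ → β) (hμ : ∀ ω, 0 ≤ μ ω)
    (E : γ → Prop)
    (z : γ → ℝ) (x : ι → β → α → ℝ) {p : ℝ} (hp : 0 < p) (hp1 : p ≤ 1) (T : γ → Finset ι)
    (hT : ∀ ω, μ ω ≠ 0 → E (G ω) → ∀ i ∈ T (G ω), ∀ c : ℝ,
      p ≤ ∑ ω' ∈ univ.filter (fun ω' => 1 ≤ |x i (H i (G ω)) (D i ω') - c|),
        cw μ (hg H G i) ω ω')
    (K L : ℝ) (hL : 0 < L) (hKL : Fintype.card ι * K ^ 2 ≤ L ^ 2)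
    (hx : ∀ i ω ω', μ ω ≠ 0 → μ ω' ≠ 0 → H i (G ω) = H i (G ω') →
      |x i (H i (G ω)) (D i ω) - x i (H i (G ω)) (D i ω')| ≤ K) :
    (∑ ω, res μ (fun ω => E (G ω)) ω * (1 / 2 * Real.logb 2 (p * ((T (G ω)).card + 1))))
        - 2 * TC μ D G H - 6 * mass (res μ (fun ω => E (G ω))) ≤
      CH (res μ (fun ω => E (G ω))) (fun ω => ⌊z (G ω) + ∑ i, x i (H i (G ω)) (D i ω)⌋)
        (fun ω => (⌊(z (G ω) + ∑ i, x i (H i (G ω)) (D i ω)) / L⌋, G ω)) := by
  have h1 := window_fine μ D G H hμ E z x hp hp1 T hT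
  have h2 := window_coarse μ D G H hμ E z x K L hL hKL hx
  set ν := res μ (fun ω => E (G ω)) with hν
  have hν0 : ∀ ω, 0 ≤ ν ω := e4_res_nonneg μ _ hμ
  have h3 := e1_chain ν (fun ω => ⌊(z (G ω) + ∑ i, x i (H i (G ω)) (D i ω)) / L⌋)
    (fun ω => ⌊z (G ω) + ∑ i, x i (H i (G ω)) (D i ω)⌋) G
  have h4 := (st_E2 st_E1).1 Ω _ _ _ ν (fun ω => ⌊z (G ω) + ∑ i, x i (H i (G ω)) (D i ω)⌋)
    (fun ω => (⌊(z (G ω) + ∑ i, x i (H i (G ω)) (D i ω)) / L⌋,
      ⌊z (G ω) + ∑ i, x i (H i (G ω)) (D i ω)⌋)) G hν0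
    (fun ω ω' _ _ h => by
      rw [Prod.mk.injEq, Prod.mk.injEq] at h
      exact h.1.2)
  linarith

end Pool.Agent.Helper61.GL
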