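import Pool.Agent.Helper61.GL.Cal

/-!
# Local entropies and transfer of averages between nearly independent variables
-/

set_option autoImplicit false

namespace Pool.Agent.Helper61.GL

open Finset Pool.Agent.Helper69.RK

variable {Ω α β γ : Type} [Fintype Ω]

/-- local entropy of `F` in the atom of `G` -/
noncomputable def LH (μ : Ω → ℝ) (F : Ω → α) (G : Ω → γ) (ω : Ω) : ℝ :=
  ∑ ω', cw μ G ω ω' * (Real.logb 2 (pr μ G ω') - Real.logb 2 (pr μ (fun ω' => (F ω', G ω')) ω'))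

theorem LH_congr (μ : Ω → ℝ) (F : Ω → α) (G : Ω → γ) {ω1 ω2 : Ω} (h : G ω1 = G ω2) :
    LH μ F G ω1 = LH μ F G ω2 := by
  unfold LH
  simp only [cw_congr μ G h]

/-- averaging conditional means -/
theorem sum_cw (μ : Ω → ℝ) (hμ : ∀ ω, 0 ≤ μ ω) (G : Ω → γ) (f : Ω → ℝ) :
    ∑ ω, μ ω * ∑ ω', cw μ G ω ω' * f ω' = ∑ ω, μ ω * f ω := by
  classical
  simp only [Finset.mul_sum]
  rw [Finset.sum_comm]
  refine Finset.sum_congr rfl fun ω' _ => ?_
  by_cases h0 : μ ω' = 0
  · have : ∀ ω, cw μ G ω ω' = 0 := by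
      intro ω
      unfold cw
      rw [h0]
      simp
    simp [this, h0]
  have h1 := e1_pr_pos μ G hμ ω' h0
  have e1 : ∀ ω, μ ω * (cw μ G ω ω' * f ω') = (if G ω = G ω' then μ ω else 0) *
      (μ ω' / pr μ G ω' * f ω') := by
    intro ω
    unfold cw
    by_cases h2 : G ω' = G ω
    · rw [if_pos h2, if_pos h2.symm, e1_pr_atom μ G ω ω' h2.symm]
    · rw [if_neg h2, if_neg (fun h => h2 h.symm)]
      ring
  rw [Finset.sum_congr rfl (fun ω _ => e1 ω), ← Finset.sum_mul, ← e1_pr_eq, ← mul_assoc,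
    mul_div_cancel₀ _ h1.ne']

theorem ch_eq_sum_LH (μ : Ω → ℝ) (hμ : ∀ ω, 0 ≤ μ ω) (F : Ω → α) (G : Ω → γ) :
    CH μ F G = ∑ ω, μ ω * LH μ F G ω := by
  unfold CH LH
  rw [sum_cw μ hμ G]

theorem exp_quad {x : ℝ} (h : |x| ≤ 1) : Real.exp x ≤ 1 + x + x ^ 2 := by
  have := Real.abs_exp_sub_one_sub_id_le h
  have := (abs_le.1 this).2
  linarith

/-- **transfer**: if `A` is nearly independent of `F` given `G`, the mean over an event in `(A, G)`
of a function of `(F, G)` with conditional mean `≤ 0` is small -/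
theorem transfer (μ : Ω → ℝ) (hμ : ∀ ω, 0 ≤ μ ω) (F : Ω → α) (G : Ω → γ) (A : Ω → β)
    (E : β × γ → Prop) (W : α → γ → ℝ) (R : ℝ) (hR : 1 ≤ R)
    (hW : ∀ ω, μ ω ≠ 0 → |W (F ω) (G ω)| ≤ R)
    (hm : ∀ ω, μ ω ≠ 0 → ∑ ω', cw μ G ω ω' * W (F ω') (G ω') ≤ 0) :
    ∑ ω, res μ (fun ω => E (A ω, G ω)) ω * W (F ω) (G ω) ≤
      R ^ 2 * (CH μ F G - CH μ F (fun ω => (A ω, G ω))) + mass μ := by
  classical
  set G' : Ω → β × γ := fun ω => (A ω, G ω) with hG'
  set D : Fin 1 → Ω → α := fun _ => F with hD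
  set H : Fin 1 → β × γ → γ := fun _ g => g.2 with hH
  set lam : ℝ := 1 / R ^ 2 with hlam
  have hR0 : 0 < R := by linarith
  have hlam0 : 0 < lam := by positivity
  have hlR : lam * R ≤ 1 := by
    rw [hlam, one_div, inv_mul_eq_div, div_le_one (by positivity)]
    nlinarith
  have hTC : TC μ D G' H = CH μ F G - CH μ F G' := by
    unfold TC
    rw [Fin.sum_univ_one]
    have e1 : CH μ (D 0) (hg H G' 0) = CH μ F G := rfl
    have e2 : CH μ (fun ω => fun i => D i ω) G' = CH μ F G' := by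
      apply ch_congr_left
      intro ω ω' _ _ _
      constructor
      · intro e
        exact congrFun e 0
      · intro e
        funext _
        exact e
    rw [e1, e2]
  have hdec := decouple μ D G' H hμ
    (fun g d => if E g then Real.exp (lam * W (d 0) g.2) else 1)
    (fun g d => by
      split_ifs
      · exact (Real.exp_pos _).le
      · exact zero_le_one)
  have hB : (1 : ℝ) ≤ 1 + lam ^ 2 * R ^ 2 := by
    have : 0 ≤ lam ^ 2 * R ^ 2 := by positivity
    linarith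
  have hB0 : (0 : ℝ) < 1 + lam ^ 2 * R ^ 2 := by linarith
  have hEQ : ∀ ω, μ ω ≠ 0 → EQ μ (hg H G') ω (fun a : Fin 1 → Ω =>
      if E (G' ω) then Real.exp (lam * W (D 0 (a 0)) (G' ω).2) else 1) ≤ 1 + lam ^ 2 * R ^ 2 := by
    intro ω h0
    by_cases hE : E (G' ω)
    swap
    · simp only [if_neg hE]
      rw [EQ_const μ (hg H G') hμ ω h0]
      exact hB
    simp only [if_pos hE]
    have e1 : ∀ i, hg H G' i = G := fun i => rfl
    have h1 : EQ μ (hg H G') ω (fun a : Fin 1 → Ω => Real.exp (lam * W (F (a 0)) (G ω)))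
        ≤ EQ μ (hg H G') ω (fun a : Fin 1 → Ω => 1 + lam * W (F (a 0)) (G (a 0))
          + lam ^ 2 * R ^ 2) := by
      refine EQ_mono μ (hg H G') hμ ω fun a ha => ?_
      have h2 : G (a 0) = G ω := (ha 0).1
      have h3 := hW (a 0) (ha 0).2
      rw [← h2]
      have h4 : |lam * W (F (a 0)) (G (a 0))| ≤ lam * R := by
        rw [abs_mul, abs_of_pos hlam0]
        exact mul_le_mul_of_nonneg_left h3 hlam0.le
      have h5 := exp_quad (h4.trans hlR)
      have h6 : (lam * W (F (a 0)) (G (a 0))) ^ 2 ≤ lam ^ 2 * R ^ 2 := by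
        rw [← sq_abs, ← mul_pow]
        exact pow_le_pow_left₀ (abs_nonneg _) h4 2
      linarith
    refine h1.trans ?_
    have h7 : ∀ f : Ω → ℝ, EQ μ (hg H G') ω (fun a : Fin 1 → Ω => f (a 0))
        = ∑ ω', cw μ G ω ω' * f ω' := by
      intro f
      unfold EQ
      have e3 : ∀ a : Fin 1 → Ω, (∏ i, cw μ (hg H G' i) ω (a i)) * f (a 0)
          = cw μ G ω (a 0) * f (a 0) := by
        intro a
        rw [Fin.prod_univ_one]
        rfl
      simp only [e3]
      exact Fintype.sum_equiv (Equiv.funUnique (Fin 1) Ω) _ _ (fun a => rfl)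
    rw [h7 (fun ω' => 1 + lam * W (F ω') (G ω') + lam ^ 2 * R ^ 2)]
    have e4 : ∀ ω', cw μ G ω ω' * (1 + lam * W (F ω') (G ω') + lam ^ 2 * R ^ 2)
        = lam * (cw μ G ω ω' * W (F ω') (G ω')) + cw μ G ω ω' * (1 + lam ^ 2 * R ^ 2) := by
      intro ω'
      ring
    simp only [e4]
    rw [Finset.sum_add_distrib, ← Finset.mul_sum, ← Finset.sum_mul, cw_sum μ G hμ ω h0, one_mul]
    have := mul_le_mul_of_nonneg_left (hm ω h0) hlam0.le
    linarith
  have hsum : ∑ ω, μ ω * (dens μ D G' H ω * ((if E (G' ω) then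
      Real.exp (lam * W (D 0 ω) (G' ω).2) else 1) / (1 + lam ^ 2 * R ^ 2))) ≤ ∑ ω, μ ω := by
    have e5 : ∀ ω, μ ω * (dens μ D G' H ω * ((if E (G' ω) then
        Real.exp (lam * W (D 0 ω) (G' ω).2) else 1) / (1 + lam ^ 2 * R ^ 2)))
        = (1 / (1 + lam ^ 2 * R ^ 2)) * (μ ω * (dens μ D G' H ω * (if E (G' ω) then
        Real.exp (lam * W (D 0 ω) (G' ω).2) else 1))) := by
      intro ω
      ring
    simp only [e5]
    rw [← Finset.mul_sum, one_div, inv_mul_eq_div, div_le_iff₀ hB0, Finset.sum_mul]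
    refine hdec.trans (Finset.sum_le_sum fun ω _ => ?_)
    by_cases h0 : μ ω = 0
    · rw [h0]; simp
    · exact mul_le_mul_of_nonneg_left (hEQ ω h0) (hμ ω)
  have hg := e1_gibbs μ (fun ω => dens μ D G' H ω * ((if E (G' ω) then
      Real.exp (lam * W (D 0 ω) (G' ω).2) else 1) / (1 + lam ^ 2 * R ^ 2))) hμ
    (fun ω h0 => by
      refine mul_pos (dens_pos μ D G' H hμ ω h0) (div_pos ?_ hB0)
      split_ifs
      · exact Real.exp_pos _
      · exact zero_lt_one) hsum
  have h2 : 0 < Real.log 2 := Real.log_pos (by norm_num)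
  have hlog : Real.logb 2 (1 + lam ^ 2 * R ^ 2) ≤ lam ^ 2 * R ^ 2 / Real.log 2 := by
    unfold Real.logb
    apply div_le_div_of_nonneg_right _ h2.le
    have := Real.log_le_sub_one_of_pos hB0
    linarith
  have e6 : ∀ ω, μ ω * Real.logb 2 (dens μ D G' H ω * ((if E (G' ω) then
      Real.exp (lam * W (D 0 ω) (G' ω).2) else 1) / (1 + lam ^ 2 * R ^ 2)))
      = (μ ω * Real.logb 2 (dens μ D G' H ω) + (lam / Real.log 2) *
        (res μ (fun ω => E (G' ω)) ω * W (F ω) (G ω))) -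
          μ ω * Real.logb 2 (1 + lam ^ 2 * R ^ 2) := by
    intro ω
    by_cases h0 : μ ω = 0
    · have : res μ (fun ω => E (G' ω)) ω = 0 := by
        unfold res
        rw [h0]
        split_ifs <;> rfl
      simp [h0, this]
    have h4 := dens_pos μ D G' H hμ ω h0
    by_cases hE : E (G' ω)
    · rw [e4_res_pos μ (fun ω => E (G' ω)) ω hE, if_pos hE,
        Real.logb_mul h4.ne' (div_pos (Real.exp_pos _) hB0).ne',
        Real.logb_div (Real.exp_pos _).ne' hB0.ne']
      have e7 : Real.logb 2 (Real.exp (lam * W (D 0 ω) (G' ω).2))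
          = (lam / Real.log 2) * W (F ω) (G ω) := by
        unfold Real.logb
        rw [Real.log_exp]
        ring
      rw [e7]
      ring
    · rw [e4_res_neg μ (fun ω => E (G' ω)) ω hE, if_neg hE,
        Real.logb_mul h4.ne' (div_pos zero_lt_one hB0).ne',
        Real.logb_div one_ne_zero hB0.ne', Real.logb_one]
      ring
  rw [Finset.sum_congr rfl (fun ω _ => e6 ω), Finset.sum_sub_distrib, Finset.sum_add_distrib,
    ← Finset.mul_sum, ← Finset.sum_mul] at hg
  have hT := TC_eq μ D G' H hμ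
  rw [hTC] at hT
  set I := CH μ F G - CH μ F G' with hI
  set S := ∑ ω, res μ (fun ω => E (G' ω)) ω * W (F ω) (G ω) with hS
  have hm0 : 0 ≤ ∑ ω, μ ω := Finset.sum_nonneg fun ω _ => hμ ω
  have h8 : (∑ ω, μ ω) * Real.logb 2 (1 + lam ^ 2 * R ^ 2)
      ≤ (∑ ω, μ ω) * (lam ^ 2 * R ^ 2 / Real.log 2) := mul_le_mul_of_nonneg_left hlog hm0
  have hI0 : 0 ≤ I := by
    have := ch_cond μ hμ F G G' (fun ω ω' _ _ h => (Prod.ext_iff.1 h).2)
    linarith
  -- `(lam / log 2) S ≤ I + mass lam² R² / log 2`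
  have h9 : (lam / Real.log 2) * S ≤ I + (∑ ω, μ ω) * (lam ^ 2 * R ^ 2 / Real.log 2) := by
    linarith
  have h10 : S ≤ R ^ 2 * (Real.log 2 * I) + ∑ ω, μ ω := by
    have h11 : R ^ 2 * Real.log 2 * ((lam / Real.log 2) * S)
        ≤ R ^ 2 * Real.log 2 * (I + (∑ ω, μ ω) * (lam ^ 2 * R ^ 2 / Real.log 2)) :=
      mul_le_mul_of_nonneg_left h9 (by positivity)
    have e8 : R ^ 2 * Real.log 2 * ((lam / Real.log 2) * S) = S := by
      rw [hlam]
      field_simp
    have e9 : R ^ 2 * Real.log 2 * (I + (∑ ω, μ ω) * (lam ^ 2 * R ^ 2 / Real.log 2))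
        = R ^ 2 * (Real.log 2 * I) + ∑ ω, μ ω := by
      rw [hlam]
      field_simp
    rw [e8, e9] at h11
    exact h11
  have h12 : Real.log 2 * I ≤ I := by
    have : Real.log 2 ≤ 1 := by
      have := Real.log_two_lt_d9
      linarith
    nlinarith
  have h13 : R ^ 2 * (Real.log 2 * I) ≤ R ^ 2 * I := mul_le_mul_of_nonneg_left h12 (by positivity)
  have e10 : mass μ = ∑ ω, μ ω := rfl
  rw [e10]
  linarith

end Pool.Agent.Helper61.GL
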