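import Pool.Agent.Helper61.GL.Trf

/-!
# Entropies on events of a nearly independent variable are bounded by the local entropies
-/

set_option autoImplicit false

namespace Pool.Agent.Helper61.GL

open Finset Pool.Agent.Helper69.RK

variable {Ω α β γ : Type} [Fintype Ω]

open Classical in
/-- entropy of `F` on an event `E` of a nearly independent variable `A` -/
theorem ch_event_le (μ : Ω → ℝ) (hμ : ∀ ω, 0 ≤ μ ω) (F : Ω → α) (G : Ω → γ) (A : Ω → β)
    (E : β × γ → Prop) (R : ℕ)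
    (hcard : ∀ g, (((univ.filter (fun ω' => μ ω' ≠ 0 ∧ G ω' = g)).image F).card : ℝ) ≤ 2 ^ R) :
    CH (res μ (fun ω => E (A ω, G ω))) F (fun ω => (A ω, G ω)) ≤
      (∑ ω, res μ (fun ω => E (A ω, G ω)) ω * (LH μ F G ω + 1)) +
        ((R : ℝ) + 1) ^ 2 * (CH μ F G - CH μ F (fun ω => (A ω, G ω))) + mass μ := by
  set ν := res μ (fun ω => E (A ω, G ω)) with hν
  have hν0 : ∀ ω, 0 ≤ ν ω := e4_res_nonneg μ _ hμ
  have hνe : ∀ ω, ν ω ≠ 0 → μ ω ≠ 0 := by
    intro ω hω h0
    apply hω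
    rw [hν]
    unfold res
    rw [h0]
    split_ifs <;> rfl
  set I : γ → Finset α := fun g => (univ.filter (fun ω' => μ ω' ≠ 0 ∧ G ω' = g)).image F with hI
  set P : γ → α → ℝ := fun g c => ∑ ω', if (F ω' = c ∧ G ω' = g) then μ ω' else 0 with hP
  have hP0 : ∀ g c, 0 ≤ P g c := fun g c => Finset.sum_nonneg fun ω' _ => by
    split_ifs
    · exact hμ ω'
    · exact le_rfl
  have hPF : ∀ ω, pr μ (fun ω' => (F ω', G ω')) ω = P (G ω) (F ω) := by
    intro ω
    rw [e1_pr_eq]
    refine Finset.sum_congr rfl fun ω' _ => ?_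
    by_cases h1 : F ω' = F ω <;> by_cases h2 : G ω' = G ω <;> simp [h1, h2]
  set PG : γ → ℝ := fun g => ∑ ω', if G ω' = g then μ ω' else 0 with hPG
  have hPG0 : ∀ g, 0 ≤ PG g := fun g => Finset.sum_nonneg fun ω' _ => by
    split_ifs
    · exact hμ ω'
    · exact le_rfl
  have hPGe : ∀ ω, pr μ G ω = PG (G ω) := fun ω => e1_pr_eq μ G ω
  have h2R : (0 : ℝ) < 2 ^ R := by positivity
  -- the reference weights
  set r : γ → α → ℝ := fun g c => 1 / 2 * (P g c / PG g) + 1 / 2 * (if c ∈ I g then 1 / 2 ^ R else 0)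
    with hr
  have hr0 : ∀ g c, 0 ≤ r g c := by
    intro g c
    simp only [hr]
    have h1 : 0 ≤ P g c / PG g := div_nonneg (hP0 g c) (hPG0 g)
    have h2 : (0 : ℝ) ≤ if c ∈ I g then 1 / 2 ^ R else 0 := by
      split_ifs
      · positivity
      · exact le_rfl
    linarith
  have hr1 : ∀ g (S : Finset α), ∑ c ∈ S, r g c ≤ 1 := by
    intro g S
    simp only [hr]
    rw [Finset.sum_add_distrib, ← Finset.mul_sum, ← Finset.mul_sum]
    have h1 : ∑ c ∈ S, P g c / PG g ≤ 1 := by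
      rw [← Finset.sum_div]
      apply div_le_one_of_le₀ _ (hPG0 g)
      simp only [hP]
      rw [Finset.sum_comm]
      refine Finset.sum_le_sum fun ω' _ => ?_
      by_cases h2 : G ω' = g
      · rw [if_pos h2]
        have e1 : ∀ c ∈ S, (if (F ω' = c ∧ G ω' = g) then μ ω' else 0)
            = if F ω' = c then μ ω' else 0 := by
          intro c _
          by_cases h3 : F ω' = c <;> simp [h2, h3]
        rw [Finset.sum_congr rfl e1, Finset.sum_ite_eq]
        split_ifs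
        · exact le_rfl
        · exact hμ ω'
      · rw [if_neg h2]
        refine le_of_eq (Finset.sum_eq_zero fun c _ => ?_)
        rw [if_neg (fun h3 => h2 h3.2)]
    have h2 : ∑ c ∈ S, (if c ∈ I g then (1 : ℝ) / 2 ^ R else 0) ≤ 1 := by
      rw [← Finset.sum_filter, Finset.sum_const, nsmul_eq_mul, mul_one_div, div_le_one h2R]
      refine le_trans ?_ (hcard g)
      have h3 : S.filter (fun c => c ∈ I g) ⊆ I g := by
        intro c hc
        exact (Finset.mem_filter.1 hc).2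
      exact_mod_cast Finset.card_le_card h3
    linarith
  have hmem : ∀ ω, μ ω ≠ 0 → F ω ∈ I (G ω) := by
    intro ω h0
    simp only [hI]
    exact Finset.mem_image_of_mem F (Finset.mem_filter.2 ⟨Finset.mem_univ ω, h0, rfl⟩)
  have hrl : ∀ ω, μ ω ≠ 0 → 1 / 2 * (1 / 2 ^ R) ≤ r (G ω) (F ω) := by
    intro ω h0
    simp only [hr]
    rw [if_pos (hmem ω h0)]
    have h1 : 0 ≤ P (G ω) (F ω) / PG (G ω) := div_nonneg (hP0 _ _) (hPG0 _)
    linarith
  have hrp : ∀ ω, μ ω ≠ 0 → 0 < r (G ω) (F ω) := fun ω h0 =>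
    lt_of_lt_of_le (by positivity) (hrl ω h0)
  have hru : ∀ ω, r (G ω) (F ω) ≤ 1 := by
    intro ω
    have := hr1 (G ω) {F ω}
    rwa [Finset.sum_singleton] at this
  -- Gibbs on the event
  have hgib := ch_gibbs ν hν0 F (fun ω => (A ω, G ω)) (fun g c => r g.2 c)
    (fun ω h0 => hrp ω (hνe ω h0)) (fun g c => hr0 g.2 c) (fun g S => hr1 g.2 S)
  -- the function `w`
  set w : Ω → ℝ := fun ω => - Real.logb 2 (r (G ω) (F ω)) with hw
  have hw0 : ∀ ω, μ ω ≠ 0 → 0 ≤ w ω := by
    intro ω h0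
    simp only [hw]
    have := Real.logb_nonpos (b := 2) (by norm_num) (hrp ω h0).le (hru ω)
    linarith
  have hw1 : ∀ ω, μ ω ≠ 0 → w ω ≤ (R : ℝ) + 1 := by
    intro ω h0
    simp only [hw]
    have h1 := Real.logb_le_logb_of_le (b := 2) (by norm_num) (by positivity) (hrl ω h0)
    have h2 : Real.logb 2 (1 / 2 * (1 / 2 ^ R)) = - ((R : ℝ) + 1) := by
      have e1 : (1 : ℝ) / 2 * (1 / 2 ^ R) = (2 ^ (R + 1))⁻¹ := by
        rw [pow_succ, one_div_mul_one_div, one_div, mul_comm]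
      rw [e1, Real.logb_inv, Real.logb_pow, Real.logb_self_eq_one (by norm_num)]
      push_cast
      ring
    linarith
  set mm : Ω → ℝ := fun ω => ∑ ω', cw μ G ω ω' * w ω' with hmm
  have hmc : ∀ ω ω', G ω = G ω' → mm ω = mm ω' := by
    intro ω ω' h
    simp only [hmm, cw_congr μ G h]
  have hm0 : ∀ ω, 0 ≤ mm ω := by
    intro ω
    refine Finset.sum_nonneg fun ω' _ => ?_
    by_cases h1 : cw μ G ω ω' = 0
    · rw [h1, zero_mul]
    · exact mul_nonneg (cw_nonneg μ G hμ ω ω') (hw0 ω' (cw_ne_zero μ G h1).2)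
  have hm1 : ∀ ω, μ ω ≠ 0 → mm ω ≤ (R : ℝ) + 1 := by
    intro ω h0
    calc mm ω ≤ ∑ ω', cw μ G ω ω' * ((R : ℝ) + 1) := by
          refine Finset.sum_le_sum fun ω' _ => ?_
          by_cases h1 : cw μ G ω ω' = 0
          · rw [h1, zero_mul, zero_mul]
          · exact mul_le_mul_of_nonneg_left (hw1 ω' (cw_ne_zero μ G h1).2)
              (cw_nonneg μ G hμ ω ω')
      _ = (R : ℝ) + 1 := by rw [← Finset.sum_mul, cw_sum μ G hμ ω h0, one_mul]
  set m' : γ → ℝ := fun g => if h : ∃ ω, G ω = g then mm h.choose else 0 with hm'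
  have hm'e : ∀ ω, m' (G ω) = mm ω := by
    intro ω
    have hex : ∃ ω', G ω' = G ω := ⟨ω, rfl⟩
    simp only [hm', dif_pos hex]
    exact hmc _ ω hex.choose_spec
  have htr := transfer μ hμ F G A E (fun c g => - Real.logb 2 (r g c) - m' g) ((R : ℝ) + 1)
    (by have : (0 : ℝ) ≤ R := Nat.cast_nonneg R
        linarith)
    (fun ω h0 => by
      have e1 : - Real.logb 2 (r (G ω) (F ω)) - m' (G ω) = w ω - mm ω := by rw [hm'e]
      rw [e1, abs_le]
      have a1 := hw0 ω h0
      have a2 := hw1 ω h0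
      have a3 := hm0 ω
      have a4 := hm1 ω h0
      constructor <;> linarith)
    (fun ω h0 => by
      have e1 : ∑ ω', cw μ G ω ω' * (- Real.logb 2 (r (G ω') (F ω')) - m' (G ω'))
          = ∑ ω', (cw μ G ω ω' * w ω' - cw μ G ω ω' * mm ω) := by
        refine Finset.sum_congr rfl fun ω' _ => ?_
        by_cases h1 : cw μ G ω ω' = 0
        · rw [h1]; ring
        · rw [hm'e, hmc ω' ω (cw_ne_zero μ G h1).1]
          ring
      rw [e1, Finset.sum_sub_distrib, ← Finset.sum_mul, cw_sum μ G hμ ω h0]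
      simp only [hmm]
      linarith)
  have hsplit : ∑ ω, ν ω * (- Real.logb 2 (r (G ω) (F ω)) - m' (G ω))
      = ∑ ω, ν ω * w ω - ∑ ω, ν ω * mm ω := by
    rw [← Finset.sum_sub_distrib]
    refine Finset.sum_congr rfl fun ω _ => ?_
    rw [hm'e]
    ring
  have hmL : ∀ ω, μ ω ≠ 0 → mm ω ≤ LH μ F G ω + 1 := by
    intro ω h0
    have e1 : LH μ F G ω + 1 = ∑ ω', cw μ G ω ω' * ((Real.logb 2 (pr μ G ω') -
        Real.logb 2 (pr μ (fun ω' => (F ω', G ω')) ω')) + 1) := by
      unfold LH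
      simp only [mul_add, mul_one]
      rw [Finset.sum_add_distrib, cw_sum μ G hμ ω h0]
    rw [e1]
    refine Finset.sum_le_sum fun ω' _ => ?_
    by_cases h1 : cw μ G ω ω' = 0
    · rw [h1, zero_mul, zero_mul]
    · refine mul_le_mul_of_nonneg_left ?_ (cw_nonneg μ G hμ ω ω')
      have h2 := (cw_ne_zero μ G h1).2
      have h3 := e1_pr_pos μ G hμ ω' h2
      have h4 := e1_pr_pos μ (fun ω' => (F ω', G ω')) hμ ω' h2
      simp only [hw]
      have h5 : 1 / 2 * (pr μ (fun ω' => (F ω', G ω')) ω' / pr μ G ω') ≤ r (G ω') (F ω') := by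
        rw [hPF, hPGe]
        simp only [hr]
        have : (0 : ℝ) ≤ if F ω' ∈ I (G ω') then 1 / 2 ^ R else 0 := by
          split_ifs
          · positivity
          · exact le_rfl
        linarith
      have h6 := Real.logb_le_logb_of_le (b := 2) (by norm_num)
        (by have := div_pos h4 h3; positivity) h5
      rw [Real.logb_mul (by norm_num) (div_pos h4 h3).ne', Real.logb_div h4.ne' h3.ne'] at h6
      have h7 : Real.logb 2 (1 / 2) = -1 := by
        rw [one_div, Real.logb_inv, Real.logb_self_eq_one (by norm_num)]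
      rw [h7] at h6
      linarith
  have hfin : ∑ ω, ν ω * mm ω ≤ ∑ ω, ν ω * (LH μ F G ω + 1) := by
    refine Finset.sum_le_sum fun ω _ => ?_
    by_cases h0 : ν ω = 0
    · rw [h0, zero_mul, zero_mul]
    · exact mul_le_mul_of_nonneg_left (hmL ω (hνe ω h0)) (hν0 ω)
  have hgib' : CH ν F (fun ω => (A ω, G ω)) ≤ ∑ ω, ν ω * w ω := by
    refine hgib.trans (le_of_eq ?_)
    rw [← Finset.sum_neg_distrib]
    refine Finset.sum_congr rfl fun ω _ => ?_
    simp only [hw]
    ring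
  rw [hsplit] at htr
  linarith

end Pool.Agent.Helper61.GL
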