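import Pool.Agent.Helper61.GL.Win
import Pool.Agent.Helper61.GL.Trl

/-!
# Kolmogorov-Rogozin growth: sums of nearly independent variables fill the deficient windows

`z_N = z + ∑ X_i(f, A_i)` with `N = 4 ^ n0` summands, tiles of `R` levels.
-/

set_option autoImplicit false

namespace Pool.Agent.Helper61.GL

open Finset Pool.Agent.Helper69.RK

/-- level `l` cell of a real number -/
noncomputable def fl (l : ℕ) (y : ℝ) : ℤ := ⌊(2 : ℝ) ^ l * y⌋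

theorem fl_div {l l' : ℕ} (h : l ≤ l') (y : ℝ) : fl l y = fl l' y / ((2 ^ (l' - l) : ℕ) : ℤ) := by
  unfold fl
  rw [← Int.floor_div_natCast]
  congr 1
  push_cast
  rw [eq_div_iff (by positivity)]
  have : (2 : ℝ) ^ l' = 2 ^ l * 2 ^ (l' - l) := by rw [← pow_add, Nat.add_sub_cancel' h]
  rw [this]
  ring

theorem fl_ref {l l' : ℕ} (h : l ≤ l') {y y' : ℝ} (e : fl l' y = fl l' y') : fl l y = fl l y' := by
  rw [fl_div h, fl_div h, e]

theorem floor_near (a b : ℝ) : |((⌊a⌋ : ℤ) : ℝ) - (⌊b⌋ : ℤ)| ≤ |a - b| + 1 := by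
  have h1 := Int.floor_le a
  have h2 := (Int.lt_floor_add_one a).le
  have h3 := Int.floor_le b
  have h4 := (Int.lt_floor_add_one b).le
  have h5 := neg_abs_le (a - b)
  have h6 := le_abs_self (a - b)
  rw [abs_le]
  constructor <;> linarith

theorem floor_eq_near {a b : ℝ} (h : ⌊a⌋ = ⌊b⌋) : |a - b| ≤ 1 :=
  (Int.abs_sub_lt_one_of_floor_eq_floor h).le

theorem logb_five : Real.logb 2 (4 + 1) ≤ 3 := by
  have h1 : Real.logb 2 (4 + 1) ≤ Real.logb 2 8 :=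
    Real.logb_le_logb_of_le (by norm_num) (by norm_num) (by norm_num)
  have h2 : Real.logb 2 8 = 3 := by
    rw [show (8 : ℝ) = 2 ^ (3 : ℝ) by norm_num, Real.logb_rpow (by norm_num) (by norm_num)]
  linarith

section gen

variable {Ω α β γ δ : Type} [Fintype Ω]

theorem ch_int3 (μ : Ω → ℝ) (hμ : ∀ ω, 0 ≤ μ ω) (X : Ω → ℤ) (G : Ω → γ)
    (h : ∀ ω ω', μ ω ≠ 0 → μ ω' ≠ 0 → G ω = G ω' → |(X ω : ℝ) - X ω'| ≤ 4) :
    CH μ X G ≤ 3 * mass μ := by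
  have h1 := ch_int μ hμ X G 4 (by norm_num) h
  have h2 : 0 ≤ mass μ := Finset.sum_nonneg fun ω _ => hμ ω
  exact h1.trans (mul_le_mul_of_nonneg_right logb_five h2)

/-- nearby integers have nearly the same conditional entropies -/
theorem ch_near (μ : Ω → ℝ) (hμ : ∀ ω, 0 ≤ μ ω) (U U' V V' : Ω → ℤ) (G : Ω → γ)
    (hU : ∀ ω ω', μ ω ≠ 0 → μ ω' ≠ 0 → G ω = G ω' → U' ω = U' ω' → |(U ω : ℝ) - U ω'| ≤ 4)
    (hV : ∀ ω ω', μ ω ≠ 0 → μ ω' ≠ 0 → G ω = G ω' → V ω = V ω' → |(V' ω : ℝ) - V' ω'| ≤ 4) :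
    CH μ U (fun ω => (V ω, G ω)) ≤ CH μ U' (fun ω => (V' ω, G ω)) + 6 * mass μ := by
  have h1 := ch_tri μ hμ U V' (fun ω => (V ω, G ω))
  have h2 := ch_int3 μ hμ V' (fun ω => (V ω, G ω)) (fun ω ω' a b c => by
    rw [Prod.mk.injEq] at c
    exact hV ω ω' a b c.2 c.1)
  have h3 := ch_cond μ hμ U (fun ω => (V' ω, G ω)) (fun ω => (V' ω, (V ω, G ω)))
    (fun ω ω' _ _ c => by
      rw [Prod.mk.injEq, Prod.mk.injEq] at c
      exact Prod.ext c.1 c.2.2)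
  have h4 := ch_tri μ hμ U U' (fun ω => (V' ω, G ω))
  have h5 := ch_int3 μ hμ U (fun ω => (U' ω, (V' ω, G ω))) (fun ω ω' a b c => by
    rw [Prod.mk.injEq, Prod.mk.injEq] at c
    exact hU ω ω' a b c.2.2 c.1)
  linarith

/-- chain rule for a coarser variable -/
theorem ch_diff (μ : Ω → ℝ) (F : Ω → α) (F' : Ω → β) (G : Ω → γ)
    (h : ∀ ω ω', μ ω ≠ 0 → μ ω' ≠ 0 → G ω = G ω' → F ω = F ω' → F' ω = F' ω') :
    CH μ F (fun ω => (F' ω, G ω)) = CH μ F G - CH μ F' G := by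
  have h1 := ch_chain μ F' F G
  have h2 : CH μ (fun ω => (F' ω, F ω)) G = CH μ F G := by
    apply ch_congr_left
    intro ω ω' a b c
    rw [Prod.mk.injEq]
    exact ⟨fun e => e.2, fun e => ⟨h ω ω' a b c e, e⟩⟩
  linarith

omit [Fintype Ω] in
theorem res_congr (μ : Ω → ℝ) (E E' : Ω → Prop) (h : ∀ ω, μ ω ≠ 0 → (E ω ↔ E' ω)) :
    res μ E = res μ E' := by
  funext ω
  unfold res
  by_cases h0 : μ ω = 0
  · rw [h0]
    split_ifs <;> rfl
  · by_cases h1 : E ω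
    · rw [if_pos h1, if_pos ((h ω h0).1 h1)]
    · rw [if_neg h1, if_neg (fun h2 => h1 ((h ω h0).2 h2))]

omit [Fintype Ω] in
theorem res_ne (μ : Ω → ℝ) (E : Ω → Prop) {ω : Ω} (h : res μ E ω ≠ 0) : μ ω ≠ 0 ∧ E ω := by
  by_cases hE : E ω
  · rw [e4_res_pos μ E ω hE] at h
    exact ⟨h, hE⟩
  · rw [e4_res_neg μ E ω hE] at h
    exact absurd rfl h

end gen

/-- data for the growth theorem -/
structure KD (Ω γ α β : Type) [Fintype Ω] where
  μ : Ω → ℝ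
  nn : ∀ ω, 0 ≤ μ ω
  ms : mass μ = 1
  f : Ω → γ
  z : Ω → ℝ
  n0 : ℕ
  κ : ℕ
  b : ℕ
  e0 : ℕ
  A : Fin (4 ^ n0) → Ω → α
  X : Fin (4 ^ n0) → γ → α → ℝ
  cl : γ → ℕ → α → β
  ref : ∀ g l l' a a', l ≤ l' → cl g l' a = cl g l' a' → cl g l a = cl g l a'
  reg : ∀ i g l a a', cl g l a = cl g l a' → |X i g a - X i g a'| ≤ 2 ^ κ / 2 ^ l

namespace KD

variable {Ω γ α β : Type} [Fintype Ω] (d : KD Ω γ α β)

/-- length of a tile -/
def R : ℕ := d.b + d.n0 + d.κ + 2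
/-- start of the tile -/
def e (m : ℕ) : ℕ := d.e0 + m * d.R
/-- level of the conditioning cells -/
def s (m : ℕ) : ℕ := d.e m + (d.n0 + d.κ + 2)
/-- level of the data seen in the tile -/
def F (m : ℕ) : ℕ := d.e (m + 1) + d.κ + 2 * d.n0

/-- the sum -/
noncomputable def zN (ω : Ω) : ℝ := d.z ω + ∑ i, d.X i (d.f ω) (d.A i ω)

/-- the cells of all the data -/
def C (l : ℕ) (ω : Ω) : Fin (4 ^ d.n0) → β := fun i => d.cl (d.f ω) l (d.A i ω)

theorem e_succ (m : ℕ) : d.e (m + 1) = d.e m + d.R := by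
  unfold e
  ring

theorem s_b (m : ℕ) : d.s m + d.b = d.e (m + 1) := by
  rw [e_succ]
  unfold s R
  ring

theorem s_succ (m : ℕ) : d.s (m + 1) = d.s m + d.R := by
  unfold s
  rw [e_succ]
  ring

theorem e_mono {m m' : ℕ} (h : m ≤ m') : d.e m ≤ d.e m' := by
  unfold e
  exact Nat.add_le_add_left (Nat.mul_le_mul_right _ h) _

theorem s_mono {m m' : ℕ} (h : m ≤ m') : d.s m ≤ d.s m' := by
  unfold s
  exact Nat.add_le_add_right (d.e_mono h) _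

theorem s_le_F (m : ℕ) : d.s m ≤ d.F m := by
  have := d.s_b m
  unfold F
  omega

theorem F_le_s (m : ℕ) : d.F m ≤ d.s (m + 2) := by
  unfold F
  unfold s
  rw [d.e_succ (m + 1)]
  unfold R
  omega

theorem C_ref {l l' : ℕ} (h : l ≤ l') {ω ω' : Ω} (hf : d.f ω = d.f ω') (hC : d.C l' ω = d.C l' ω') :
    d.C l ω = d.C l ω' := by
  funext i
  have h1 : d.cl (d.f ω) l' (d.A i ω) = d.cl (d.f ω') l' (d.A i ω') := congrFun hC i
  change d.cl (d.f ω) l (d.A i ω) = d.cl (d.f ω') l (d.A i ω')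
  rw [← hf] at h1 ⊢
  exact d.ref _ _ _ _ _ h h1

/-- the condition in a tile -/
noncomputable def GG (l : ℕ) (ω : Ω) : ℝ × γ × (Fin (4 ^ d.n0) → β) := (d.z ω, d.f ω, d.C l ω)

/-- the own condition of a summand -/
def HH (d : KD Ω γ α β) (i : Fin (4 ^ d.n0)) (g : ℝ × γ × (Fin (4 ^ d.n0) → β)) : γ × β :=
  (g.2.1, g.2.2 i)

/-- total correlation up to level `l` -/
noncomputable def Th (l : ℕ) : ℝ :=
  (∑ i, CH d.μ (fun ω => d.cl (d.f ω) l (d.A i ω)) d.f) -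
    CH d.μ (fun ω => d.C l ω) (fun ω => (d.z ω, d.f ω))

/-- total correlation between two levels -/
noncomputable def TL (l l' : ℕ) : ℝ :=
  TC d.μ (fun i ω => d.cl (d.f ω) l' (d.A i ω)) (d.GG l) d.HH

theorem TL_eq {l l' : ℕ} (h : l ≤ l') : d.TL l l' = d.Th l' - d.Th l := by
  unfold TL TC Th
  have h1 : ∀ i, CH d.μ (fun ω => d.cl (d.f ω) l' (d.A i ω)) (hg d.HH (d.GG l) i)
      = CH d.μ (fun ω => d.cl (d.f ω) l' (d.A i ω)) d.f
        - CH d.μ (fun ω => d.cl (d.f ω) l (d.A i ω)) d.f := by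
    intro i
    rw [← ch_diff d.μ (fun ω => d.cl (d.f ω) l' (d.A i ω)) (fun ω => d.cl (d.f ω) l (d.A i ω)) d.f]
    · apply ch_congr_right
      intro ω ω' _ _
      change ((d.f ω, d.cl (d.f ω) l (d.A i ω)) = (d.f ω', d.cl (d.f ω') l (d.A i ω'))) ↔ _
      rw [Prod.mk.injEq, Prod.mk.injEq]
      exact and_comm
    · intro ω ω' _ _ hf hc
      rw [← hf] at hc ⊢
      exact d.ref _ _ _ _ _ h hc
  have h2 : CH d.μ (fun ω => fun i => d.cl (d.f ω) l' (d.A i ω)) (d.GG l)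
      = CH d.μ (fun ω => d.C l' ω) (fun ω => (d.z ω, d.f ω))
        - CH d.μ (fun ω => d.C l ω) (fun ω => (d.z ω, d.f ω)) := by
    rw [← ch_diff d.μ (fun ω => d.C l' ω) (fun ω => d.C l ω) (fun ω => (d.z ω, d.f ω))]
    · change CH d.μ (fun ω => d.C l' ω) (d.GG l) = _
      apply ch_congr_right
      intro ω ω' _ _
      unfold GG
      rw [Prod.mk.injEq, Prod.mk.injEq, Prod.mk.injEq, Prod.mk.injEq]
      tauto
    · intro ω ω' _ _ hg hc
      exact d.C_ref h (Prod.ext_iff.1 hg).2 hc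
  rw [Finset.sum_congr rfl (fun i _ => h1 i), h2, Finset.sum_sub_distrib]
  ring

theorem TL_nonneg (l l' : ℕ) : 0 ≤ d.TL l l' := TC_nonneg _ _ _ _ d.nn

theorem Th_mono {l l' : ℕ} (h : l ≤ l') : d.Th l ≤ d.Th l' := by
  have := d.TL_nonneg l l'
  rw [d.TL_eq h] at this
  linarith

theorem Th_nonneg (l : ℕ) : 0 ≤ d.Th l := by
  have h := TC_nonneg d.μ (fun i ω => d.cl (d.f ω) l (d.A i ω)) (fun ω => (d.z ω, d.f ω))
    (fun _ g => g.2) d.nn
  exact h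

/-- the total correlations of the tiles overlap at most twice -/
theorem sum_TL (M : ℕ) : ∑ m ∈ range M, d.TL (d.s m) (d.F m) ≤ 2 * d.Th (d.s (M + 1)) := by
  have h1 : ∑ m ∈ range M, d.TL (d.s m) (d.F m)
      ≤ ∑ m ∈ range M, (d.Th (d.s (m + 2)) - d.Th (d.s m)) := by
    refine Finset.sum_le_sum fun m _ => ?_
    rw [d.TL_eq (d.s_le_F m)]
    have := d.Th_mono (d.F_le_s m)
    linarith
  have h2 : ∀ M : ℕ, ∑ m ∈ range M, (d.Th (d.s (m + 2)) - d.Th (d.s m))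
      = d.Th (d.s (M + 1)) + d.Th (d.s M) - d.Th (d.s 1) - d.Th (d.s 0) := by
    intro M
    induction M with
    | zero => simp
    | succ M ih =>
      rw [Finset.sum_range_succ, ih]
      ring
  rw [h2] at h1
  have h3 := d.Th_mono (d.s_mono (Nat.le_succ M))
  have h4 := d.Th_nonneg (d.s 1)
  have h5 := d.Th_nonneg (d.s 0)
  linarith

/-- the variables seen at the start of a tile -/
noncomputable def g0 (m : ℕ) (ω : Ω) : ℤ × γ × (Fin (4 ^ d.n0) → β) :=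
  (fl (d.e m) (d.z ω), d.f ω, d.C (d.s m) ω)

/-- the condition in a tile of `z` -/
noncomputable def gz (m : ℕ) (ω : Ω) : ℤ × γ := (fl (d.e m) (d.z ω), d.f ω)

/-- the hypothesis: on the event `E` of the tile `m` the summands in `T` are not atomic -/
def NA (d : KD Ω γ α β) (p : ℝ) (E : ℤ × γ × (Fin (4 ^ d.n0) → β) → Prop)
    (T : ℤ × γ × (Fin (4 ^ d.n0) → β) → Finset (Fin (4 ^ d.n0))) (m : ℕ) : Prop :=
  ∀ ω, d.μ ω ≠ 0 → E (d.g0 m ω) → ∀ i ∈ T (d.g0 m ω), ∀ c : ℝ,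
    p ≤ ∑ ω' ∈ univ.filter (fun ω' => 2 ≤ |(2 : ℝ) ^ d.e (m + 1) * d.X i (d.f ω) (d.A i ω') - c|),
      cw d.μ (fun ω'' => (d.f ω'', d.cl (d.f ω'') (d.s m) (d.A i ω''))) ω ω'

open Classical in
/-- the summand as a function of the data of level `F` -/
noncomputable def xt (m : ℕ) (i : Fin (4 ^ d.n0)) (g : γ × β) (c : β) : ℝ :=
  if h : ∃ a, d.cl g.1 (d.F m) a = c then (2 : ℝ) ^ d.e (m + 1) * d.X i g.1 h.choose else 0

theorem four_pow_inv : (4 : ℝ) ^ d.n0 * (1 / 4 ^ d.n0) = 1 := by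
  rw [mul_one_div, div_self (by positivity)]

/-- truncation error -/
theorem xt_err (m : ℕ) (i : Fin (4 ^ d.n0)) (g : γ × β) (a : α) :
    |d.xt m i g (d.cl g.1 (d.F m) a) - (2 : ℝ) ^ d.e (m + 1) * d.X i g.1 a| ≤ 1 / 4 ^ d.n0 := by
  have hex : ∃ a', d.cl g.1 (d.F m) a' = d.cl g.1 (d.F m) a := ⟨a, rfl⟩
  unfold xt
  rw [dif_pos hex, ← mul_sub, abs_mul, abs_of_pos (by positivity)]
  have h1 := d.reg i g.1 (d.F m) _ _ hex.choose_spec
  calc (2 : ℝ) ^ d.e (m + 1) * |d.X i g.1 hex.choose - d.X i g.1 a|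
      ≤ (2 : ℝ) ^ d.e (m + 1) * (2 ^ d.κ / 2 ^ d.F m) := mul_le_mul_of_nonneg_left h1 (by positivity)
    _ = 1 / 4 ^ d.n0 := by
      have e1 : (2 : ℝ) ^ d.F m = 2 ^ d.e (m + 1) * 2 ^ d.κ * 4 ^ d.n0 := by
        unfold F
        rw [pow_add, pow_add, pow_mul]
        norm_num
      rw [e1]
      field_simp

theorem four_inv_le : (1 : ℝ) / 4 ^ d.n0 ≤ 1 := by
  rw [div_le_one (by positivity)]
  exact one_le_pow₀ (by norm_num)

/-- entropy of the tile of the sum on the event -/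
theorem tile_event (m : ℕ) {p : ℝ} (hp : 0 < p) (hp1 : p ≤ 1)
    (E : ℤ × γ × (Fin (4 ^ d.n0) → β) → Prop)
    (T : ℤ × γ × (Fin (4 ^ d.n0) → β) → Finset (Fin (4 ^ d.n0))) (hT : d.NA p E T m) :
    (∑ ω, res d.μ (fun ω => E (d.g0 m ω)) ω *
        (1 / 2 * Real.logb 2 (p * ((T (d.g0 m ω)).card + 1)))) - 2 * d.TL (d.s m) (d.F m)
        - 12 * mass (res d.μ (fun ω => E (d.g0 m ω))) ≤
      CH (res d.μ (fun ω => E (d.g0 m ω))) (fun ω => fl (d.e (m + 1)) (d.zN ω))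
        (fun ω => (fl (d.e m) (d.zN ω), d.GG (d.s m) ω)) := by
  classical
  set E' : ℝ × γ × (Fin (4 ^ d.n0) → β) → Prop := fun g => E (fl (d.e m) g.1, g.2.1, g.2.2) with hE'
  set T' : ℝ × γ × (Fin (4 ^ d.n0) → β) → Finset (Fin (4 ^ d.n0)) :=
    fun g => T (fl (d.e m) g.1, g.2.1, g.2.2) with hT'
  have hxe : ∀ i ω ω', d.f ω' = d.f ω → |d.xt m i (d.HH i (d.GG (d.s m) ω))
      (d.cl (d.f ω') (d.F m) (d.A i ω')) - (2 : ℝ) ^ d.e (m + 1) * d.X i (d.f ω) (d.A i ω')|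
        ≤ 1 / 4 ^ d.n0 := by
    intro i ω ω' hf
    have := d.xt_err m i (d.HH i (d.GG (d.s m) ω)) (d.A i ω')
    rw [hf]
    exact this
  have h1 := window_bound d.μ (fun i ω => d.cl (d.f ω) (d.F m) (d.A i ω)) (d.GG (d.s m)) d.HH d.nn E'
    (fun g => (2 : ℝ) ^ d.e (m + 1) * g.1) (d.xt m) hp hp1 T'
    (fun ω h0 hE i hi c => by
      refine (hT ω h0 hE i hi c).trans ?_
      rw [Finset.sum_filter, Finset.sum_filter]
      refine Finset.sum_le_sum fun ω' _ => ?_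
      have hcw : cw d.μ (fun ω'' => (d.f ω'', d.cl (d.f ω'') (d.s m) (d.A i ω''))) ω ω'
          = cw d.μ (hg d.HH (d.GG (d.s m)) i) ω ω' := rfl
      rw [hcw]
      by_cases hz : cw d.μ (hg d.HH (d.GG (d.s m)) i) ω ω' = 0
      · rw [hz]
        split_ifs <;> exact le_rfl
      have h2 := (cw_ne_zero d.μ _ hz).1
      have hf : d.f ω' = d.f ω := (Prod.ext_iff.1 h2).1
      have h3 := hxe i ω ω' hf
      by_cases h4 : 2 ≤ |(2 : ℝ) ^ d.e (m + 1) * d.X i (d.f ω) (d.A i ω') - c|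
      · rw [if_pos h4, if_pos]
        have h5 := abs_sub_abs_le_abs_sub ((2 : ℝ) ^ d.e (m + 1) * d.X i (d.f ω) (d.A i ω') - c)
          (d.xt m i (d.HH i (d.GG (d.s m) ω)) (d.cl (d.f ω') (d.F m) (d.A i ω')) - c)
        have h6 : ((2 : ℝ) ^ d.e (m + 1) * d.X i (d.f ω) (d.A i ω') - c) -
            (d.xt m i (d.HH i (d.GG (d.s m) ω)) (d.cl (d.f ω') (d.F m) (d.A i ω')) - c)
            = - (d.xt m i (d.HH i (d.GG (d.s m) ω)) (d.cl (d.f ω') (d.F m) (d.A i ω'))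
              - (2 : ℝ) ^ d.e (m + 1) * d.X i (d.f ω) (d.A i ω')) := by ring
        rw [h6, abs_neg] at h5
        have h7 := d.four_inv_le
        linarith
      · rw [if_neg h4]
        split_ifs
        · exact cw_nonneg _ _ d.nn _ _
        · exact le_rfl)
    (2 ^ (d.b + d.κ + 2)) (2 ^ d.R) (by positivity)
    (by
      rw [Fintype.card_fin]
      push_cast
      apply le_of_eq
      unfold R
      rw [← pow_mul, ← pow_mul, show ((4 : ℝ)) = 2 ^ 2 by norm_num, ← pow_mul, ← pow_add]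
      congr 1
      ring)
    (fun i ω ω' _ _ h2 => by
      have hf : d.f ω = d.f ω' := (Prod.ext_iff.1 h2).1
      have hc : d.cl (d.f ω) (d.s m) (d.A i ω) = d.cl (d.f ω') (d.s m) (d.A i ω') :=
        (Prod.ext_iff.1 h2).2
      rw [← hf] at hc
      have h3 := hxe i ω ω rfl
      have h4 := hxe i ω ω' hf.symm
      have h5 := d.reg i (d.f ω) (d.s m) _ _ hc
      have h6 : (2 : ℝ) ^ d.e (m + 1) * (2 ^ d.κ / 2 ^ d.s m) = 2 ^ (d.b + d.κ) := by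
        rw [← d.s_b m, pow_add, pow_add]
        field_simp
      have h7 := mul_le_mul_of_nonneg_left h5 (by positivity : (0 : ℝ) ≤ 2 ^ d.e (m + 1))
      rw [h6, ← abs_of_pos (by positivity : (0 : ℝ) < 2 ^ d.e (m + 1)), ← abs_mul] at h7
      have h8 := d.four_inv_le
      have h9 : (2 : ℝ) ^ (d.b + d.κ + 2) = 4 * 2 ^ (d.b + d.κ) := by
        rw [pow_add]
        ring
      have h10 : (1 : ℝ) ≤ 2 ^ (d.b + d.κ) := one_le_pow₀ (by norm_num)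
      rw [h9]
      set x1 := d.xt m i (d.HH i (d.GG (d.s m) ω)) (d.cl (d.f ω) (d.F m) (d.A i ω)) with hx1
      set x2 := d.xt m i (d.HH i (d.GG (d.s m) ω)) (d.cl (d.f ω') (d.F m) (d.A i ω')) with hx2
      have h11 : x1 - x2 = (x1 - (2 : ℝ) ^ d.e (m + 1) * d.X i (d.f ω) (d.A i ω))
          - (x2 - (2 : ℝ) ^ d.e (m + 1) * d.X i (d.f ω) (d.A i ω'))
          + (2 : ℝ) ^ d.e (m + 1) * (d.X i (d.f ω) (d.A i ω) - d.X i (d.f ω) (d.A i ω')) := by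
        ring
      rw [h11]
      have t1 := abs_add_le ((x1 - (2 : ℝ) ^ d.e (m + 1) * d.X i (d.f ω) (d.A i ω))
          - (x2 - (2 : ℝ) ^ d.e (m + 1) * d.X i (d.f ω) (d.A i ω')))
          ((2 : ℝ) ^ d.e (m + 1) * (d.X i (d.f ω) (d.A i ω) - d.X i (d.f ω) (d.A i ω')))
      have t2 := abs_sub (x1 - (2 : ℝ) ^ d.e (m + 1) * d.X i (d.f ω) (d.A i ω))
          (x2 - (2 : ℝ) ^ d.e (m + 1) * d.X i (d.f ω) (d.A i ω'))
      linarith)
  -- compare with the true sum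
  set ν := res d.μ (fun ω => E (d.g0 m ω)) with hν
  have hν0 : ∀ ω, 0 ≤ ν ω := e4_res_nonneg _ _ d.nn
  have hνe : res d.μ (fun ω => E' (d.GG (d.s m) ω)) = ν := rfl
  rw [hνe] at h1
  set S : Ω → ℝ := fun ω => (2 : ℝ) ^ d.e (m + 1) * (d.GG (d.s m) ω).1
    + ∑ i, d.xt m i (d.HH i (d.GG (d.s m) ω)) (d.cl (d.f ω) (d.F m) (d.A i ω)) with hS
  have hSz : ∀ ω, |S ω - (2 : ℝ) ^ d.e (m + 1) * d.zN ω| ≤ 1 := by
    intro ω
    have e1 : S ω - (2 : ℝ) ^ d.e (m + 1) * d.zN ω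
        = ∑ i, (d.xt m i (d.HH i (d.GG (d.s m) ω)) (d.cl (d.f ω) (d.F m) (d.A i ω))
          - (2 : ℝ) ^ d.e (m + 1) * d.X i (d.f ω) (d.A i ω)) := by
      rw [Finset.sum_sub_distrib, ← Finset.mul_sum]
      simp only [hS]
      unfold zN GG
      ring
    rw [e1]
    refine (Finset.abs_sum_le_sum_abs _ _).trans ?_
    calc ∑ i, |d.xt m i (d.HH i (d.GG (d.s m) ω)) (d.cl (d.f ω) (d.F m) (d.A i ω))
          - (2 : ℝ) ^ d.e (m + 1) * d.X i (d.f ω) (d.A i ω)|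
        ≤ ∑ _i : Fin (4 ^ d.n0), (1 : ℝ) / 4 ^ d.n0 := Finset.sum_le_sum fun i _ => hxe i ω ω rfl
      _ = 1 := by
        rw [Finset.sum_const, Finset.card_univ, Fintype.card_fin, nsmul_eq_mul]
        push_cast
        exact d.four_pow_inv
  have h2 := ch_near ν hν0 (fun ω => ⌊S ω⌋) (fun ω => fl (d.e (m + 1)) (d.zN ω))
    (fun ω => ⌊S ω / 2 ^ d.R⌋) (fun ω => fl (d.e m) (d.zN ω)) (d.GG (d.s m))
    (fun ω ω' _ _ _ hu => by
      have a1 := floor_near (S ω) (S ω')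
      have a2 := floor_eq_near hu
      have a3 : S ω - S ω' = (S ω - (2 : ℝ) ^ d.e (m + 1) * d.zN ω)
        - (S ω' - (2 : ℝ) ^ d.e (m + 1) * d.zN ω')
        + ((2 : ℝ) ^ d.e (m + 1) * d.zN ω - (2 : ℝ) ^ d.e (m + 1) * d.zN ω') := by ring
      have t1 := abs_add_le ((S ω - (2 : ℝ) ^ d.e (m + 1) * d.zN ω)
        - (S ω' - (2 : ℝ) ^ d.e (m + 1) * d.zN ω'))
        ((2 : ℝ) ^ d.e (m + 1) * d.zN ω - (2 : ℝ) ^ d.e (m + 1) * d.zN ω')
      have t2 := abs_sub (S ω - (2 : ℝ) ^ d.e (m + 1) * d.zN ω)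
        (S ω' - (2 : ℝ) ^ d.e (m + 1) * d.zN ω')
      rw [← a3] at t1
      have t3 := hSz ω
      have t4 := hSz ω'
      linarith)
    (fun ω ω' _ _ _ hv => by
      have a2 := floor_eq_near hv
      have a1 := floor_near ((2 : ℝ) ^ d.e m * d.zN ω) ((2 : ℝ) ^ d.e m * d.zN ω')
      have hR1 : (1 : ℝ) ≤ 2 ^ d.R := one_le_pow₀ (by norm_num)
      have e2 : ∀ y : ℝ, (2 : ℝ) ^ d.e m * y = (2 : ℝ) ^ d.e (m + 1) * y / 2 ^ d.R := by
        intro y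
        rw [d.e_succ, pow_add]
        field_simp
      have hb : ∀ ω, |(2 : ℝ) ^ d.e m * d.zN ω - S ω / 2 ^ d.R| ≤ 1 := by
        intro ω
        rw [e2, ← sub_div, abs_div, abs_of_pos (by positivity : (0 : ℝ) < 2 ^ d.R),
          div_le_one (by positivity), abs_sub_comm]
        exact (hSz ω).trans hR1
      have a3 : (2 : ℝ) ^ d.e m * d.zN ω - (2 : ℝ) ^ d.e m * d.zN ω'
        = ((2 : ℝ) ^ d.e m * d.zN ω - S ω / 2 ^ d.R) - ((2 : ℝ) ^ d.e m * d.zN ω' - S ω' / 2 ^ d.R)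
          + (S ω / 2 ^ d.R - S ω' / 2 ^ d.R) := by ring
      have t1 := abs_add_le (((2 : ℝ) ^ d.e m * d.zN ω - S ω / 2 ^ d.R) -
        ((2 : ℝ) ^ d.e m * d.zN ω' - S ω' / 2 ^ d.R)) (S ω / 2 ^ d.R - S ω' / 2 ^ d.R)
      have t2 := abs_sub ((2 : ℝ) ^ d.e m * d.zN ω - S ω / 2 ^ d.R)
        ((2 : ℝ) ^ d.e m * d.zN ω' - S ω' / 2 ^ d.R)
      rw [← a3] at t1
      have t3 := hb ω
      have t4 := hb ω'
      unfold fl
      linarith)
  have h3 : TC d.μ (fun i ω => d.cl (d.f ω) (d.F m) (d.A i ω)) (d.GG (d.s m)) d.HH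
      = d.TL (d.s m) (d.F m) := rfl
  rw [h3] at h1
  have h4 : (∑ ω, ν ω * (1 / 2 * Real.logb 2 (p * ((T' (d.GG (d.s m) ω)).card + 1))))
      = ∑ ω, ν ω * (1 / 2 * Real.logb 2 (p * ((T (d.g0 m ω)).card + 1))) := rfl
  rw [h4] at h1
  linarith

end KD

end Pool.Agent.Helper61.GL
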