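import Mathlib

/-!
# The Kolmogorov-Rogozin concentration inequality for finite distributions
-/

set_option autoImplicit false

namespace Pool.Agent.Helper61.GL

open Finset

theorem centralBinom_sq (m : ℕ) : (m.centralBinom : ℝ) ^ 2 * (2 * m + 1) ≤ 16 ^ m := by
  induction m with
  | zero => simp
  | succ m ih =>
    have h := Nat.succ_mul_centralBinom_succ m
    have h1 : ((m : ℝ) + 1) * ((m + 1).centralBinom : ℝ) = 2 * (2 * m + 1) * m.centralBinom := by
      exact_mod_cast h
    have hm : (0 : ℝ) ≤ m := Nat.cast_nonneg m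
    have h2 : (((m + 1).centralBinom : ℝ) ^ 2 * (2 * ((m + 1 : ℕ) : ℝ) + 1)) * ((m : ℝ) + 1) ^ 2
        ≤ 16 ^ (m + 1) * ((m : ℝ) + 1) ^ 2 := by
      have e : (((m + 1).centralBinom : ℝ) ^ 2 * (2 * ((m + 1 : ℕ) : ℝ) + 1)) * ((m : ℝ) + 1) ^ 2
          = 4 * (2 * m + 1) * (2 * m + 3) * ((m.centralBinom : ℝ) ^ 2 * (2 * m + 1)) := by
        push_cast
        have : (((m + 1).centralBinom : ℝ) ^ 2) * ((m : ℝ) + 1) ^ 2
            = (2 * (2 * m + 1) * m.centralBinom) ^ 2 := by rw [← h1]; ring
        linear_combination (2 * ((m : ℝ) + 1) + 1) * this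
      rw [e, pow_succ]
      have h3 : 4 * (2 * (m : ℝ) + 1) * (2 * m + 3) ≤ 16 * (m + 1) ^ 2 := by nlinarith
      calc 4 * (2 * (m : ℝ) + 1) * (2 * m + 3) * ((m.centralBinom : ℝ) ^ 2 * (2 * m + 1))
          ≤ (16 * (m + 1) ^ 2) * 16 ^ m := by
            apply mul_le_mul h3 ih (by positivity) (by positivity)
        _ = 16 ^ m * 16 * ((m : ℝ) + 1) ^ 2 := by ring
    exact le_of_mul_le_mul_right h2 (by positivity)

theorem choose_half_sq (M : ℕ) : ((M.choose (M / 2) : ℕ) : ℝ) ^ 2 * (M + 1) ≤ (2 ^ M) ^ 2 := by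
  rcases Nat.even_or_odd' M with ⟨m, h | h⟩
  · subst h
    have e : 2 * m / 2 = m := by omega
    rw [e]
    have h1 := centralBinom_sq m
    unfold Nat.centralBinom at h1
    push_cast
    have e2 : ((2 : ℝ) ^ (2 * m)) ^ 2 = 16 ^ m := by
      rw [← pow_mul, show 2 * m * 2 = 4 * m by ring, pow_mul]
      norm_num
    rw [e2]
    exact h1
  · subst h
    have e : (2 * m + 1) / 2 = m := by omega
    rw [e]
    have h1 := centralBinom_sq (m + 1)
    have h2 : (m + 1).centralBinom = 2 * (2 * m + 1).choose m := by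
      unfold Nat.centralBinom
      rw [show 2 * (m + 1) = (2 * m + 1) + 1 by ring, Nat.choose_succ_succ' (2 * m + 1) m]
      have : (2 * m + 1).choose (m + 1) = (2 * m + 1).choose m := by
        rw [← Nat.choose_symm_half]
      rw [this]
      ring
    rw [h2] at h1
    push_cast at h1 ⊢
    have e2 : ((2 : ℝ) ^ (2 * m + 1)) ^ 2 = 4 * 16 ^ m := by
      rw [← pow_mul, show (2 * m + 1) * 2 = 2 + 4 * m by ring, pow_add, pow_mul]
      norm_num
    rw [e2]
    have hc : (0 : ℝ) ≤ ((2 * m + 1).choose m : ℝ) ^ 2 := by positivity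
    have e3 : (16 : ℝ) ^ (m + 1) = 16 * 16 ^ m := by ring
    rw [e3] at h1
    nlinarith

/-- Erdos, Littlewood-Offord -/
theorem lo_card {κ : Type*} [Fintype κ] [DecidableEq κ] (u v : κ → ℝ)
    (h : ∀ i, 1 ≤ |u i - v i|) (c : ℝ) (F : Finset (κ → Bool))
    (hF : ∀ ε ∈ F, c ≤ ∑ i, (if ε i = true then u i else v i) ∧
      ∑ i, (if ε i = true then u i else v i) < c + 1) :
    F.card ≤ (Fintype.card κ).choose (Fintype.card κ / 2) := by
  classical
  set ch : (κ → Bool) → κ → ℝ := fun ε i => if ε i = true then u i else v i with hch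
  set φ : (κ → Bool) → Finset κ := fun ε => univ.filter (fun i => ch ε i = max (u i) (v i)) with hφ
  have hne : ∀ i, u i ≠ v i := by
    intro i h1
    have := h i
    rw [h1, sub_self, abs_zero] at this
    linarith
  have hmem : ∀ ε i, i ∈ φ ε ↔ ch ε i = max (u i) (v i) := by
    intro ε i
    simp [hφ]
  have hnot : ∀ ε i, i ∉ φ ε → ch ε i = min (u i) (v i) := by
    intro ε i hi
    rw [hmem] at hi
    simp only [hch] at hi ⊢
    split_ifs at hi ⊢ with h1
    · rcases le_total (u i) (v i) with h2 | h2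
      · rw [min_eq_left h2]
      · exact absurd (max_eq_left h2).symm hi
    · rcases le_total (u i) (v i) with h2 | h2
      · exact absurd (max_eq_right h2).symm hi
      · rw [min_eq_right h2]
  have hinj : Function.Injective φ := by
    intro ε ε' he
    have h1 : ∀ i, ch ε i = ch ε' i := by
      intro i
      by_cases hi : i ∈ φ ε
      · rw [(hmem ε i).1 hi, (hmem ε' i).1 (he ▸ hi)]
      · rw [hnot ε i hi, hnot ε' i (he ▸ hi)]
    funext i
    have h2 := h1 i
    simp only [hch] at h2
    have h3 := hne i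
    cases h4 : ε i <;> cases h5 : ε' i <;> simp only [h4, h5] at h2 ⊢
    · simp at h2
      exact absurd h2.symm h3
    · simp at h2
      exact absurd h2 h3
  have hmm : ∀ i, min (u i) (v i) + 1 ≤ max (u i) (v i) := by
    intro i
    have h1 := h i
    rcases le_total (u i) (v i) with h2 | h2
    · rw [min_eq_left h2, max_eq_right h2]
      rw [abs_of_nonpos (by linarith)] at h1
      linarith
    · rw [min_eq_right h2, max_eq_left h2]
      rw [abs_of_nonneg (by linarith)] at h1
      linarith
  have hanti : IsAntichain (· ⊆ ·) (SetLike.coe (F.image φ)) := by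
    intro A hA B hB hAB hsub
    rw [SetLike.mem_coe, Finset.mem_image] at hA hB
    obtain ⟨ε, hε, rfl⟩ := hA
    obtain ⟨ε', hε', rfl⟩ := hB
    obtain ⟨i0, hi0, hi0'⟩ : ∃ i, i ∈ φ ε' ∧ i ∉ φ ε := by
      by_contra hcon
      push Not at hcon
      exact hAB (Finset.Subset.antisymm hsub hcon)
    have hle : ∀ i, ch ε i ≤ ch ε' i := by
      intro i
      by_cases hi : i ∈ φ ε
      · rw [(hmem ε i).1 hi, (hmem ε' i).1 (hsub hi)]
      · rw [hnot ε i hi]
        by_cases hi' : i ∈ φ ε'
        · rw [(hmem ε' i).1 hi']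
          exact min_le_max
        · rw [hnot ε' i hi']
    have hlt : ch ε i0 + 1 ≤ ch ε' i0 := by
      rw [hnot ε i0 hi0', (hmem ε' i0).1 hi0]
      exact hmm i0
    have hs : ∑ i, ch ε i + 1 ≤ ∑ i, ch ε' i := by
      rw [← Finset.add_sum_erase _ _ (Finset.mem_univ i0),
        ← Finset.add_sum_erase _ (ch ε') (Finset.mem_univ i0)]
      have := Finset.sum_le_sum (s := (univ : Finset κ).erase i0) (f := ch ε) (g := ch ε')
        (fun i _ => hle i)
      linarith
    have h1 := (hF ε hε).1
    have h2 := (hF ε' hε').2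
    change c ≤ ∑ i, ch ε i at h1
    change ∑ i, ch ε' i < c + 1 at h2
    linarith
  have := hanti.sperner
  rwa [Finset.card_image_of_injective _ hinj] at this

/-- Littlewood-Offord when only some of the differences are large -/
theorem lo_count {ι : Type*} [Fintype ι] [DecidableEq ι] (u v : ι → ℝ) (c : ℝ) :
    ((univ.filter (fun ε : ι → Bool => c ≤ ∑ i, (if ε i = true then u i else v i) ∧
      ∑ i, (if ε i = true then u i else v i) < c + 1)).card : ℝ)
      ≤ 2 ^ (Fintype.card ι) * (1 / Real.sqrt ((univ.filter (fun i => 1 ≤ |u i - v i|)).card + 1)) := by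
  classical
  set T : ι → Prop := fun i => 1 ≤ |u i - v i| with hT
  set M : ℕ := (univ.filter T).card with hM
  have hcardT : Fintype.card {i // T i} = M := by
    rw [Fintype.card_subtype]
  -- split the coordinates
  set Φ := Equiv.piEquivPiSubtypeProd T (fun _ : ι => Bool) with hΦ
  set A := univ.filter (fun ε : ι → Bool => c ≤ ∑ i, (if ε i = true then u i else v i) ∧
      ∑ i, (if ε i = true then u i else v i) < c + 1) with hA
  have hsplit : ∀ ε : ι → Bool, ∑ i, (if ε i = true then u i else v i)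
      = ∑ i : {i // T i}, (if (Φ ε).1 i = true then u i else v i)
        + ∑ i : {i // ¬ T i}, (if (Φ ε).2 i = true then u i else v i) := by
    intro ε
    exact (Fintype.sum_subtype_add_sum_subtype T (fun i => if ε i = true then u i else v i)).symm
  have h1 : A.card ≤ (univ : Finset ({i // ¬ T i} → Bool)).card * M.choose (M / 2) := by
    have e1 : A.card = ∑ g : ({i // ¬ T i} → Bool), (A.filter (fun ε => (Φ ε).2 = g)).card :=
      Finset.card_eq_sum_card_fiberwise (fun ε _ => Finset.mem_univ _)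
    rw [e1]
    refine (Finset.sum_le_card_nsmul _ _ (M.choose (M / 2)) ?_).trans (by rw [smul_eq_mul])
    intro g _
    have hinj : Set.InjOn (fun ε : ι → Bool => (Φ ε).1) (A.filter (fun ε => (Φ ε).2 = g)) := by
      intro ε hε ε' hε' he
      rw [Finset.mem_coe, Finset.mem_filter] at hε hε'
      exact Φ.injective (Prod.ext he (hε.2.trans hε'.2.symm))
    rw [← Finset.card_image_of_injOn hinj, ← hcardT]
    apply lo_card (fun i : {i // T i} => u i) (fun i => v i) (fun i => i.2)
      (c - ∑ i : {i // ¬ T i}, (if g i = true then u i else v i))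
    intro δ hδ
    rw [Finset.mem_image] at hδ
    obtain ⟨ε, hε, rfl⟩ := hδ
    rw [Finset.mem_filter, hA, Finset.mem_filter] at hε
    obtain ⟨⟨_, h2, h3⟩, h4⟩ := hε
    rw [hsplit ε, h4] at h2 h3
    constructor <;> linarith
  have hcard2 : (univ : Finset ({i // ¬ T i} → Bool)).card = 2 ^ (Fintype.card ι - M) := by
    rw [Finset.card_univ, Fintype.card_fun, Fintype.card_bool]
    congr 1
    rw [Fintype.card_subtype_compl, hcardT]
  have hMle : M ≤ Fintype.card ι := by
    rw [hM]
    exact Finset.card_le_univ _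
  have h5 : ((M.choose (M / 2) : ℕ) : ℝ) ≤ 2 ^ M * (1 / Real.sqrt ((M : ℝ) + 1)) := by
    have h6 := choose_half_sq M
    have hpos : (0 : ℝ) < (M : ℝ) + 1 := by positivity
    rw [mul_one_div, le_div_iff₀ (Real.sqrt_pos.2 hpos)]
    apply le_of_sq_le_sq _ (by positivity)
    rw [mul_pow, Real.sq_sqrt hpos.le]
    exact h6
  calc (A.card : ℝ) ≤ (((univ : Finset ({i // ¬ T i} → Bool)).card * M.choose (M / 2) : ℕ) : ℝ) := by
        exact_mod_cast h1
    _ = 2 ^ (Fintype.card ι - M) * ((M.choose (M / 2) : ℕ) : ℝ) := by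
        rw [hcard2]
        push_cast
        ring
    _ ≤ 2 ^ (Fintype.card ι - M) * (2 ^ M * (1 / Real.sqrt ((M : ℝ) + 1))) :=
        mul_le_mul_of_nonneg_left h5 (by positivity)
    _ = 2 ^ (Fintype.card ι) * (1 / Real.sqrt ((M : ℝ) + 1)) := by
        rw [← mul_assoc, ← pow_add, Nat.sub_add_cancel hMle]

section product

variable {ι α : Type*} [Fintype ι] [DecidableEq ι] [Fintype α]

/-- sum of a product over all functions -/
theorem sum_prod_fun {β : Type*} [Fintype β] (f : ι → β → ℝ) :
    ∑ a : ι → β, ∏ i, f i (a i) = ∏ i, ∑ b, f i b := by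
  classical
  rw [Finset.prod_univ_sum, Fintype.piFinset_univ]

/-- mixing two independent copies -/
theorem mix_sum (w : ι → α → ℝ) (hw : ∀ i, ∑ a, w i a = 1) (F : (ι → α) → ℝ) (ε : ι → Bool) :
    ∑ b : ι → α × α, (∏ i, (w i (b i).1 * w i (b i).2)) *
      F (fun i => if ε i = true then (b i).1 else (b i).2) = ∑ a : ι → α, (∏ i, w i (a i)) * F a := by
  classical
  -- swap the coordinates with `ε i = false`
  let σ : (ι → α × α) ≃ (ι → α × α) :=
    { toFun := fun b i => if ε i = true then b i else (b i).swap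
      invFun := fun b i => if ε i = true then b i else (b i).swap
      left_inv := by
        intro b
        funext i
        by_cases h : ε i = true <;> simp [h]
      right_inv := by
        intro b
        funext i
        by_cases h : ε i = true <;> simp [h] }
  have h1 : ∑ b : ι → α × α, (∏ i, (w i (b i).1 * w i (b i).2)) *
      F (fun i => if ε i = true then (b i).1 else (b i).2)
      = ∑ b : ι → α × α, (∏ i, (w i (b i).1 * w i (b i).2)) * F (fun i => (b i).1) := by
    refine Fintype.sum_equiv σ _ _ fun b => ?_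
    congr 1
    · refine Finset.prod_congr rfl fun i _ => ?_
      change _ = w i (if ε i = true then b i else (b i).swap).1 *
        w i (if ε i = true then b i else (b i).swap).2
      split_ifs
      · rfl
      · simp [mul_comm]
    · congr 1
      funext i
      change _ = (if ε i = true then b i else (b i).swap).1
      split_ifs
      · rfl
      · simp
  rw [h1]
  have h2 : ∑ b : ι → α × α, (∏ i, (w i (b i).1 * w i (b i).2)) * F (fun i => (b i).1)
      = ∑ q : (ι → α) × (ι → α), ((∏ i, w i (q.1 i)) * (∏ i, w i (q.2 i))) * F q.1 := by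
    refine Fintype.sum_equiv (Equiv.arrowProdEquivProdArrow ι (fun _ => α) (fun _ => α)) _ _
      fun b => ?_
    rw [Finset.prod_mul_distrib]
    rfl
  rw [h2, Fintype.sum_prod_type]
  refine Finset.sum_congr rfl fun a _ => ?_
  have h3 : ∑ a' : ι → α, ∏ i, w i (a' i) = 1 := by
    rw [sum_prod_fun]
    exact Finset.prod_eq_one fun i _ => hw i
  calc ∑ a' : ι → α, ((∏ i, w i (a i)) * (∏ i, w i (a' i))) * F a
      = ((∏ i, w i (a i)) * F a) * ∑ a' : ι → α, ∏ i, w i (a' i) := by
        rw [Finset.mul_sum]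
        refine Finset.sum_congr rfl fun a' _ => by ring
    _ = (∏ i, w i (a i)) * F a := by rw [h3, mul_one]

/-- the mean of `1 / (M + 1)` -/
theorem mean_inv {β : Type*} [Fintype β] (w : ι → β → ℝ) (hw0 : ∀ i b, 0 ≤ w i b)
    (hw : ∀ i, ∑ b, w i b = 1) (G : ι → β → Prop) [∀ i, DecidablePred (G i)] {p : ℝ} (hp : 0 < p)
    (hp1 : p ≤ 1) (T : Finset ι)
    (hG : ∀ i ∈ T, p ≤ ∑ b ∈ univ.filter (G i), w i b) :
    ∑ a : ι → β, (∏ i, w i (a i)) * (1 / ((univ.filter (fun i => G i (a i))).card + 1 : ℝ))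
      ≤ 1 / (p * (T.card + 1)) := by
  classical
  set k := T.card with hk
  have e1 : ∀ n : ℕ, (1 / ((n : ℝ) + 1)) = ∫ t in (0:ℝ)..1, t ^ n := by
    intro n
    rw [integral_pow]
    simp
  have h1 : ∑ a : ι → β, (∏ i, w i (a i)) * (1 / ((univ.filter (fun i => G i (a i))).card + 1 : ℝ))
      = ∫ t in (0:ℝ)..1, ∏ i, (∑ b, w i b * (if G i b then t else 1)) := by
    have e2 : ∀ t : ℝ, ∏ i, (∑ b, w i b * (if G i b then t else 1))
        = ∑ a : ι → β, (∏ i, w i (a i)) * t ^ (univ.filter (fun i => G i (a i))).card := by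
      intro t
      rw [← sum_prod_fun]
      refine Finset.sum_congr rfl fun a _ => ?_
      rw [Finset.prod_mul_distrib, Finset.prod_ite, Finset.prod_const, Finset.prod_const_one,
        mul_one]
    simp only [e2]
    rw [intervalIntegral.integral_finsetSum]
    · refine Finset.sum_congr rfl fun a _ => ?_
      rw [intervalIntegral.integral_const_mul, e1]
    · intro a _
      exact (Continuous.intervalIntegrable (by fun_prop) _ _)
  rw [h1]
  have h2 : ∀ t ∈ Set.Icc (0:ℝ) 1, ∏ i, (∑ b, w i b * (if G i b then t else 1))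
      ≤ (1 - p + p * t) ^ k := by
    intro t ht
    have e4 : (1 - p + p * t) ^ k = ∏ i : ι, (if i ∈ T then (1 - p + p * t) else 1) := by
      rw [Finset.prod_ite, Finset.prod_const, Finset.prod_const_one, mul_one]
      congr 1
      rw [hk]
      congr 1
      ext i
      simp
    rw [e4]
    refine Finset.prod_le_prod (fun i _ => ?_) fun i _ => ?_
    · refine Finset.sum_nonneg fun b _ => mul_nonneg (hw0 i b) ?_
      split_ifs
      · exact ht.1
      · norm_num
    · have e3 : ∀ b, w i b * (if G i b then t else 1)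
          = w i b - (1 - t) * (if G i b then w i b else 0) := by
        intro b
        split_ifs <;> ring
      simp only [e3]
      rw [Finset.sum_sub_distrib, hw i, ← Finset.mul_sum, ← Finset.sum_filter]
      have ht2 : (0 : ℝ) ≤ 1 - t := by linarith [ht.2]
      by_cases hi : i ∈ T
      · rw [if_pos hi]
        have := mul_le_mul_of_nonneg_left (hG i hi) ht2
        linarith
      · rw [if_neg hi]
        have : 0 ≤ ∑ b ∈ univ.filter (G i), w i b := Finset.sum_nonneg fun b _ => hw0 i b
        have := mul_nonneg ht2 this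
        linarith
  have h3 : ∫ t in (0:ℝ)..1, ∏ i, (∑ b, w i b * (if G i b then t else 1))
      ≤ ∫ t in (0:ℝ)..1, (1 - p + p * t) ^ k := by
    apply intervalIntegral.integral_mono_on (by norm_num)
    · exact Continuous.intervalIntegrable (by
        apply continuous_finsetProd
        intro i _
        apply continuous_finsetSum
        intro b _
        split_ifs <;> fun_prop) _ _
    · exact Continuous.intervalIntegrable (by fun_prop) _ _
    · exact h2
  refine h3.trans ?_
  have h4 : ∫ t in (0:ℝ)..1, (1 - p + p * t) ^ k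
      = (1 - (1 - p) ^ (k + 1)) / (p * (k + 1)) := by
    have hd : ∀ t ∈ Set.uIcc (0:ℝ) 1, HasDerivAt
        (fun t : ℝ => (1 - p + p * t) ^ (k + 1) / (p * (k + 1))) ((1 - p + p * t) ^ k) t := by
      intro t _
      have h5 : HasDerivAt (fun t : ℝ => 1 - p + p * t) p t := by
        have := ((hasDerivAt_id t).const_mul p).const_add (1 - p)
        simpa using this
      have h6 := (h5.pow (k + 1)).div_const (p * (k + 1))
      have hk1 : ((k : ℝ) + 1) ≠ 0 := by positivity
      have h7 : ((k + 1 : ℕ) : ℝ) * (1 - p + p * t) ^ (k + 1 - 1) * p / (p * (k + 1))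
          = (1 - p + p * t) ^ k := by
        rw [Nat.add_sub_cancel]
        push_cast
        rw [div_eq_iff (mul_ne_zero hp.ne' hk1)]
        ring
      rw [h7] at h6
      exact h6
    rw [intervalIntegral.integral_eq_sub_of_hasDerivAt hd
      (Continuous.intervalIntegrable (by fun_prop) _ _)]
    rw [← sub_div]
    congr 1
    ring
  rw [h4]
  apply div_le_div_of_nonneg_right _ (by positivity)
  have : 0 ≤ (1 - p) ^ (k + 1) := pow_nonneg (by linarith) _
  linarith

/-- **Kolmogorov-Rogozin**: concentration of the sum of independent variables, those with index in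
`T` are non-atomic -/
theorem kolmogorov_rogozin (w x : ι → α → ℝ) (hw0 : ∀ i a, 0 ≤ w i a) (hw : ∀ i, ∑ a, w i a = 1)
    {p : ℝ} (hp : 0 < p) (hp1 : p ≤ 1) (T : Finset ι)
    (hx : ∀ i ∈ T, ∀ c, p ≤ ∑ a ∈ univ.filter (fun a => 1 ≤ |x i a - c|), w i a) (c : ℝ) :
    ∑ a ∈ univ.filter (fun a : ι → α => c ≤ ∑ i, x i (a i) ∧ ∑ i, x i (a i) < c + 1),
      ∏ i, w i (a i) ≤ 1 / Real.sqrt (p * (T.card + 1)) := by
  classical
  set k := Fintype.card ι with hk
  set F : (ι → α) → ℝ := fun a => if c ≤ ∑ i, x i (a i) ∧ ∑ i, x i (a i) < c + 1 then 1 else 0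
    with hF
  set Mf : (ι → α × α) → ℕ := fun b => (univ.filter (fun i => 1 ≤ |x i (b i).1 - x i (b i).2|)).card
    with hMf
  set W : (ι → α × α) → ℝ := fun b => ∏ i, (w i (b i).1 * w i (b i).2) with hW
  have hW0 : ∀ b, 0 ≤ W b := fun b => Finset.prod_nonneg fun i _ => mul_nonneg (hw0 _ _) (hw0 _ _)
  have e0 : ∑ a ∈ univ.filter (fun a : ι → α => c ≤ ∑ i, x i (a i) ∧ ∑ i, x i (a i) < c + 1),
      ∏ i, w i (a i) = ∑ a : ι → α, (∏ i, w i (a i)) * F a := by
    rw [Finset.sum_filter]
    refine Finset.sum_congr rfl fun a _ => ?_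
    simp only [hF]
    split_ifs <;> simp
  rw [e0]
  set I := ∑ a : ι → α, (∏ i, w i (a i)) * F a with hI
  -- symmetrization
  have h1 : (2 : ℝ) ^ k * I ≤ 2 ^ k * ∑ b, W b * (1 / Real.sqrt ((Mf b : ℝ) + 1)) := by
    have e1 : (2 : ℝ) ^ k * I = ∑ ε : ι → Bool, ∑ b : ι → α × α,
        W b * F (fun i => if ε i = true then (b i).1 else (b i).2) := by
      have : ∀ ε : ι → Bool, ∑ b : ι → α × α,
        W b * F (fun i => if ε i = true then (b i).1 else (b i).2) = I := fun ε => mix_sum w hw F ε
      simp only [this]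
      rw [Finset.sum_const, Finset.card_univ, Fintype.card_fun, Fintype.card_bool, nsmul_eq_mul]
      push_cast
      rfl
    rw [e1, Finset.sum_comm, Finset.mul_sum]
    refine Finset.sum_le_sum fun b _ => ?_
    rw [← Finset.mul_sum]
    have h2 : ∑ ε : ι → Bool, F (fun i => if ε i = true then (b i).1 else (b i).2)
        ≤ 2 ^ k * (1 / Real.sqrt ((Mf b : ℝ) + 1)) := by
      have h3 := lo_count (fun i => x i (b i).1) (fun i => x i (b i).2) c
      refine le_trans (le_of_eq ?_) h3
      rw [Finset.card_filter]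
      push_cast
      refine Finset.sum_congr rfl fun ε _ => ?_
      simp only [hF]
      have e4 : ∀ i, x i (if ε i = true then (b i).1 else (b i).2)
          = if ε i = true then x i (b i).1 else x i (b i).2 := by
        intro i
        split_ifs <;> rfl
      simp only [e4]
    calc W b * ∑ ε : ι → Bool, F (fun i => if ε i = true then (b i).1 else (b i).2)
        ≤ W b * (2 ^ k * (1 / Real.sqrt ((Mf b : ℝ) + 1))) :=
          mul_le_mul_of_nonneg_left h2 (hW0 b)
      _ = 2 ^ k * (W b * (1 / Real.sqrt ((Mf b : ℝ) + 1))) := by ring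
  have h2 : I ≤ ∑ b, W b * (1 / Real.sqrt ((Mf b : ℝ) + 1)) :=
    le_of_mul_le_mul_left h1 (by positivity)
  have hW1 : ∑ b, W b = 1 := by
    have := sum_prod_fun (ι := ι) (fun i (b : α × α) => w i b.1 * w i b.2)
    rw [hW, this]
    refine Finset.prod_eq_one fun i _ => ?_
    rw [Fintype.sum_prod_type, ← Finset.sum_mul_sum, hw i, one_mul]
  -- Cauchy-Schwarz
  set J := ∑ b, W b * (1 / Real.sqrt ((Mf b : ℝ) + 1)) with hJ
  have hJ0 : 0 ≤ J := Finset.sum_nonneg fun b _ => mul_nonneg (hW0 b) (by positivity)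
  have h3 : J ^ 2 ≤ ∑ b, W b * (1 / ((Mf b : ℝ) + 1)) := by
    have h4 : 0 ≤ ∑ b, W b * (1 / Real.sqrt ((Mf b : ℝ) + 1) - J) ^ 2 :=
      Finset.sum_nonneg fun b _ => mul_nonneg (hW0 b) (sq_nonneg _)
    have e2 : ∑ b, W b * (1 / Real.sqrt ((Mf b : ℝ) + 1) - J) ^ 2
        = ∑ b, W b * (1 / ((Mf b : ℝ) + 1)) - 2 * J * J + J ^ 2 := by
      have e3 : ∀ b, W b * (1 / Real.sqrt ((Mf b : ℝ) + 1) - J) ^ 2
          = W b * (1 / ((Mf b : ℝ) + 1)) - 2 * J * (W b * (1 / Real.sqrt ((Mf b : ℝ) + 1)))
            + J ^ 2 * W b := by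
        intro b
        have hs : (1 / Real.sqrt ((Mf b : ℝ) + 1)) ^ 2 = 1 / ((Mf b : ℝ) + 1) := by
          rw [div_pow, Real.sq_sqrt (by positivity), one_pow]
        linear_combination (W b) * hs
      simp only [e3]
      rw [Finset.sum_add_distrib, Finset.sum_sub_distrib, ← Finset.mul_sum, ← Finset.mul_sum, hW1]
      ring
    rw [e2] at h4
    linarith
  -- the mean of `1 / (M + 1)`
  have h5 : ∑ b, W b * (1 / ((Mf b : ℝ) + 1)) ≤ 1 / (p * (T.card + 1)) := by
    refine mean_inv (fun i (b : α × α) => w i b.1 * w i b.2)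
      (fun i b => mul_nonneg (hw0 _ _) (hw0 _ _)) ?_
      (fun i (b : α × α) => 1 ≤ |x i b.1 - x i b.2|) hp hp1 T ?_
    · intro i
      rw [Fintype.sum_prod_type, ← Finset.sum_mul_sum, hw i, one_mul]
    · intro i hi
      rw [Finset.sum_filter, Fintype.sum_prod_type_right]
      calc p = ∑ a', w i a' * p := by rw [← Finset.sum_mul, hw i, one_mul]
        _ ≤ _ := by
          refine Finset.sum_le_sum fun a' _ => ?_
          have h6 := mul_le_mul_of_nonneg_left (hx i hi (x i a')) (hw0 i a')
          refine h6.trans (le_of_eq ?_)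
          rw [Finset.sum_filter, Finset.mul_sum]
          refine Finset.sum_congr rfl fun a _ => ?_
          split_ifs
          · ring
          · simp
  have h6 : I ≤ Real.sqrt (1 / (p * (T.card + 1))) := by
    refine h2.trans ?_
    exact Real.le_sqrt_of_sq_le (h3.trans h5)
  rw [Real.sqrt_div zero_le_one, Real.sqrt_one] at h6
  exact h6

end product

end Pool.Agent.Helper61.GL
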