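import Pool.Agent.Helper96.RK.E1
import Pool.Agent.Helper96.RK.E2
import Pool.Agent.Helper8.RK.E4
import Pool.Agent.Helper61.GL.KR

/-!
# Decoupling: entropy bounds for functions of nearly independent variables

`TC μ D G` is the total correlation of the variables `D i` given `G`; entropies of functions of
`(G, D)` are compared with the law where the `D i` are replaced by independent copies.
-/

set_option autoImplicit false

namespace Pool.Agent.Helper61.GL

open Finset Pool.Agent.Helper69.RK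

section basic

variable {Ω γ : Type} [Fintype Ω]

open Classical in
/-- conditional weight of `ω'` given the atom of `ω` -/
noncomputable def cw (μ : Ω → ℝ) (G : Ω → γ) (ω ω' : Ω) : ℝ :=
  (if G ω' = G ω then μ ω' else 0) / pr μ G ω

theorem cw_nonneg (μ : Ω → ℝ) (G : Ω → γ) (hμ : ∀ ω, 0 ≤ μ ω) (ω ω' : Ω) : 0 ≤ cw μ G ω ω' := by
  unfold cw
  refine div_nonneg ?_ (e1_pr_nonneg μ G hμ ω)
  split_ifs
  · exact hμ ω'
  · exact le_rfl

theorem cw_sum (μ : Ω → ℝ) (G : Ω → γ) (hμ : ∀ ω, 0 ≤ μ ω) (ω : Ω) (h : μ ω ≠ 0) :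
    ∑ ω', cw μ G ω ω' = 1 := by
  classical
  unfold cw
  rw [← Finset.sum_div]
  have h1 := e1_pr_pos μ G hμ ω h
  rw [div_eq_one_iff_eq h1.ne', e1_pr_eq]

theorem cw_congr (μ : Ω → ℝ) (G : Ω → γ) {ω1 ω2 : Ω} (h : G ω1 = G ω2) (ω' : Ω) :
    cw μ G ω1 ω' = cw μ G ω2 ω' := by
  unfold cw
  rw [h, e1_pr_atom μ G ω1 ω2 h]

theorem cw_ne_zero (μ : Ω → ℝ) (G : Ω → γ) {ω ω' : Ω} (h : cw μ G ω ω' ≠ 0) :
    G ω' = G ω ∧ μ ω' ≠ 0 := by
  unfold cw at h
  split_ifs at h with h1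
  · refine ⟨h1, fun h2 => h ?_⟩
    rw [h2, zero_div]
  · rw [zero_div] at h
    exact absurd rfl h

/-- expectation with independent copies, the `i`-th copy given the atom of `H i` -/
noncomputable def EQ {ι : Type} [Fintype ι] [DecidableEq ι] (μ : Ω → ℝ) (H : ι → Ω → γ) (ω : Ω)
    (Ψ : (ι → Ω) → ℝ) : ℝ := ∑ a : ι → Ω, (∏ i, cw μ (H i) ω (a i)) * Ψ a

variable {ι : Type} [Fintype ι] [DecidableEq ι] {α β : Type}

theorem EQ_mono (μ : Ω → ℝ) (H : ι → Ω → γ) (hμ : ∀ ω, 0 ≤ μ ω) (ω : Ω) {Ψ Ψ' : (ι → Ω) → ℝ}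
    (h : ∀ a, (∀ i, H i (a i) = H i ω ∧ μ (a i) ≠ 0) → Ψ a ≤ Ψ' a) :
    EQ μ H ω Ψ ≤ EQ μ H ω Ψ' := by
  unfold EQ
  refine Finset.sum_le_sum fun a _ => ?_
  by_cases h0 : ∏ i, cw μ (H i) ω (a i) = 0
  · rw [h0, zero_mul, zero_mul]
  · change (∏ i, cw μ (H i) ω (a i)) ≠ 0 at h0
    rw [Finset.prod_ne_zero_iff] at h0
    exact mul_le_mul_of_nonneg_left (h a fun i => cw_ne_zero μ (H i) (h0 i (Finset.mem_univ i)))
      (Finset.prod_nonneg fun i _ => cw_nonneg μ (H i) hμ ω (a i))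

theorem EQ_const (μ : Ω → ℝ) (H : ι → Ω → γ) (hμ : ∀ ω, 0 ≤ μ ω) (ω : Ω) (h : μ ω ≠ 0) (c : ℝ) :
    EQ μ H ω (fun _ => c) = c := by
  unfold EQ
  rw [← Finset.sum_mul, sum_prod_fun (fun i : ι => cw μ (H i) ω),
    Finset.prod_eq_one fun i _ => cw_sum μ (H i) hμ ω h, one_mul]

theorem EQ_add (μ : Ω → ℝ) (H : ι → Ω → γ) (ω : Ω) (Ψ Ψ' : (ι → Ω) → ℝ) :
    EQ μ H ω (fun a => Ψ a + Ψ' a) = EQ μ H ω Ψ + EQ μ H ω Ψ' := by
  unfold EQ
  rw [← Finset.sum_add_distrib]
  exact Finset.sum_congr rfl fun a _ => by ring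

theorem EQ_mul (μ : Ω → ℝ) (H : ι → Ω → γ) (ω : Ω) (c : ℝ) (Ψ : (ι → Ω) → ℝ) :
    EQ μ H ω (fun a => c * Ψ a) = c * EQ μ H ω Ψ := by
  unfold EQ
  rw [Finset.mul_sum]
  exact Finset.sum_congr rfl fun a _ => by ring

theorem EQ_sum {κ : Type} (μ : Ω → ℝ) (H : ι → Ω → γ) (ω : Ω) (S : Finset κ)
    (Ψ : κ → (ι → Ω) → ℝ) :
    EQ μ H ω (fun a => ∑ b ∈ S, Ψ b a) = ∑ b ∈ S, EQ μ H ω (Ψ b) := by
  unfold EQ
  rw [Finset.sum_comm]
  refine Finset.sum_congr rfl fun a _ => ?_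
  rw [Finset.mul_sum]

/-- the `i`-th condition: a function `H i` of the common condition `G` -/
def hg (H : ι → γ → β) (G : Ω → γ) (i : ι) (ω : Ω) : β := H i (G ω)

/-- total correlation of the `D i`: joint law given `G` against the product of the laws of the
`D i` given `H i (G)` -/
noncomputable def TC (μ : Ω → ℝ) (D : ι → Ω → α) (G : Ω → γ) (H : ι → γ → β) : ℝ :=
  (∑ i, CH μ (D i) (hg H G i)) - CH μ (fun ω => fun i => D i ω) G

/-- density of the product law with respect to the true law -/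
noncomputable def dens (μ : Ω → ℝ) (D : ι → Ω → α) (G : Ω → γ) (H : ι → γ → β) (ω : Ω) : ℝ :=
  pr μ G ω * (∏ i, (pr μ (fun ω' => (D i ω', hg H G i ω')) ω / pr μ (hg H G i) ω)) /
    pr μ (fun ω' => ((fun i => D i ω'), G ω')) ω

omit [DecidableEq ι] in
theorem dens_pos (μ : Ω → ℝ) (D : ι → Ω → α) (G : Ω → γ) (H : ι → γ → β) (hμ : ∀ ω, 0 ≤ μ ω)
    (ω : Ω) (h : μ ω ≠ 0) : 0 < dens μ D G H ω := by
  unfold dens
  have h1 := e1_pr_pos μ G hμ ω h
  have h2 := e1_pr_pos μ (fun ω' => ((fun i => D i ω'), G ω')) hμ ω h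
  refine div_pos (mul_pos h1 (Finset.prod_pos fun i _ => div_pos ?_ ?_)) h2
  · exact e1_pr_pos μ _ hμ ω h
  · exact e1_pr_pos μ _ hμ ω h

omit [DecidableEq ι] in
theorem TC_eq (μ : Ω → ℝ) (D : ι → Ω → α) (G : Ω → γ) (H : ι → γ → β) (hμ : ∀ ω, 0 ≤ μ ω) :
    TC μ D G H = - ∑ ω, μ ω * Real.logb 2 (dens μ D G H ω) := by
  unfold TC CH
  rw [Finset.sum_comm, ← Finset.sum_sub_distrib, ← Finset.sum_neg_distrib]
  refine Finset.sum_congr rfl fun ω _ => ?_
  by_cases h0 : μ ω = 0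
  · simp [h0]
  have h1 := e1_pr_pos μ G hμ ω h0
  have h2 := e1_pr_pos μ (fun ω' => ((fun i => D i ω'), G ω')) hμ ω h0
  have h3 : ∀ i, 0 < pr μ (fun ω' => (D i ω', hg H G i ω')) ω := fun i => e1_pr_pos μ _ hμ ω h0
  have h3' : ∀ i, 0 < pr μ (hg H G i) ω := fun i => e1_pr_pos μ _ hμ ω h0
  have h4 : Real.logb 2 (dens μ D G H ω) = Real.logb 2 (pr μ G ω)
      + ∑ i, (Real.logb 2 (pr μ (fun ω' => (D i ω', hg H G i ω')) ω)
        - Real.logb 2 (pr μ (hg H G i) ω))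
      - Real.logb 2 (pr μ (fun ω' => ((fun i => D i ω'), G ω')) ω) := by
    unfold dens
    have h5 : ∏ i, (pr μ (fun ω' => (D i ω', hg H G i ω')) ω / pr μ (hg H G i) ω) ≠ 0 :=
      (Finset.prod_pos fun i _ => div_pos (h3 i) (h3' i)).ne'
    rw [Real.logb_div (mul_ne_zero h1.ne' h5) h2.ne', Real.logb_mul h1.ne' h5, Real.logb_prod]
    · congr 2
      refine Finset.sum_congr rfl fun i _ => ?_
      rw [Real.logb_div (h3 i).ne' (h3' i).ne']
    · intro i _
      exact (div_pos (h3 i) (h3' i)).ne'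
  rw [h4, ← Finset.mul_sum, ← mul_sub, ← mul_neg]
  congr 1
  have h6 : ∑ i, (Real.logb 2 (pr μ (fun ω' => (D i ω', hg H G i ω')) ω)
        - Real.logb 2 (pr μ (hg H G i) ω))
      = - ∑ i, (Real.logb 2 (pr μ (hg H G i) ω)
        - Real.logb 2 (pr μ (fun ω' => (D i ω', hg H G i ω')) ω)) := by
    rw [← Finset.sum_neg_distrib]
    exact Finset.sum_congr rfl fun i _ => by ring
  rw [h6]
  ring

open Classical in
theorem pr_div (μ : Ω → ℝ) (D : Ω → α) (G : Ω → γ) (ω : Ω) :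
    pr μ (fun ω' => (D ω', G ω')) ω / pr μ G ω
      = ∑ ω', cw μ G ω ω' * (if D ω' = D ω then 1 else 0) := by
  rw [e1_pr_eq, Finset.sum_div]
  refine Finset.sum_congr rfl fun ω' _ => ?_
  unfold cw
  by_cases h1 : D ω' = D ω <;> by_cases h2 : G ω' = G ω <;> simp [h1, h2]

/-- **decoupling** -/
theorem decouple (μ : Ω → ℝ) (D : ι → Ω → α) (G : Ω → γ) (H : ι → γ → β) (hμ : ∀ ω, 0 ≤ μ ω)
    (Ψ : γ → (ι → α) → ℝ) (hΨ : ∀ g d, 0 ≤ Ψ g d) :
    ∑ ω, μ ω * (dens μ D G H ω * Ψ (G ω) (fun i => D i ω)) ≤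
      ∑ ω, μ ω * EQ μ (hg H G) ω (fun a => Ψ (G ω) (fun i => D i (a i))) := by
  classical
  -- the product of the marginals as a sum over copies
  have h1 : ∀ ω, ∏ i, (pr μ (fun ω' => (D i ω', hg H G i ω')) ω / pr μ (hg H G i) ω)
      = ∑ a : ι → Ω, (∏ i, cw μ (hg H G i) ω (a i)) *
        (if (∀ i, D i (a i) = D i ω) then 1 else 0) := by
    intro ω
    simp only [pr_div]
    rw [← sum_prod_fun]
    refine Finset.sum_congr rfl fun a _ => ?_
    rw [Finset.prod_mul_distrib]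
    congr 1
    split_ifs with h
    · exact Finset.prod_eq_one fun i _ => if_pos (h i)
    · rw [not_forall] at h
      obtain ⟨i, hi⟩ := h
      exact Finset.prod_eq_zero (Finset.mem_univ i) (if_neg hi)
  set pD : Ω → ℝ := pr μ (fun ω' => ((fun i => D i ω'), G ω')) with hpD
  have h2 : ∀ ω, μ ω * (dens μ D G H ω * Ψ (G ω) (fun i => D i ω))
      = ∑ a : ι → Ω, (μ ω * pr μ G ω / pD ω) * ((if (∀ i, D i (a i) = D i ω) then 1 else 0) *
          ((∏ i, cw μ (hg H G i) ω (a i)) * Ψ (G ω) (fun i => D i (a i)))) := by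
    intro ω
    unfold dens
    rw [h1, ← hpD]
    have e : ∀ a : ι → Ω, (μ ω * pr μ G ω / pD ω) * ((if (∀ i, D i (a i) = D i ω) then 1 else 0) *
          ((∏ i, cw μ (hg H G i) ω (a i)) * Ψ (G ω) (fun i => D i (a i))))
        = (μ ω * pr μ G ω / pD ω) * Ψ (G ω) (fun i => D i ω) * ((∏ i, cw μ (hg H G i) ω (a i)) *
          (if (∀ i, D i (a i) = D i ω) then 1 else 0)) := by
      intro a
      split_ifs with h
      · have : (fun i => D i (a i)) = (fun i => D i ω) := funext h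
        rw [this]
        ring
      · simp
    simp only [e]
    rw [← Finset.mul_sum]
    ring
  have h3 : ∀ ω, μ ω * EQ μ (hg H G) ω (fun a => Ψ (G ω) (fun i => D i (a i)))
      = ∑ a : ι → Ω, μ ω * ((∏ i, cw μ (hg H G i) ω (a i)) * Ψ (G ω) (fun i => D i (a i))) := by
    intro ω
    unfold EQ
    rw [Finset.mul_sum]
  rw [Finset.sum_congr rfl (fun ω _ => h2 ω), Finset.sum_congr rfl (fun ω _ => h3 ω),
    Finset.sum_comm, Finset.sum_comm (s := univ) (t := univ)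
      (f := fun ω (a : ι → Ω) => μ ω * ((∏ i, cw μ (hg H G i) ω (a i)) *
        Ψ (G ω) (fun i => D i (a i))))]
  refine Finset.sum_le_sum fun a _ => ?_
  -- for a fixed choice of copies the integrand only depends on the atom
  set F : Ω → ℝ := fun ω => (∏ i, cw μ (hg H G i) ω (a i)) * Ψ (G ω) (fun i => D i (a i)) with hF
  have hF0 : ∀ ω, 0 ≤ F ω := fun ω =>
    mul_nonneg (Finset.prod_nonneg fun i _ => cw_nonneg μ (hg H G i) hμ ω (a i)) (hΨ _ _)
  have hFc : ∀ ω ω', G ω = G ω' → F ω = F ω' := by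
    intro ω ω' h
    simp only [hF]
    rw [h]
    congr 1
    refine Finset.prod_congr rfl fun i _ => cw_congr μ (hg H G i) ?_ (a i)
    unfold hg
    rw [h]
  have h4 : ∀ ω, (μ ω * pr μ G ω / pD ω) * ((if (∀ i, D i (a i) = D i ω) then 1 else 0) * F ω)
      = ∑ ω', μ ω' * F ω' * (if (G ω' = G ω ∧ ∀ i, D i (a i) = D i ω) then μ ω / pD ω else 0) := by
    intro ω
    have e1 : pr μ G ω = ∑ ω', if G ω' = G ω then μ ω' else 0 := e1_pr_eq μ G ω
    rw [show μ ω * pr μ G ω / pD ω * ((if (∀ i, D i (a i) = D i ω) then (1 : ℝ) else 0) * F ω)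
      = pr μ G ω * (μ ω / pD ω * ((if (∀ i, D i (a i) = D i ω) then (1 : ℝ) else 0) * F ω)) by ring,
      e1, Finset.sum_mul]
    refine Finset.sum_congr rfl fun ω' _ => ?_
    by_cases h5 : G ω' = G ω
    · by_cases h6 : ∀ i, D i (a i) = D i ω
      · rw [if_pos h5, if_pos h6, if_pos ⟨h5, h6⟩, hFc ω' ω h5]
        ring
      · have h7 : ¬ (G ω' = G ω ∧ ∀ i, D i (a i) = D i ω) := fun h => h6 h.2
        rw [if_neg h6, if_neg h7]
        ring
    · have h7 : ¬ (G ω' = G ω ∧ ∀ i, D i (a i) = D i ω) := fun h => h5 h.1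
      rw [if_neg h5, if_neg h7]
      ring
  rw [Finset.sum_congr rfl (fun ω _ => h4 ω), Finset.sum_comm]
  refine Finset.sum_le_sum fun ω' _ => ?_
  rw [← Finset.mul_sum, ← Finset.sum_filter]
  have h7 : ∑ ω ∈ univ.filter (fun ω => G ω' = G ω ∧ ∀ i, D i (a i) = D i ω), μ ω / pD ω ≤ 1 := by
    apply e1_sum_div_le μ _ hμ
    intro ω hω ω2 hω2
    rw [Finset.mem_filter] at hω hω2
    refine Prod.ext ?_ (hω.2.1.symm.trans hω2.2.1)
    funext i
    exact (hω.2.2 i).symm.trans (hω2.2.2 i)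
  calc μ ω' * F ω' * ∑ ω ∈ univ.filter (fun ω => G ω' = G ω ∧ ∀ i, D i (a i) = D i ω), μ ω / pD ω
      ≤ μ ω' * F ω' * 1 := mul_le_mul_of_nonneg_left h7 (mul_nonneg (hμ ω') (hF0 ω'))
    _ = μ ω' * F ω' := mul_one _

open Classical in
/-- lower bound for the entropy of a function of nearly independent variables, on an event `E` -/
theorem entropy_lower {κ : Type} (μ : Ω → ℝ) (D : ι → Ω → α) (G : Ω → γ) (H : ι → γ → β)
    (hμ : ∀ ω, 0 ≤ μ ω) (E : γ → Prop)
    (Φ : γ → (ι → α) → κ) (q : γ → ℝ) (hq : ∀ ω, μ ω ≠ 0 → E (G ω) → 0 < q (G ω))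
    (h : ∀ ω, μ ω ≠ 0 → E (G ω) → ∀ c,
      EQ μ (hg H G) ω (fun a => if Φ (G ω) (fun i => D i (a i)) = c then 1 else 0) ≤ q (G ω)) :
    (∑ ω, res μ (fun ω => E (G ω)) ω * Real.logb 2 (1 / q (G ω))) - TC μ D G H ≤
      CH (res μ (fun ω => E (G ω))) (fun ω => Φ (G ω) (fun i => D i ω)) G := by
  set F : Ω → κ := fun ω => Φ (G ω) (fun i => D i ω) with hF
  -- mass of `F = c` in the atom `g`
  set P : γ → κ → ℝ := fun g c => ∑ ω', if (F ω' = c ∧ G ω' = g) then μ ω' else 0 with hP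
  have hP0 : ∀ g c, 0 ≤ P g c := fun g c => Finset.sum_nonneg fun ω' _ => by
    split_ifs
    · exact hμ ω'
    · exact le_rfl
  have hPF : ∀ ω, pr μ (fun ω' => (F ω', G ω')) ω = P (G ω) (F ω) := by
    intro ω
    rw [e1_pr_eq]
    refine Finset.sum_congr rfl fun ω' _ => ?_
    by_cases h1 : F ω' = F ω <;> by_cases h2 : G ω' = G ω <;> simp [h1, h2]
  -- mass of the atom `g`
  set PG : γ → ℝ := fun g => ∑ ω', if G ω' = g then μ ω' else 0 with hPG
  have hPG0 : ∀ g, 0 ≤ PG g := fun g => Finset.sum_nonneg fun ω' _ => by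
    split_ifs
    · exact hμ ω'
    · exact le_rfl
  have hPGe : ∀ ω, pr μ G ω = PG (G ω) := fun ω => e1_pr_eq μ G ω
  set q' : γ → ℝ := fun g => max (q g) 0 with hq'
  have hqq : ∀ ω, μ ω ≠ 0 → E (G ω) → q' (G ω) = q (G ω) :=
    fun ω hω hE => max_eq_left (hq ω hω hE).le
  have hdec := decouple μ D G H hμ (fun g d => if E g then P g (Φ g d) / (PG g * q' g) else 1)
    (fun g d => by
      split_ifs
      · exact div_nonneg (hP0 _ _) (mul_nonneg (hPG0 _) (le_max_right _ _))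
      · exact zero_le_one)
  have hR : ∑ ω, μ ω * EQ μ (hg H G) ω (fun a => if E (G ω) then
      P (G ω) (Φ (G ω) (fun i => D i (a i))) / (PG (G ω) * q' (G ω)) else 1) ≤ ∑ ω, μ ω := by
    refine Finset.sum_le_sum fun ω _ => ?_
    by_cases h0 : μ ω = 0
    · rw [h0, zero_mul]
    refine mul_le_of_le_one_right (hμ ω) ?_
    by_cases hE : E (G ω)
    swap
    · simp only [if_neg hE]
      rw [EQ_const μ (hg H G) hμ ω h0]
    simp only [if_pos hE]
    have h1 := e1_pr_pos μ G hμ ω h0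
    rw [hPGe] at h1
    have h2 := hq ω h0 hE
    rw [hqq ω h0 hE]
    have e1 : ∀ a : ι → Ω, P (G ω) (Φ (G ω) (fun i => D i (a i))) / (PG (G ω) * q (G ω))
        = (1 / (PG (G ω) * q (G ω))) * ∑ ω' : Ω, (if G ω' = G ω then μ ω' else 0) *
          (if Φ (G ω) (fun i => D i (a i)) = F ω' then 1 else 0) := by
      intro a
      rw [one_div, inv_mul_eq_div]
      congr 1
      refine Finset.sum_congr rfl fun ω' _ => ?_
      by_cases h3 : G ω' = G ω <;> by_cases h4 : F ω' = Φ (G ω) (fun i => D i (a i))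
      · rw [if_pos ⟨h4, h3⟩, if_pos h3, if_pos h4.symm, mul_one]
      · rw [if_neg (fun h5 => h4 h5.1), if_neg (fun h5 : _ = _ => h4 h5.symm), mul_zero]
      · rw [if_neg (fun h5 => h3 h5.2), if_neg h3, zero_mul]
      · rw [if_neg (fun h5 => h3 h5.2), if_neg h3, zero_mul]
    simp only [e1]
    rw [EQ_mul, EQ_sum]
    simp only [EQ_mul]
    rw [one_div, inv_mul_eq_div, div_le_one (mul_pos h1 h2)]
    calc ∑ ω' : Ω, (if G ω' = G ω then μ ω' else 0) *
          EQ μ (hg H G) ω (fun a : ι → Ω => if Φ (G ω) (fun i => D i (a i)) = F ω' then 1 else 0)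
        ≤ ∑ ω' : Ω, (if G ω' = G ω then μ ω' else 0) * q (G ω) := by
          refine Finset.sum_le_sum fun ω' _ => mul_le_mul_of_nonneg_left (h ω h0 hE _) ?_
          split_ifs
          · exact hμ ω'
          · exact le_rfl
      _ = PG (G ω) * q (G ω) := by rw [← Finset.sum_mul]
  have hg := e1_gibbs μ (fun ω => dens μ D G H ω *
      (if E (G ω) then P (G ω) (F ω) / (PG (G ω) * q' (G ω)) else 1)) hμ
    (fun ω h0 => by
      refine mul_pos (dens_pos μ D G H hμ ω h0) ?_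
      split_ifs with hE
      · have h1 := e1_pr_pos μ G hμ ω h0
        have h2 := e1_pr_pos μ (fun ω' => (F ω', G ω')) hμ ω h0
        rw [hPGe] at h1
        rw [hPF] at h2
        have h3 := hq ω h0 hE
        rw [← hqq ω h0 hE] at h3
        exact div_pos h2 (mul_pos h1 h3)
      · exact zero_lt_one) (hdec.trans hR)
  rw [TC_eq μ D G H hμ, sub_neg_eq_add,
    e4_part μ F G (fun ω => E (G ω)) (fun ω ω' _ _ h1 h2 => by rw [← h1]; exact h2),
    ← Finset.sum_add_distrib]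
  have e2 : ∀ ω, μ ω * Real.logb 2 (dens μ D G H ω *
      (if E (G ω) then P (G ω) (F ω) / (PG (G ω) * q' (G ω)) else 1))
      = (res μ (fun ω => E (G ω)) ω * Real.logb 2 (1 / q (G ω)) + μ ω * Real.logb 2 (dens μ D G H ω))
        - res μ (fun ω => E (G ω)) ω *
          (Real.logb 2 (pr μ G ω) - Real.logb 2 (pr μ (fun ω' => (F ω', G ω')) ω)) := by
    intro ω
    by_cases h0 : μ ω = 0
    · have : res μ (fun ω => E (G ω)) ω = 0 := by
        unfold res
        rw [h0]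
        split_ifs <;> rfl
      simp [h0, this]
    have h4 := dens_pos μ D G H hμ ω h0
    by_cases hE : E (G ω)
    · have h1 := e1_pr_pos μ G hμ ω h0
      have h2 := e1_pr_pos μ (fun ω' => (F ω', G ω')) hμ ω h0
      have h3 := hq ω h0 hE
      rw [e4_res_pos μ (fun ω => E (G ω)) ω hE, if_pos hE, hqq ω h0 hE, ← hPF, ← hPGe,
        Real.logb_mul h4.ne' (div_pos h2 (mul_pos h1 h3)).ne',
        Real.logb_div h2.ne' (mul_pos h1 h3).ne', Real.logb_mul h1.ne' h3.ne', one_div,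
        Real.logb_inv]
      ring
    · rw [e4_res_neg μ (fun ω => E (G ω)) ω hE, if_neg hE, mul_one]
      ring
  rw [Finset.sum_congr rfl (fun ω _ => e2 ω), Finset.sum_sub_distrib] at hg
  linarith

open Classical in
/-- upper bound for the entropy of a function of nearly independent variables, on an event `E` -/
theorem entropy_upper {κ : Type} (μ : Ω → ℝ) (D : ι → Ω → α) (G : Ω → γ) (H : ι → γ → β)
    (hμ : ∀ ω, 0 ≤ μ ω) (E : γ → Prop)
    (Φ : γ → (ι → α) → κ) (r : γ → κ → ℝ) (hr : ∀ g c, 0 < r g c)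
    (hr1 : ∀ g (S : Finset κ), ∑ c ∈ S, r g c ≤ 1) (B : ℝ) (hB : 0 < B)
    (h : ∀ ω, μ ω ≠ 0 → E (G ω) →
      EQ μ (hg H G) ω (fun a => 1 / r (G ω) (Φ (G ω) (fun i => D i (a i)))) ≤ B) :
    CH (res μ (fun ω => E (G ω))) (fun ω => Φ (G ω) (fun i => D i ω)) G ≤
      TC μ D G H + mass (res μ (fun ω => E (G ω))) * Real.logb 2 B := by
  set F : Ω → κ := fun ω => Φ (G ω) (fun i => D i ω) with hF
  set ν := res μ (fun ω => E (G ω)) with hν
  have hν0 : ∀ ω, 0 ≤ ν ω := e4_res_nonneg μ _ hμ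
  have hνe : ∀ ω, ν ω ≠ 0 → μ ω ≠ 0 ∧ E (G ω) := by
    intro ω hω
    by_cases hE : E (G ω)
    · rw [hν, e4_res_pos μ (fun ω => E (G ω)) ω hE] at hω
      exact ⟨hω, hE⟩
    · rw [hν, e4_res_neg μ (fun ω => E (G ω)) ω hE] at hω
      exact absurd rfl hω
  -- Gibbs with the weights `r`
  have h1 : ∑ ω, ν ω * Real.logb 2 (pr ν G ω * r (G ω) (F ω) / pr ν (fun ω' => (F ω', G ω')) ω)
      ≤ 0 := by
    apply e1_gibbs ν _ hν0
    · intro ω h0
      exact div_pos (mul_pos (e1_pr_pos ν G hν0 ω h0) (hr _ _)) (e1_pr_pos ν _ hν0 ω h0)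
    · set pF : Ω → ℝ := pr ν (fun ω' => (F ω', G ω')) with hpF
      have e1 : ∀ ω, ν ω * (pr ν G ω * r (G ω) (F ω) / pF ω)
          = ∑ ω', ν ω' * (if G ω' = G ω then r (G ω') (F ω) * (ν ω / pF ω) else 0) := by
        intro ω
        rw [e1_pr_eq ν G ω, show ν ω * ((∑ ω', if G ω' = G ω then ν ω' else 0) * r (G ω) (F ω) / pF ω)
          = (∑ ω', if G ω' = G ω then ν ω' else 0) * (r (G ω) (F ω) * (ν ω / pF ω)) by ring,
          Finset.sum_mul]
        refine Finset.sum_congr rfl fun ω' _ => ?_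
        by_cases h2 : G ω' = G ω
        · rw [if_pos h2, if_pos h2, h2]
        · rw [if_neg h2, if_neg h2]
          ring
      rw [Finset.sum_congr rfl (fun ω _ => e1 ω), Finset.sum_comm]
      refine Finset.sum_le_sum fun ω' _ => ?_
      rw [← Finset.mul_sum, ← Finset.sum_filter]
      refine mul_le_of_le_one_right (hν0 ω') ?_
      set S := univ.filter (fun ω => G ω' = G ω) with hS
      rw [← Finset.sum_fiberwise_of_maps_to (s := S) (t := S.image F) (g := F)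
        (fun ω hω => Finset.mem_image_of_mem F hω)]
      refine le_trans (Finset.sum_le_sum (g := fun c => r (G ω') c) fun c _ => ?_) (hr1 (G ω') _)
      have e2 : ∑ ω ∈ S.filter (fun ω => F ω = c), r (G ω') (F ω) * (ν ω / pF ω)
          = r (G ω') c * ∑ ω ∈ S.filter (fun ω => F ω = c), ν ω / pF ω := by
        rw [Finset.mul_sum]
        refine Finset.sum_congr rfl fun ω hω => ?_
        rw [Finset.mem_filter] at hω
        rw [hω.2]
      rw [e2]
      refine mul_le_of_le_one_right (hr _ _).le ?_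
      apply e1_sum_div_le ν _ hν0
      intro ω hω ω2 hω2
      rw [Finset.mem_filter, hS, Finset.mem_filter] at hω hω2
      exact Prod.ext (hω.2.trans hω2.2.symm) (hω.1.2.symm.trans hω2.1.2)
  -- change of measure
  have hdec := decouple μ D G H hμ (fun g d => if E g then 1 / (r g (Φ g d) * B) else 1)
    (fun g d => by
      split_ifs
      · have := hr g (Φ g d)
        positivity
      · exact zero_le_one)
  have hR : ∑ ω, μ ω * EQ μ (hg H G) ω (fun a => if E (G ω) then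
      1 / (r (G ω) (Φ (G ω) (fun i => D i (a i))) * B) else 1) ≤ ∑ ω, μ ω := by
    refine Finset.sum_le_sum fun ω _ => ?_
    by_cases h0 : μ ω = 0
    · rw [h0, zero_mul]
    refine mul_le_of_le_one_right (hμ ω) ?_
    by_cases hE : E (G ω)
    swap
    · simp only [if_neg hE]
      rw [EQ_const μ (hg H G) hμ ω h0]
    simp only [if_pos hE]
    have e3 : ∀ a : ι → Ω, 1 / (r (G ω) (Φ (G ω) (fun i => D i (a i))) * B)
        = (1 / B) * (1 / r (G ω) (Φ (G ω) (fun i => D i (a i)))) := by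
      intro a
      rw [one_div_mul_one_div, mul_comm]
    simp only [e3]
    rw [EQ_mul, one_div, inv_mul_eq_div, div_le_one hB]
    exact h ω h0 hE
  have hg := e1_gibbs μ (fun ω => dens μ D G H ω *
      (if E (G ω) then 1 / (r (G ω) (F ω) * B) else 1)) hμ
    (fun ω h0 => mul_pos (dens_pos μ D G H hμ ω h0) (by
      split_ifs
      · have := hr (G ω) (F ω)
        positivity
      · exact zero_lt_one)) (hdec.trans hR)
  rw [TC_eq μ D G H hμ]
  unfold CH mass
  have e4 : ∀ ω, μ ω * Real.logb 2 (dens μ D G H ω *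
      (if E (G ω) then 1 / (r (G ω) (F ω) * B) else 1))
      = μ ω * Real.logb 2 (dens μ D G H ω) - ν ω * Real.logb 2 (r (G ω) (F ω))
        - ν ω * Real.logb 2 B := by
    intro ω
    by_cases h0 : μ ω = 0
    · have : ν ω = 0 := by
        by_contra hc
        exact (hνe ω hc).1 h0
      simp [h0, this]
    have h4 := dens_pos μ D G H hμ ω h0
    have h5 := hr (G ω) (F ω)
    by_cases hE : E (G ω)
    · rw [if_pos hE, hν, e4_res_pos μ (fun ω => E (G ω)) ω hE, Real.logb_mul h4.ne' (by positivity),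
        one_div, Real.logb_inv, Real.logb_mul h5.ne' hB.ne']
      ring
    · rw [if_neg hE, hν, e4_res_neg μ (fun ω => E (G ω)) ω hE, mul_one]
      ring
  have e5 : ∀ ω, ν ω * Real.logb 2 (pr ν G ω * r (G ω) (F ω) / pr ν (fun ω' => (F ω', G ω')) ω)
      = ν ω * (Real.logb 2 (pr ν G ω) - Real.logb 2 (pr ν (fun ω' => (F ω', G ω')) ω))
        + ν ω * Real.logb 2 (r (G ω) (F ω)) := by
    intro ω
    by_cases h0 : ν ω = 0
    · simp [h0]
    have h2 := e1_pr_pos ν G hν0 ω h0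
    have h3 := e1_pr_pos ν (fun ω' => (F ω', G ω')) hν0 ω h0
    have h5 := hr (G ω) (F ω)
    rw [Real.logb_div (mul_pos h2 h5).ne' h3.ne', Real.logb_mul h2.ne' h5.ne']
    ring
  rw [Finset.sum_congr rfl (fun ω _ => e4 ω), Finset.sum_sub_distrib, Finset.sum_sub_distrib,
    ← Finset.sum_mul] at hg
  rw [Finset.sum_congr rfl (fun ω _ => e5 ω), Finset.sum_add_distrib] at h1
  linarith

end basic

end Pool.Agent.Helper61.GL
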