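import Pool.Agent.Helper96.RK.E3
import Pool.Agent.Helper61.GL.Dec

/-!
# Calculus of conditional entropies: convenient forms
-/

set_option autoImplicit false

namespace Pool.Agent.Helper61.GL

open Finset Pool.Agent.Helper69.RK

variable {Ω α β γ δ ε : Type} [Fintype Ω]

theorem ch_cond (μ : Ω → ℝ) (hμ : ∀ ω, 0 ≤ μ ω) (F : Ω → α) (G : Ω → γ) (G' : Ω → δ)
    (h : ∀ ω ω', μ ω ≠ 0 → μ ω' ≠ 0 → G' ω = G' ω' → G ω = G ω') : CH μ F G' ≤ CH μ F G :=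
  (st_E2 st_E1).2.1 Ω α γ δ μ F G G' hμ h

theorem ch_mono (μ : Ω → ℝ) (hμ : ∀ ω, 0 ≤ μ ω) (F : Ω → α) (F' : Ω → β) (G : Ω → γ)
    (h : ∀ ω ω', μ ω ≠ 0 → μ ω' ≠ 0 → F' ω = F' ω' → G ω = G ω' → F ω = F ω') :
    CH μ F G ≤ CH μ F' G :=
  (st_E2 st_E1).1 Ω α β γ μ F F' G hμ (fun ω ω' h1 h2 h3 => by
    rw [Prod.mk.injEq] at h3
    exact h ω ω' h1 h2 h3.1 h3.2)

theorem ch_zero (μ : Ω → ℝ) (F : Ω → α) (G : Ω → γ)
    (h : ∀ ω ω', μ ω ≠ 0 → μ ω' ≠ 0 → G ω = G ω' → F ω = F ω') : CH μ F G = 0 :=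
  e2_zero μ F G h

theorem ch_congr_left (μ : Ω → ℝ) (F : Ω → α) (F' : Ω → β) (G : Ω → γ)
    (h : ∀ ω ω', μ ω ≠ 0 → μ ω' ≠ 0 → G ω = G ω' → (F ω = F ω' ↔ F' ω = F' ω')) :
    CH μ F G = CH μ F' G := by
  apply e2_CH_congr
  · intro ω ω' _ _
    exact Iff.rfl
  · intro ω ω' h1 h2
    rw [Prod.mk.injEq, Prod.mk.injEq]
    constructor
    · rintro ⟨a, b⟩
      exact ⟨(h ω' ω h2 h1 b).1 a, b⟩
    · rintro ⟨a, b⟩
      exact ⟨(h ω' ω h2 h1 b).2 a, b⟩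

theorem ch_congr_right (μ : Ω → ℝ) (F : Ω → α) (G : Ω → γ) (G' : Ω → δ)
    (h : ∀ ω ω', μ ω ≠ 0 → μ ω' ≠ 0 → (G ω = G ω' ↔ G' ω = G' ω')) :
    CH μ F G = CH μ F G' := by
  apply e2_CH_congr
  · intro ω ω' h1 h2
    exact h ω' ω h2 h1
  · intro ω ω' h1 h2
    rw [Prod.mk.injEq, Prod.mk.injEq, h ω' ω h2 h1]

theorem ch_chain (μ : Ω → ℝ) (F : Ω → α) (F' : Ω → β) (G : Ω → γ) :
    CH μ (fun ω => (F ω, F' ω)) G = CH μ F G + CH μ F' (fun ω => (F ω, G ω)) :=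
  e1_chain μ F F' G

theorem ch_nonneg (μ : Ω → ℝ) (hμ : ∀ ω, 0 ≤ μ ω) (F : Ω → α) (G : Ω → γ) : 0 ≤ CH μ F G :=
  e1_nonneg μ F G hμ

/-- `H(F | G) ≤ H(F' | G) + H(F | F', G)` -/
theorem ch_tri (μ : Ω → ℝ) (hμ : ∀ ω, 0 ≤ μ ω) (F : Ω → α) (F' : Ω → β) (G : Ω → γ) :
    CH μ F G ≤ CH μ F' G + CH μ F (fun ω => (F' ω, G ω)) := by
  rw [← ch_chain]
  exact ch_mono μ hμ _ _ _ fun ω ω' _ _ h _ => (Prod.ext_iff.1 h).2

/-- symmetry of the mutual information -/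
theorem ch_symm (μ : Ω → ℝ) (F : Ω → α) (F' : Ω → β) (G : Ω → γ) :
    CH μ F G - CH μ F (fun ω => (F' ω, G ω)) = CH μ F' G - CH μ F' (fun ω => (F ω, G ω)) := by
  have h1 := ch_chain μ F F' G
  have h2 := ch_chain μ F' F G
  have h3 : CH μ (fun ω => (F ω, F' ω)) G = CH μ (fun ω => (F' ω, F ω)) G := by
    apply ch_congr_left
    intro ω ω' _ _ _
    rw [Prod.mk.injEq, Prod.mk.injEq]
    exact and_comm
  linarith

/-- an integer with `|X - X'| ≤ K` on the atoms of the condition -/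
theorem ch_int (μ : Ω → ℝ) (hμ : ∀ ω, 0 ≤ μ ω) (X : Ω → ℤ) (G : Ω → γ) (K : ℝ) (hK : 0 ≤ K)
    (h : ∀ ω ω', μ ω ≠ 0 → μ ω' ≠ 0 → G ω = G ω' → |(X ω : ℝ) - X ω'| ≤ K) :
    CH μ X G ≤ Real.logb 2 (K + 1) * mass μ := by
  have h1 := st_E3.2 Ω γ 1 μ (fun ω _ => X ω) G K hμ hK (fun ω ω' a b c _ => h ω ω' a b c)
  rw [Nat.cast_one, one_mul] at h1
  refine le_trans (le_of_eq ?_) h1
  apply ch_congr_left
  intro ω ω' _ _ _
  constructor
  · intro e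
    funext _
    exact e
  · intro e
    exact congrFun e 0

/-- telescoping -/
theorem ch_tel (μ : Ω → ℝ) (F : ℕ → Ω → α) (G : Ω → γ)
    (h : ∀ m ω ω', μ ω ≠ 0 → μ ω' ≠ 0 → F (m + 1) ω = F (m + 1) ω' → F m ω = F m ω') (M : ℕ) :
    ∑ m ∈ range M, CH μ (F (m + 1)) (fun ω => (F m ω, G ω)) =
      CH μ (F M) (fun ω => (F 0 ω, G ω)) := by
  have h' : ∀ m ω ω', μ ω ≠ 0 → μ ω' ≠ 0 → F m ω = F m ω' → F 0 ω = F 0 ω' := by
    intro m
    induction m with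
    | zero => intro ω ω' _ _ e; exact e
    | succ m ih => intro ω ω' a b e; exact ih ω ω' a b (h m ω ω' a b e)
  induction M with
  | zero =>
    rw [Finset.sum_range_zero]
    symm
    apply ch_zero
    intro ω ω' _ _ e
    exact (Prod.ext_iff.1 e).1
  | succ M ih =>
    rw [Finset.sum_range_succ, ih]
    have h1 := ch_chain μ (F M) (F (M + 1)) (fun ω => (F 0 ω, G ω))
    have h2 : CH μ (fun ω => (F M ω, F (M + 1) ω)) (fun ω => (F 0 ω, G ω))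
        = CH μ (F (M + 1)) (fun ω => (F 0 ω, G ω)) := by
      apply ch_congr_left
      intro ω ω' a b _
      rw [Prod.mk.injEq]
      exact ⟨fun e => e.2, fun e => ⟨h M ω ω' a b e, e⟩⟩
    have h3 : CH μ (F (M + 1)) (fun ω => (F M ω, (F 0 ω, G ω)))
        = CH μ (F (M + 1)) (fun ω => (F M ω, G ω)) := by
      apply ch_congr_right
      intro ω ω' a b
      rw [Prod.mk.injEq, Prod.mk.injEq, Prod.mk.injEq]
      exact ⟨fun e => ⟨e.1, e.2.2⟩, fun e => ⟨e.1, h' M ω ω' a b e.1, e.2⟩⟩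
    linarith

section tc

variable {ι : Type} [Fintype ι] [DecidableEq ι]

/-- the total correlation is nonnegative -/
theorem TC_nonneg (μ : Ω → ℝ) (D : ι → Ω → α) (G : Ω → γ) (H : ι → γ → β) (hμ : ∀ ω, 0 ≤ μ ω) :
    0 ≤ TC μ D G H := by
  rw [TC_eq μ D G H hμ]
  have h1 := decouple μ D G H hμ (fun _ _ => 1) (fun _ _ => zero_le_one)
  have h2 : ∑ ω, μ ω * EQ μ (hg H G) ω (fun _ => (1 : ℝ)) = ∑ ω, μ ω := by
    refine Finset.sum_congr rfl fun ω _ => ?_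
    by_cases h0 : μ ω = 0
    · rw [h0, zero_mul]
    · rw [EQ_const μ (hg H G) hμ ω h0, mul_one]
  simp only [mul_one] at h1
  rw [h2] at h1
  have h3 := e1_gibbs μ (fun ω => dens μ D G H ω) hμ (fun ω h0 => dens_pos μ D G H hμ ω h0) h1
  linarith

/-- subadditivity -/
theorem ch_pi_le (μ : Ω → ℝ) (hμ : ∀ ω, 0 ≤ μ ω) (D : ι → Ω → α) (G : Ω → γ) (H : ι → γ → β) :
    CH μ (fun ω => fun i => D i ω) G ≤ ∑ i, CH μ (D i) (hg H G i) := by
  have := TC_nonneg μ D G H hμ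
  unfold TC at this
  linarith

end tc

/-- Gibbs -/
theorem ch_gibbs (μ : Ω → ℝ) (hμ : ∀ ω, 0 ≤ μ ω) (F : Ω → α) (G : Ω → γ) (r : γ → α → ℝ)
    (hr : ∀ ω, μ ω ≠ 0 → 0 < r (G ω) (F ω)) (hr0 : ∀ g c, 0 ≤ r g c)
    (hr1 : ∀ g (S : Finset α), ∑ c ∈ S, r g c ≤ 1) :
    CH μ F G ≤ - ∑ ω, μ ω * Real.logb 2 (r (G ω) (F ω)) := by
  classical
  have h1 : ∑ ω, μ ω * Real.logb 2 (pr μ G ω * r (G ω) (F ω) / pr μ (fun ω' => (F ω', G ω')) ω)
      ≤ 0 := by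
    apply e1_gibbs μ _ hμ
    · intro ω h0
      exact div_pos (mul_pos (e1_pr_pos μ G hμ ω h0) (hr ω h0)) (e1_pr_pos μ _ hμ ω h0)
    · set pF : Ω → ℝ := pr μ (fun ω' => (F ω', G ω')) with hpF
      have e1 : ∀ ω, μ ω * (pr μ G ω * r (G ω) (F ω) / pF ω)
          = ∑ ω', μ ω' * (if G ω' = G ω then r (G ω') (F ω) * (μ ω / pF ω) else 0) := by
        intro ω
        rw [e1_pr_eq μ G ω, show μ ω * ((∑ ω', if G ω' = G ω then μ ω' else 0) * r (G ω) (F ω) / pF ω)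
          = (∑ ω', if G ω' = G ω then μ ω' else 0) * (r (G ω) (F ω) * (μ ω / pF ω)) by ring,
          Finset.sum_mul]
        refine Finset.sum_congr rfl fun ω' _ => ?_
        by_cases h2 : G ω' = G ω
        · rw [if_pos h2, if_pos h2, h2]
        · rw [if_neg h2, if_neg h2]
          ring
      rw [Finset.sum_congr rfl (fun ω _ => e1 ω), Finset.sum_comm]
      refine Finset.sum_le_sum fun ω' _ => ?_
      rw [← Finset.mul_sum, ← Finset.sum_filter]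
      refine mul_le_of_le_one_right (hμ ω') ?_
      set S := univ.filter (fun ω => G ω' = G ω) with hS
      rw [← Finset.sum_fiberwise_of_maps_to (s := S) (t := S.image F) (g := F)
        (fun ω hω => Finset.mem_image_of_mem F hω)]
      refine le_trans (Finset.sum_le_sum (g := fun c => r (G ω') c) fun c _ => ?_) (hr1 (G ω') _)
      have e2 : ∑ ω ∈ S.filter (fun ω => F ω = c), r (G ω') (F ω) * (μ ω / pF ω)
          = r (G ω') c * ∑ ω ∈ S.filter (fun ω => F ω = c), μ ω / pF ω := by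
        rw [Finset.mul_sum]
        refine Finset.sum_congr rfl fun ω hω => ?_
        rw [Finset.mem_filter] at hω
        rw [hω.2]
      rw [e2]
      refine mul_le_of_le_one_right (hr0 _ _) ?_
      apply e1_sum_div_le μ _ hμ
      intro ω hω ω2 hω2
      rw [Finset.mem_filter, hS, Finset.mem_filter] at hω hω2
      exact Prod.ext (hω.2.trans hω2.2.symm) (hω.1.2.symm.trans hω2.1.2)
  have e5 : ∀ ω, μ ω * Real.logb 2 (pr μ G ω * r (G ω) (F ω) / pr μ (fun ω' => (F ω', G ω')) ω)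
      = μ ω * (Real.logb 2 (pr μ G ω) - Real.logb 2 (pr μ (fun ω' => (F ω', G ω')) ω))
        + μ ω * Real.logb 2 (r (G ω) (F ω)) := by
    intro ω
    by_cases h0 : μ ω = 0
    · simp [h0]
    have h2 := e1_pr_pos μ G hμ ω h0
    have h3 := e1_pr_pos μ (fun ω' => (F ω', G ω')) hμ ω h0
    have h5 := hr ω h0
    rw [Real.logb_div (mul_pos h2 h5).ne' h3.ne', Real.logb_mul h2.ne' h5.ne']
    ring
  rw [Finset.sum_congr rfl (fun ω _ => e5 ω), Finset.sum_add_distrib] at h1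
  unfold CH
  linarith

end Pool.Agent.Helper61.GL
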