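import Pool.Agent.Helper61.GL.KRG2
import Pool.Agent.Helper69.RK.StE

/-!
# Measure preserving maps and conditional laws
-/

set_option autoImplicit false

namespace Pool.Agent.Helper61.GL

open Finset Pool.Agent.Helper69.RK

variable {Ω Ω' α β γ : Type} [Fintype Ω] [Fintype Ω']

theorem push_sum (π : Ω' → Ω) (μ' : Ω' → ℝ) (φ : Ω → ℝ) :
    ∑ ω, push π μ' ω * φ ω = ∑ w, μ' w * φ (π w) := by
  classical
  unfold push
  simp only [Finset.sum_mul]
  rw [Finset.sum_comm]
  refine Finset.sum_congr rfl fun w _ => ?_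
  rw [Finset.sum_eq_single (π w)]
  · rw [if_pos rfl]
  · intro ω _ h
    rw [if_neg (Ne.symm h), zero_mul]
  · intro h
    exact absurd (Finset.mem_univ _) h

theorem push_pr (π : Ω' → Ω) (μ' : Ω' → ℝ) (G : Ω → γ) (w : Ω') :
    pr (push π μ') G (π w) = pr μ' (fun w => G (π w)) w := by
  classical
  have h := push_sum π μ' (fun ω => if G ω = G (π w) then 1 else 0)
  rw [e1_pr_eq, e1_pr_eq]
  simpa only [mul_ite, mul_one, mul_zero] using h

theorem push_cw (π : Ω' → Ω) (μ' : Ω' → ℝ) (G : Ω → γ) (w : Ω') (φ : Ω → ℝ) :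
    ∑ ω', cw (push π μ') G (π w) ω' * φ ω' = ∑ w', cw μ' (fun w => G (π w)) w w' * φ (π w') := by
  classical
  have h := push_sum π μ' (fun ω => (if G ω = G (π w) then 1 else 0) * φ ω /
    pr μ' (fun w => G (π w)) w)
  unfold cw
  rw [push_pr]
  have e1 : ∀ ω', (if G ω' = G (π w) then push π μ' ω' else 0) / pr μ' (fun w => G (π w)) w * φ ω'
      = push π μ' ω' * ((if G ω' = G (π w) then 1 else 0) * φ ω' / pr μ' (fun w => G (π w)) w) := by
    intro ω'
    split_ifs <;> ring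
  have e2 : ∀ w', (if G (π w') = G (π w) then μ' w' else 0) / pr μ' (fun w => G (π w)) w * φ (π w')
      = μ' w' * ((if G (π w') = G (π w) then 1 else 0) * φ (π w') / pr μ' (fun w => G (π w)) w) := by
    intro ω'
    split_ifs <;> ring
  rw [Finset.sum_congr rfl (fun ω' _ => e1 ω'), Finset.sum_congr rfl (fun w' _ => e2 w')]
  exact h

theorem push_LH (π : Ω' → Ω) (μ' : Ω' → ℝ) (F : Ω → α) (G : Ω → γ) (w : Ω') :
    LH (push π μ') F G (π w) = LH μ' (fun w => F (π w)) (fun w => G (π w)) w := by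
  unfold LH
  rw [push_cw]
  refine Finset.sum_congr rfl fun w' _ => ?_
  rw [push_pr, push_pr]

theorem push_res (π : Ω' → Ω) (μ' : Ω' → ℝ) (E : Ω → Prop) :
    mass (res (push π μ') E) = mass (res μ' (fun w => E (π w))) := by
  classical
  have h := push_sum π μ' (fun ω => if E ω then 1 else 0)
  unfold mass res
  simpa only [mul_ite, mul_one, mul_zero] using h

theorem push_CH (π : Ω' → Ω) (μ' : Ω' → ℝ) (F : Ω → α) (G : Ω → γ) :
    CH (push π μ') F G = CH μ' (fun w => F (π w)) (fun w => G (π w)) := by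
  unfold CH
  rw [push_sum]
  refine Finset.sum_congr rfl fun w' _ => ?_
  rw [push_pr, push_pr]

/-- conditional weights only depend on the condition on the support -/
theorem cw_congr_cond (μ : Ω → ℝ) (G : Ω → γ) (G' : Ω → β)
    (h : ∀ ω ω', μ ω ≠ 0 → μ ω' ≠ 0 → (G ω = G ω' ↔ G' ω = G' ω')) {ω : Ω} (h0 : μ ω ≠ 0) (ω' : Ω) :
    cw μ G ω ω' = cw μ G' ω ω' := by
  classical
  have h1 : pr μ G ω = pr μ G' ω := by
    rw [e1_pr_eq, e1_pr_eq]
    refine Finset.sum_congr rfl fun ω1 _ => ?_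
    by_cases h2 : μ ω1 = 0
    · rw [h2]
      split_ifs <;> rfl
    · by_cases h3 : G ω1 = G ω
      · rw [if_pos h3, if_pos ((h _ _ h2 h0).1 h3)]
      · rw [if_neg h3, if_neg (fun h4 => h3 ((h _ _ h2 h0).2 h4))]
  unfold cw
  rw [h1]
  congr 1
  by_cases h2 : μ ω' = 0
  · rw [h2]
    split_ifs <;> rfl
  · by_cases h3 : G ω' = G ω
    · rw [if_pos h3, if_pos ((h _ _ h2 h0).1 h3)]
    · rw [if_neg h3, if_neg (fun h4 => h3 ((h _ _ h2 h0).2 h4))]

end Pool.Agent.Helper61.GL
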