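import Pool.Agent.Helper61.GL.KE
import Pool.Agent.Helper61.GL.Push
import Pool.Agent.Helper63.RK.E8
import Pool.Agent.Helper63.RK.E10
import Pool.Agent.Helper46.WF.Ent

/-!
# Lemma K: cells of an absorbed variable are atomic at the deficient levels. Core estimate.
-/

set_option autoImplicit false

namespace Pool.Agent.Helper61.GL

open Finset Pool.Agent.Helper69.RK Pool.Agent.Helper46.WF

section pre

variable {Ω α β γ δ : Type} [Fintype Ω]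

theorem LH_eq_Hh (μ : Ω → ℝ) (hμ : ∀ ω, 0 ≤ μ ω) (f : Ω → α) (G : Ω → γ) {ω : Ω} (h0 : μ ω ≠ 0) :
    LH μ f G ω = Hh (cw μ G ω) f := by
  classical
  unfold LH
  rw [Hh_eq _ (cw_sum μ G hμ ω h0), ← Finset.sum_neg_distrib]
  refine Finset.sum_congr rfl fun ω' _ => ?_
  by_cases hc : cw μ G ω ω' = 0
  · simp [hc]
  obtain ⟨hG, h0'⟩ := cw_ne_zero μ G hc
  have e1 : pr (cw μ G ω) f ω' = pr μ (fun ω' => (f ω', G ω')) ω' / pr μ G ω := by
    rw [e1_pr_eq, e1_pr_eq, Finset.sum_div]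
    refine Finset.sum_congr rfl fun ω2 _ => ?_
    unfold cw
    by_cases k1 : f ω2 = f ω' <;> by_cases k2 : G ω2 = G ω <;> simp [k1, k2, hG]
  rw [e1, Real.logb_div (e1_pr_pos μ _ hμ ω' h0').ne' (e1_pr_pos μ G hμ ω h0).ne',
    e1_pr_atom μ G ω' ω hG]
  ring

/-- difference of the digits inside a cell -/
theorem fl_in_cell {l l' : ℕ} (h : l ≤ l') {y y' : ℝ} (e : fl l y = fl l y') :
    |((fl l' y : ℤ) : ℝ) - fl l' y'| ≤ 2 ^ (l' - l) - 1 := by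
  rw [fl_div h, fl_div h y'] at e
  have hpos : (0 : ℤ) < ((2 ^ (l' - l) : ℕ) : ℤ) := by positivity
  have h1 := Int.mul_ediv_add_emod (fl l' y) ((2 ^ (l' - l) : ℕ) : ℤ)
  have h2 := Int.mul_ediv_add_emod (fl l' y') ((2 ^ (l' - l) : ℕ) : ℤ)
  have h3 := Int.emod_nonneg (fl l' y) hpos.ne'
  have h4 := Int.emod_lt_of_pos (fl l' y) hpos
  have h5 := Int.emod_nonneg (fl l' y') hpos.ne'
  have h6 := Int.emod_lt_of_pos (fl l' y') hpos
  rw [e] at h1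
  have h7 : |fl l' y - fl l' y'| ≤ ((2 ^ (l' - l) : ℕ) : ℤ) - 1 := by
    rw [abs_le]
    constructor <;> linarith
  have h8 : ((|fl l' y - fl l' y'| : ℤ) : ℝ) ≤ ((((2 ^ (l' - l) : ℕ) : ℤ) - 1 : ℤ) : ℝ) := by
    exact_mod_cast h7
  push_cast at h8
  exact h8

theorem ch_digits (μ : Ω → ℝ) (hμ : ∀ ω, 0 ≤ μ ω) (z : Ω → ℝ) (G : Ω → γ) {l l' : ℕ} (h : l ≤ l')
    (hG : ∀ ω ω', μ ω ≠ 0 → μ ω' ≠ 0 → G ω = G ω' → fl l (z ω) = fl l (z ω')) :
    CH μ (fun ω => fl l' (z ω)) G ≤ ((l' - l : ℕ) : ℝ) * mass μ := by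
  have h1 : (1 : ℝ) ≤ 2 ^ (l' - l) := one_le_pow₀ (by norm_num)
  have h2 := ch_int μ hμ (fun ω => fl l' (z ω)) G (2 ^ (l' - l) - 1) (by linarith)
    (fun ω ω' a b c => fl_in_cell h (hG ω ω' a b c))
  rw [sub_add_cancel, Real.logb_pow, Real.logb_self_eq_one (by norm_num), mul_one] at h2
  exact h2

theorem LH_succ (μ : Ω → ℝ) (hμ : ∀ ω, 0 ≤ μ ω) (z : Ω → ℝ) (G : Ω → γ) (t : ℕ) {ω : Ω}
    (h0 : μ ω ≠ 0) :
    LH μ (fun ω => fl (t + 1) (z ω)) G ω ≤ LH μ (fun ω => fl t (z ω)) G ω + 1 := by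
  rw [LH_eq_Hh μ hμ _ G h0, LH_eq_Hh μ hμ _ G h0]
  have hw : ∀ ω', 0 ≤ cw μ G ω ω' := fun ω' => cw_nonneg μ G hμ ω ω'
  have h1 := ch_tri (cw μ G ω) hw (fun ω => fl (t + 1) (z ω)) (fun ω => fl t (z ω)) (fun _ => ())
  have h2 := ch_digits (cw μ G ω) hw z (fun ω => (fl t (z ω), ())) (Nat.le_succ t)
    (fun ω1 ω2 _ _ h => congrArg Prod.fst h)
  have h3 : mass (cw μ G ω) = 1 := cw_sum μ G hμ ω h0
  rw [h3, mul_one, Nat.succ_sub (le_refl t), Nat.sub_self] at h2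
  unfold Hh
  norm_num at h2
  linarith

/-- rounding to `n` digits -/
noncomputable def zr (n : ℕ) (y : ℝ) : ℝ := (fl n y : ℝ) / 2 ^ n

theorem fl_zr_n (n : ℕ) (y : ℝ) : fl n (zr n y) = fl n y := by
  unfold zr
  change ⌊(2 : ℝ) ^ n * ((fl n y : ℝ) / 2 ^ n)⌋ = _
  rw [mul_div_cancel₀ _ (by positivity)]
  exact Int.floor_intCast _

theorem fl_zr {l n : ℕ} (h : l ≤ n) (y : ℝ) : fl l (zr n y) = fl l y := by
  rw [fl_div h, fl_zr_n, ← fl_div h]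

theorem Pw_eq (w : Ω → ℝ) (A : Ω → Prop) : Pw w A = mass (res w A) := by
  classical
  unfold Pw mass res
  refine Finset.sum_congr rfl fun ω _ => ?_
  congr

end pre

/-- input of lemma K -/
structure KI (Ω γ α β : Type) [Fintype Ω] where
  μ : Ω → ℝ
  nn : ∀ ω, 0 ≤ μ ω
  ms : mass μ = 1
  z : Ω → ℝ
  hz : ∀ ω, 0 ≤ z ω ∧ z ω < 1
  ζ : Ω → γ
  v : Ω → α
  F : γ → α → ℝ
  cl : ℕ → α → β
  C : ℕ
  R : ℕ
  T : ℕ
  n : ℕ
  ε : ℝ
  hR : C + 3 ≤ R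
  ref : ∀ l ω ω', μ ω ≠ 0 → μ ω' ≠ 0 → cl (l + 1) (v ω) = cl (l + 1) (v ω') →
    cl l (v ω) = cl l (v ω')
  lip : ∀ l ω0 ω ω', μ ω0 ≠ 0 → μ ω ≠ 0 → μ ω' ≠ 0 → cl l (v ω) = cl l (v ω') →
    |F (ζ ω0) (v ω) - F (ζ ω0) (v ω')| * 2 ^ (l + T) ≤ 2 ^ C
  tc : Hh μ (fun ω => fl n (z ω)) + Hh μ ζ + Hh μ v ≤
    Hh μ (fun ω => (fl n (z ω), ζ ω, v ω)) + ε
  ab : CH μ (fun ω => fl n (z ω + F (ζ ω) (v ω))) ζ ≤ Hh μ (fun ω => fl n (z ω)) + ε

namespace KI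

variable {Ω γ α β : Type} [Fintype Ω] (D : KI Ω γ α β)

def k : ℕ := D.R - D.C - 2

/-- number of copies -/
noncomputable def N : ℝ := 4 ^ D.k

def i0 : Fin (4 ^ D.k) := ⟨0, by positivity⟩

noncomputable def G (ω : Ω) : ℤ × γ := (fl D.n (D.z ω), D.ζ ω)

theorem t1 : Hh D.μ D.v ≤ CH D.μ D.v D.G + D.ε := by
  have h0 := D.tc
  have h1 := ch_chain D.μ (fun ω => fl D.n (D.z ω)) (fun ω => (D.ζ ω, D.v ω)) (fun _ => ())
  have h2 := ch_chain D.μ D.ζ D.v (fun ω => (fl D.n (D.z ω), ()))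
  have h3 := ch_cond D.μ D.nn D.ζ (fun _ => ()) (fun ω => (fl D.n (D.z ω), ())) (fun _ _ _ _ _ => rfl)
  have h4 : CH D.μ D.v (fun ω => (D.ζ ω, (fl D.n (D.z ω), ()))) = CH D.μ D.v D.G := by
    apply ch_congr_right
    intro ω ω' _ _
    unfold G
    rw [Prod.mk.injEq, Prod.mk.injEq, Prod.mk.injEq]
    tauto
  unfold Hh at h0 ⊢
  linarith

theorem t2 : Hh D.μ D.ζ ≤ CH D.μ D.ζ (fun ω => fl D.n (D.z ω)) + D.ε := by
  have h0 := D.tc
  have h1 := ch_chain D.μ (fun ω => fl D.n (D.z ω)) (fun ω => (D.ζ ω, D.v ω)) (fun _ => ())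
  have h2 := ch_chain D.μ D.ζ D.v (fun ω => (fl D.n (D.z ω), ()))
  have h3 := ch_cond D.μ D.nn D.v (fun _ => ()) (fun ω => (D.ζ ω, (fl D.n (D.z ω), ())))
    (fun _ _ _ _ _ => rfl)
  have h4 : CH D.μ D.ζ (fun ω => (fl D.n (D.z ω), ())) = CH D.μ D.ζ (fun ω => fl D.n (D.z ω)) := by
    apply ch_congr_right
    intro ω ω' _ _
    rw [Prod.mk.injEq]
    exact and_iff_left rfl
  unfold Hh at h0 ⊢
  linarith

theorem t3 : Hh D.μ (fun ω => fl D.n (D.z ω)) ≤ CH D.μ (fun ω => fl D.n (D.z ω)) D.ζ + D.ε := by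
  have h1 := ch_symm D.μ (fun ω => fl D.n (D.z ω)) D.ζ (fun _ => ())
  have h2 := D.t2
  have h3 : CH D.μ D.ζ (fun ω => (fl D.n (D.z ω), ())) = CH D.μ D.ζ (fun ω => fl D.n (D.z ω)) := by
    apply ch_congr_right
    intro ω ω' _ _
    rw [Prod.mk.injEq]
    exact and_iff_left rfl
  have h4 : CH D.μ (fun ω => fl D.n (D.z ω)) (fun ω => (D.ζ ω, ()))
      = CH D.μ (fun ω => fl D.n (D.z ω)) D.ζ := by
    apply ch_congr_right
    intro ω ω' _ _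
    rw [Prod.mk.injEq]
    exact and_iff_left rfl
  unfold Hh at h2 ⊢
  linarith

theorem t4 : CH D.μ D.v D.ζ ≤ CH D.μ D.v D.G + D.ε := by
  have h1 := D.t1
  have h2 := ch_cond D.μ D.nn D.v (fun _ => ()) D.ζ (fun _ _ _ _ _ => rfl)
  unfold Hh at h1
  linarith

theorem ε_nonneg : 0 ≤ D.ε := by
  have h1 := D.t1
  have h2 := ch_cond D.μ D.nn D.v (fun _ => ()) D.G (fun _ _ _ _ _ => rfl)
  unfold Hh at h1
  linarith

/-- the absorbed sum, added up digitwise -/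
theorem ab' : CH D.μ (fun ω => fl D.n (D.z ω) + fl D.n (D.F (D.ζ ω) (D.v ω))) D.ζ ≤
    Hh D.μ (fun ω => fl D.n (D.z ω)) + D.ε + 1 := by
  have h1 := ch_tri D.μ D.nn (fun ω => fl D.n (D.z ω) + fl D.n (D.F (D.ζ ω) (D.v ω)))
    (fun ω => fl D.n (D.z ω + D.F (D.ζ ω) (D.v ω))) D.ζ
  have h2 := ch_int D.μ D.nn (fun ω => fl D.n (D.z ω) + fl D.n (D.F (D.ζ ω) (D.v ω)))
    (fun ω => (fl D.n (D.z ω + D.F (D.ζ ω) (D.v ω)), D.ζ ω)) 1 (by norm_num)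
    (fun ω ω' _ _ h => by
      have h3 : fl D.n (D.z ω + D.F (D.ζ ω) (D.v ω)) = fl D.n (D.z ω' + D.F (D.ζ ω') (D.v ω')) :=
        congrArg Prod.fst h
      have key : ∀ a b : ℝ, fl D.n (a + b) - 1 ≤ fl D.n a + fl D.n b ∧
          fl D.n a + fl D.n b ≤ fl D.n (a + b) := by
        intro a b
        unfold fl
        rw [mul_add]
        refine ⟨?_, Int.le_floor_add _ _⟩
        have := Int.le_floor_add_floor ((2 : ℝ) ^ D.n * a) ((2 : ℝ) ^ D.n * b)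
        linarith
      obtain ⟨a1, a2⟩ := key (D.z ω) (D.F (D.ζ ω) (D.v ω))
      obtain ⟨b1, b2⟩ := key (D.z ω') (D.F (D.ζ ω') (D.v ω'))
      rw [h3] at a1 a2
      have h4 : |(fl D.n (D.z ω) + fl D.n (D.F (D.ζ ω) (D.v ω))) -
          (fl D.n (D.z ω') + fl D.n (D.F (D.ζ ω') (D.v ω')))| ≤ 1 := by
        rw [abs_le]
        constructor <;> linarith
      exact_mod_cast h4)
  rw [D.ms, one_add_one_eq_two, Real.logb_self_eq_one (by norm_num), mul_one] at h2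
  have h3 := D.ab
  linarith

end KI

/-- input of lemma K with copies of `v` -/
structure KC (Ω Ω' γ α β : Type) [Fintype Ω] [Fintype Ω'] extends KI Ω γ α β where
  μ' : Ω' → ℝ
  nn' : ∀ w, 0 ≤ μ' w
  π : Fin (4 ^ toKI.k) → Ω' → Ω
  hπ : ∀ i, push (π i) μ' = μ
  supp : ∀ w, μ' w ≠ 0 → ∀ i, μ (π i w) ≠ 0
  hG : ∀ w, μ' w ≠ 0 → ∀ i j, toKI.G (π i w) = toKI.G (π j w)
  hCH : ∀ (f : Fin (4 ^ toKI.k) → Ω → α),
    CH μ' (fun w => fun i => f i (π i w)) (fun w => toKI.G (π toKI.i0 w)) = ∑ i, CH μ (f i) toKI.G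

namespace KC

variable {Ω Ω' γ α β : Type} [Fintype Ω] [Fintype Ω'] (D : KC Ω Ω' γ α β)

theorem ms' : mass D.μ' = 1 := by
  have h := push_sum (D.π D.i0) D.μ' (fun _ => 1)
  rw [D.hπ] at h
  simp only [mul_one] at h
  have h1 := D.ms
  unfold mass at h1 ⊢
  rw [← h, h1]

theorem hζ {w : Ω'} (h : D.μ' w ≠ 0) (i j : Fin (4 ^ D.k)) : D.ζ (D.π i w) = D.ζ (D.π j w) :=
  congrArg Prod.snd (D.hG w h i j)

theorem hzn {w : Ω'} (h : D.μ' w ≠ 0) (i j : Fin (4 ^ D.k)) :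
    fl D.n (D.z (D.π i w)) = fl D.n (D.z (D.π j w)) :=
  congrArg Prod.fst (D.hG w h i j)

/-- the data of the growth theorem -/
noncomputable abbrev ke (r : ℕ) : KE Ω' γ α β where
  μ := D.μ'
  nn := D.nn'
  ms := D.ms'
  f := fun w => D.ζ (D.π D.i0 w)
  z := fun w => zr D.n (D.z (D.π D.i0 w))
  n0 := D.k
  κ := D.C
  b := 1
  e0 := r
  A := fun i w => D.v (D.π i w)
  X := fun _ g x => D.F g x
  cl := fun l x => D.cl (l - D.T) x
  ref := fun i l w w' h h' hc => by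
    by_cases hl : D.T ≤ l
    · have e1 : l + 1 - D.T = (l - D.T) + 1 := by omega
      rw [e1] at hc
      exact D.ref _ _ _ (D.supp w h i) (D.supp w' h' i) hc
    · have e1 : l + 1 - D.T = l - D.T := by omega
      rw [e1] at hc
      exact hc
  reg := fun i l w0 w w' h0 h h' hc => by
    have h1 := D.lip (l - D.T) _ _ _ (D.supp w0 h0 D.i0) (D.supp w h i) (D.supp w' h' i) hc
    rw [le_div_iff₀ (by positivity)]
    refine le_trans (mul_le_mul_of_nonneg_left ?_ (abs_nonneg _)) h1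
    exact pow_le_pow_right₀ (by norm_num) (by omega)

theorem R_eq (r : ℕ) : (D.ke r).R = D.R + 1 := by
  have h1 := D.hR
  change 1 + (D.R - D.C - 2) + D.C + 2 = D.R + 1
  omega

theorem zn_z (r : ℕ) (w : Ω') : fl D.n ((D.ke r).z w) = fl D.n (D.z (D.π D.i0 w)) := fl_zr_n _ _

theorem Th_le (r l : ℕ) : (D.ke r).Th l ≤ D.N * D.ε := by
  unfold KE.Th
  have h1 : ∀ i, CH (D.ke r).μ ((D.ke r).A i) (fun _ => ())
      = CH (D.ke r).μ (fun ω => (D.ke r).cl l ((D.ke r).A i ω)) (fun _ => ())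
        + CH (D.ke r).μ ((D.ke r).A i) (fun ω => ((D.ke r).cl l ((D.ke r).A i ω), ())) := by
    intro i
    have := ch_diff (D.ke r).μ ((D.ke r).A i) (fun ω => (D.ke r).cl l ((D.ke r).A i ω)) (fun _ => ())
      (fun ω ω' _ _ _ hA => by rw [hA])
    linarith
  have h2 := ch_diff (D.ke r).μ (fun ω => fun i => (D.ke r).A i ω) (fun ω => (D.ke r).C l ω)
    (fun ω => ((D.ke r).z ω, (D.ke r).f ω)) (fun ω ω' _ _ _ hA => by
      funext i
      have hA'' : (D.ke r).A i ω = (D.ke r).A i ω' := congrFun hA i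
      change (D.ke r).cl l ((D.ke r).A i ω) = (D.ke r).cl l ((D.ke r).A i ω')
      rw [hA''])
  have h3 := ch_pi_le (D.ke r).μ (D.ke r).nn (D.ke r).A
    (fun ω => ((D.ke r).C l ω, ((D.ke r).z ω, (D.ke r).f ω))) (fun i g => g.1 i)
  have h4 : ∀ i, CH (D.ke r).μ ((D.ke r).A i)
      (hg (fun i g => g.1 i) (fun ω => ((D.ke r).C l ω, ((D.ke r).z ω, (D.ke r).f ω))) i)
      = CH (D.ke r).μ ((D.ke r).A i) (fun ω => ((D.ke r).cl l ((D.ke r).A i ω), ())) := by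
    intro i
    apply ch_congr_right
    intro ω ω' _ _
    change (D.ke r).cl l ((D.ke r).A i ω) = (D.ke r).cl l ((D.ke r).A i ω') ↔ _
    rw [Prod.mk.injEq]
    exact (and_iff_left rfl).symm
  rw [Finset.sum_congr rfl (fun i _ => h4 i)] at h3
  -- the full variables
  have h5 : ∀ i, CH (D.ke r).μ ((D.ke r).A i) (fun _ => ()) = CH D.μ D.v (fun _ => ()) := by
    intro i
    have := push_CH (D.π i) D.μ' D.v (fun _ => ())
    rw [D.hπ] at this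
    exact this.symm
  have h6 : CH (D.ke r).μ (fun ω => fun i => (D.ke r).A i ω) (fun ω => ((D.ke r).z ω, (D.ke r).f ω))
      = ∑ _i : Fin (4 ^ D.k), CH D.μ D.v D.G := by
    rw [← D.hCH (fun _ => D.v)]
    apply ch_congr_right
    intro w w' _ _
    unfold KI.G
    rw [Prod.mk.injEq, Prod.mk.injEq]
    change (zr D.n _ = zr D.n _ ∧ _) ↔ _
    constructor
    · rintro ⟨a, b⟩
      refine ⟨?_, b⟩
      rw [← fl_zr_n, a, fl_zr_n]
    · rintro ⟨a, b⟩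
      refine ⟨?_, b⟩
      unfold zr
      rw [a]
  have h7 : ∑ i, CH (D.ke r).μ (fun ω => (D.ke r).cl l ((D.ke r).A i ω)) (fun _ => ())
      = (∑ _i : Fin (4 ^ D.k), CH D.μ D.v (fun _ => ())) -
        ∑ i, CH (D.ke r).μ ((D.ke r).A i) (fun ω => ((D.ke r).cl l ((D.ke r).A i ω), ())) := by
    rw [← Finset.sum_sub_distrib]
    refine Finset.sum_congr rfl fun i _ => ?_
    rw [← h5 i, h1 i]
    ring
  have h8 := D.t1
  unfold Hh at h8
  have h9 : ∑ _i : Fin (4 ^ D.k), CH D.μ D.v (fun _ => ()) ≤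
      ∑ _i : Fin (4 ^ D.k), (CH D.μ D.v D.G + D.ε) := Finset.sum_le_sum fun _ _ => h8
  rw [Finset.sum_add_distrib, Finset.sum_const (b := D.ε), Finset.card_univ, Fintype.card_fin,
    nsmul_eq_mul] at h9
  push_cast at h9
  unfold KI.N
  linarith

theorem Ia_le (r M : ℕ) (hM : (D.ke r).e M ≤ D.n) : (D.ke r).Ia M ≤ (D.N + 1) * D.ε := by
  unfold KE.Ia
  rw [ch_symm]
  have hr : (D.ke r).e 0 ≤ D.n := ((D.ke r).e_mono (Nat.zero_le M)).trans hM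
  have h1 : CH (D.ke r).μ (fun ω => (D.ke r).AF M ω) ((D.ke r).gz 0) ≤
      CH (D.ke r).μ (fun ω => (D.ke r).AF M ω) (fun _ => ()) :=
    ch_cond (D.ke r).μ (D.ke r).nn _ _ _ (fun _ _ _ _ _ => rfl)
  have h2 : CH (D.ke r).μ (fun ω => (D.ke r).AF M ω) (fun ω => fl D.n ((D.ke r).z ω)) ≤
      CH (D.ke r).μ (fun ω => (D.ke r).AF M ω)
        (fun ω => (fl ((D.ke r).e M) ((D.ke r).z ω), (D.ke r).gz 0 ω)) :=
    ch_cond (D.ke r).μ (D.ke r).nn _ _ _ (fun ω ω' _ _ h => by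
      unfold KE.gz
      rw [Prod.mk.injEq]
      exact ⟨fl_ref hM h, fl_ref hr h⟩)
  have h3 : CH (D.ke r).μ (fun ω => (D.ke r).AF M ω) (fun _ => ()) ≤
      CH (D.ke r).μ (D.ke r).f (fun _ => ()) +
        ∑ i, CH (D.ke r).μ (fun ω => (D.ke r).cl ((D.ke r).s (M + 1)) ((D.ke r).A i ω)) (fun _ => ()) := by
    have a1 := ch_tri (D.ke r).μ (D.ke r).nn (fun ω => (D.ke r).AF M ω) (D.ke r).f (fun _ => ())
    have a2 : CH (D.ke r).μ (fun ω => (D.ke r).AF M ω) (fun ω => ((D.ke r).f ω, ())) ≤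
        CH (D.ke r).μ (fun ω => (D.ke r).C ((D.ke r).s (M + 1)) ω) (fun ω => ((D.ke r).f ω, ())) :=
      ch_mono (D.ke r).μ (D.ke r).nn _ _ _ (fun ω ω' _ _ h h' => by
        unfold KE.AF
        rw [Prod.mk.injEq]
        exact ⟨h, congrArg Prod.fst h'⟩)
    have a3 := ch_pi_le (D.ke r).μ (D.ke r).nn
      (fun i ω => (D.ke r).cl ((D.ke r).s (M + 1)) ((D.ke r).A i ω)) (fun ω => ((D.ke r).f ω, ()))
      (fun _ _ => ())
    have a4 : CH (D.ke r).μ (fun ω => fun i => (D.ke r).cl ((D.ke r).s (M + 1)) ((D.ke r).A i ω))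
        (fun ω => ((D.ke r).f ω, ())) = CH (D.ke r).μ (fun ω => (D.ke r).C ((D.ke r).s (M + 1)) ω)
          (fun ω => ((D.ke r).f ω, ())) := rfl
    have a5 : ∀ i, CH (D.ke r).μ (fun ω => (D.ke r).cl ((D.ke r).s (M + 1)) ((D.ke r).A i ω))
        (hg (fun _ _ => ()) (fun ω => ((D.ke r).f ω, ())) i)
        = CH (D.ke r).μ (fun ω => (D.ke r).cl ((D.ke r).s (M + 1)) ((D.ke r).A i ω)) (fun _ => ()) :=
      fun i => rfl
    rw [Finset.sum_congr rfl (fun i _ => a5 i)] at a3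
    linarith
  have h4 : CH (D.ke r).μ (D.ke r).f (fun ω => fl D.n ((D.ke r).z ω)) +
      CH (D.ke r).μ (fun ω => (D.ke r).C ((D.ke r).s (M + 1)) ω)
        (fun ω => ((D.ke r).z ω, (D.ke r).f ω)) ≤
      CH (D.ke r).μ (fun ω => (D.ke r).AF M ω) (fun ω => fl D.n ((D.ke r).z ω)) := by
    have a1 := ch_chain (D.ke r).μ (D.ke r).f (fun ω => (D.ke r).C ((D.ke r).s (M + 1)) ω)
      (fun ω => fl D.n ((D.ke r).z ω))
    have a2 : CH (D.ke r).μ (fun ω => (D.ke r).C ((D.ke r).s (M + 1)) ω)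
        (fun ω => ((D.ke r).z ω, (D.ke r).f ω)) ≤
        CH (D.ke r).μ (fun ω => (D.ke r).C ((D.ke r).s (M + 1)) ω)
        (fun ω => ((D.ke r).f ω, fl D.n ((D.ke r).z ω))) :=
      ch_cond (D.ke r).μ (D.ke r).nn _ _ _ (fun ω ω' _ _ h => by
        rw [Prod.mk.injEq] at h
        rw [Prod.mk.injEq]
        exact ⟨h.2, by rw [h.1]⟩)
    have a3 : CH (D.ke r).μ (fun ω => ((D.ke r).f ω, (D.ke r).C ((D.ke r).s (M + 1)) ω))
        (fun ω => fl D.n ((D.ke r).z ω)) ≤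
        CH (D.ke r).μ (fun ω => (D.ke r).AF M ω) (fun ω => fl D.n ((D.ke r).z ω)) :=
      ch_mono (D.ke r).μ (D.ke r).nn _ _ _ (fun ω ω' _ _ h _ => by
        unfold KE.AF at h
        rw [Prod.mk.injEq] at h ⊢
        exact ⟨h.2, h.1⟩)
    linarith
  have h5 := D.Th_le r ((D.ke r).s (M + 1))
  unfold KE.Th at h5
  have h6 : CH (D.ke r).μ (D.ke r).f (fun _ => ()) = CH D.μ D.ζ (fun _ => ()) := by
    have := push_CH (D.π D.i0) D.μ' D.ζ (fun _ => ())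
    rw [D.hπ] at this
    exact this.symm
  have h7 : CH (D.ke r).μ (D.ke r).f (fun ω => fl D.n ((D.ke r).z ω))
      = CH D.μ D.ζ (fun ω => fl D.n (D.z ω)) := by
    have := push_CH (D.π D.i0) D.μ' D.ζ (fun ω => fl D.n (D.z ω))
    rw [D.hπ] at this
    rw [this]
    apply ch_congr_right
    intro w w' _ _
    rw [D.zn_z, D.zn_z]
  have h8 := D.t2
  unfold Hh at h8
  linarith

end KC

end Pool.Agent.Helper61.GL
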