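import Pool.Agent.Helper61.GL.KC

/-!
# Lemma K: core estimate, continued
-/

set_option autoImplicit false

namespace Pool.Agent.Helper61.GL

open Finset Pool.Agent.Helper69.RK Pool.Agent.Helper46.WF

namespace KC

variable {Ω Ω' γ α β : Type} [Fintype Ω] [Fintype Ω'] (D : KC Ω Ω' γ α β)

/-- integer valued absorbed increments -/
noncomputable def Lb (b : Fin (4 ^ D.k)) (w : Ω') : ℤ :=
  -fl D.n (D.F (D.ζ (D.π D.i0 w)) (D.v (D.π b w)))

/-- Kaimanovich-Vershik -/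
theorem kv : CH D.μ' (fun w => fl D.n (D.z (D.π D.i0 w)) - ∑ b, D.Lb b w)
    (fun w => D.ζ (D.π D.i0 w)) ≤
    Hh D.μ (fun ω => fl D.n (D.z ω)) + D.N * (2 * D.ε + 1) + 3 * D.N * (D.N * D.ε) := by
  have hN : ((4 ^ D.k : ℕ) : ℝ) = D.N := by
    unfold KI.N
    push_cast
    rfl
  have hE := st_E10 st_E1 (st_E2 st_E1)
  have h1 := hE Ω' ℤ α γ (4 ^ D.k) D.μ' (fun w => fl D.n (D.z (D.π D.i0 w)))
    (fun b w => D.v (D.π b w)) D.Lb (fun w => D.ζ (D.π D.i0 w)) (D.N * D.ε) D.nn'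
    (fun b w w' _ _ h => by
      have h' := Prod.ext_iff.1 h
      have h1 : D.v (D.π b w) = D.v (D.π b w') := h'.1
      have h2 : D.ζ (D.π D.i0 w) = D.ζ (D.π D.i0 w') := h'.2
      unfold Lb
      rw [h1, h2])
    (by
      have a1 : ∀ b, CH D.μ' (fun w => D.v (D.π b w)) (fun w => D.ζ (D.π D.i0 w))
          = CH D.μ D.v D.ζ := by
        intro b
        have := push_CH (D.π b) D.μ' D.v D.ζ
        rw [D.hπ] at this
        rw [this]
        apply ch_congr_right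
        intro w w' h h'
        rw [D.hζ h D.i0 b, D.hζ h' D.i0 b]
      have a2 : CH D.μ' (fun w => fun b => D.v (D.π b w))
          (fun w => (fl D.n (D.z (D.π D.i0 w)), D.ζ (D.π D.i0 w))) = ∑ _i : Fin (4 ^ D.k),
            CH D.μ D.v D.G := by
        rw [← D.hCH (fun _ => D.v)]
        rfl
      rw [a2, Finset.sum_congr rfl (fun b _ => a1 b), Finset.sum_const, Finset.sum_const,
        Finset.card_univ, Fintype.card_fin, nsmul_eq_mul, nsmul_eq_mul, hN]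
      have a3 := D.t4
      have a4 : 0 ≤ D.N := by unfold KI.N; positivity
      have a5 := mul_le_mul_of_nonneg_left a3 a4
      linarith)
  have h2 : CH D.μ' (fun w => fl D.n (D.z (D.π D.i0 w))) (fun w => D.ζ (D.π D.i0 w))
      = CH D.μ (fun ω => fl D.n (D.z ω)) D.ζ := by
    have := push_CH (D.π D.i0) D.μ' (fun ω => fl D.n (D.z ω)) D.ζ
    rw [D.hπ] at this
    exact this.symm
  have h3 : ∀ b, CH D.μ' (fun w => fl D.n (D.z (D.π D.i0 w)) - D.Lb b w) (fun w => D.ζ (D.π D.i0 w))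
      = CH D.μ (fun ω => fl D.n (D.z ω) + fl D.n (D.F (D.ζ ω) (D.v ω))) D.ζ := by
    intro b
    have := push_CH (D.π b) D.μ' (fun ω => fl D.n (D.z ω) + fl D.n (D.F (D.ζ ω) (D.v ω))) D.ζ
    rw [D.hπ] at this
    rw [this]
    have e1 : CH D.μ' (fun w => fl D.n (D.z (D.π D.i0 w)) - D.Lb b w) (fun w => D.ζ (D.π D.i0 w))
      = CH D.μ' (fun w => fl D.n (D.z (D.π b w)) + fl D.n (D.F (D.ζ (D.π b w)) (D.v (D.π b w))))
        (fun w => D.ζ (D.π D.i0 w)) := by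
      apply ch_congr_left
      intro w w' h h' _
      unfold Lb
      rw [D.hzn h D.i0 b, D.hzn h' D.i0 b, D.hζ h D.i0 b, D.hζ h' D.i0 b, sub_neg_eq_add,
        sub_neg_eq_add]
    rw [e1]
    apply ch_congr_right
    intro w w' h h'
    rw [D.hζ h D.i0 b, D.hζ h' D.i0 b]
  rw [h2, Finset.sum_congr rfl (fun b _ => by rw [h3 b]), Finset.sum_const, Finset.card_univ,
    Fintype.card_fin, nsmul_eq_mul, hN] at h1
  have h4 := D.ab'
  have h5 := D.t3
  have h6 := ch_cond D.μ D.nn (fun ω => fl D.n (D.z ω)) (fun _ => ()) D.ζ (fun _ _ _ _ _ => rfl)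
  have a4 : 0 ≤ D.N := by unfold KI.N; positivity
  have h7 : D.N * (CH D.μ (fun ω => fl D.n (D.z ω) + fl D.n (D.F (D.ζ ω) (D.v ω))) D.ζ -
      CH D.μ (fun ω => fl D.n (D.z ω)) D.ζ) ≤ D.N * (2 * D.ε + 1) :=
    mul_le_mul_of_nonneg_left (by linarith) a4
  unfold Hh at h5 h4 ⊢
  linarith

/-- rounding error of a sum -/
theorem fl_sum {ι : Type} (S : Finset ι) (n : ℕ) (m : ℤ) (y : ι → ℝ) :
    m + ∑ b ∈ S, fl n (y b) ≤ fl n ((m : ℝ) / 2 ^ n + ∑ b ∈ S, y b) ∧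
      fl n ((m : ℝ) / 2 ^ n + ∑ b ∈ S, y b) ≤ m + ∑ b ∈ S, fl n (y b) + S.card := by
  have h0 : fl n ((m : ℝ) / 2 ^ n + ∑ b ∈ S, y b) = m + ⌊∑ b ∈ S, (2 : ℝ) ^ n * y b⌋ := by
    unfold fl
    rw [mul_add, mul_div_cancel₀ _ (by positivity), Finset.mul_sum, Int.floor_intCast_add]
  rw [h0]
  have h1 : ∑ b ∈ S, fl n (y b) ≤ ⌊∑ b ∈ S, (2 : ℝ) ^ n * y b⌋ := by
    rw [Int.le_floor]
    push_cast
    exact Finset.sum_le_sum fun b _ => Int.floor_le _
  have h2 : ⌊∑ b ∈ S, (2 : ℝ) ^ n * y b⌋ ≤ ∑ b ∈ S, fl n (y b) + S.card := by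
    have h3 : ∑ b ∈ S, (2 : ℝ) ^ n * y b ≤ ∑ b ∈ S, ((fl n (y b) : ℝ) + 1) :=
      Finset.sum_le_sum fun b _ => (Int.lt_floor_add_one _).le
    rw [Finset.sum_add_distrib, Finset.sum_const, nsmul_eq_mul, mul_one] at h3
    have h4 := (Int.floor_le (∑ b ∈ S, (2 : ℝ) ^ n * y b)).trans h3
    exact_mod_cast h4
  constructor <;> linarith

theorem zN_le (r : ℕ) : CH D.μ' (fun w => fl D.n ((D.ke r).zN w)) (fun w => D.ζ (D.π D.i0 w)) ≤
    CH D.μ' (fun w => fl D.n (D.z (D.π D.i0 w)) - ∑ b, D.Lb b w) (fun w => D.ζ (D.π D.i0 w)) +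
      Real.logb 2 (D.N + 1) := by
  have hN : ((4 ^ D.k : ℕ) : ℝ) = D.N := by
    unfold KI.N
    push_cast
    rfl
  have a4 : 0 ≤ D.N := by unfold KI.N; positivity
  have h1 := ch_tri D.μ' D.nn' (fun w => fl D.n ((D.ke r).zN w))
    (fun w => fl D.n (D.z (D.π D.i0 w)) - ∑ b, D.Lb b w) (fun w => D.ζ (D.π D.i0 w))
  have h2 := ch_int D.μ' D.nn' (fun w => fl D.n ((D.ke r).zN w))
    (fun w => (fl D.n (D.z (D.π D.i0 w)) - ∑ b, D.Lb b w, D.ζ (D.π D.i0 w))) D.N a4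
    (fun w w' _ _ h => by
      have h3 : fl D.n (D.z (D.π D.i0 w)) - ∑ b, D.Lb b w
        = fl D.n (D.z (D.π D.i0 w')) - ∑ b, D.Lb b w' := congrArg Prod.fst h
      have key : ∀ w, fl D.n (D.z (D.π D.i0 w)) - ∑ b, D.Lb b w ≤ fl D.n ((D.ke r).zN w) ∧
          fl D.n ((D.ke r).zN w) ≤ fl D.n (D.z (D.π D.i0 w)) - ∑ b, D.Lb b w + (4 ^ D.k : ℕ) := by
        intro w
        have := fl_sum univ D.n (fl D.n (D.z (D.π D.i0 w)))
          (fun b : Fin (4 ^ D.k) => D.F (D.ζ (D.π D.i0 w)) (D.v (D.π b w)))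
        rw [Finset.card_univ, Fintype.card_fin] at this
        unfold Lb
        rw [Finset.sum_neg_distrib, sub_neg_eq_add]
        exact this
      obtain ⟨a1, a2⟩ := key w
      obtain ⟨b1, b2⟩ := key w'
      rw [h3] at a1 a2
      have h4 : |fl D.n ((D.ke r).zN w) - fl D.n ((D.ke r).zN w')| ≤ ((4 ^ D.k : ℕ) : ℤ) := by
        rw [abs_le]
        constructor <;> linarith
      rw [← hN]
      exact_mod_cast h4)
  rw [D.ms', mul_one] at h2
  linarith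

/-- growth of the entropy of the sum -/
theorem Delta_le (r M : ℕ) (hr : r ≤ D.R) (hM : (D.ke r).e M ≤ D.n) (hM' : D.n ≤ (D.ke r).e M + D.R) :
    CH (D.ke r).μ (fun ω => fl ((D.ke r).e M) ((D.ke r).zN ω))
        (fun ω => (fl ((D.ke r).e 0) ((D.ke r).zN ω), (D.ke r).f ω)) -
        CH (D.ke r).μ (fun ω => fl ((D.ke r).e M) ((D.ke r).z ω)) ((D.ke r).gz 0) ≤
      Real.logb 2 (D.N + 1) + D.N * (2 * D.ε + 1) + 3 * D.N * (D.N * D.ε) + 2 * D.R := by
  have h0 := D.kv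
  have h1 := D.zN_le r
  have h2 : CH (D.ke r).μ (fun ω => fl ((D.ke r).e M) ((D.ke r).zN ω))
        (fun ω => (fl ((D.ke r).e 0) ((D.ke r).zN ω), (D.ke r).f ω)) ≤
      CH D.μ' (fun w => fl D.n ((D.ke r).zN w)) (fun w => D.ζ (D.π D.i0 w)) := by
    have a1 := ch_cond (D.ke r).μ (D.ke r).nn (fun ω => fl ((D.ke r).e M) ((D.ke r).zN ω))
      (D.ke r).f (fun ω => (fl ((D.ke r).e 0) ((D.ke r).zN ω), (D.ke r).f ω))
      (fun _ _ _ _ h => congrArg Prod.snd h)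
    have a2 := ch_mono (D.ke r).μ (D.ke r).nn (fun ω => fl ((D.ke r).e M) ((D.ke r).zN ω))
      (fun ω => fl D.n ((D.ke r).zN ω)) (D.ke r).f (fun _ _ _ _ h _ => fl_ref hM h)
    exact a1.trans a2
  -- the entropy of `z`
  have h3 : CH (D.ke r).μ (fun ω => fl ((D.ke r).e M) ((D.ke r).z ω)) ((D.ke r).gz 0)
      = CH (D.ke r).μ (fun ω => fl ((D.ke r).e M) ((D.ke r).z ω)) (fun _ => ())
        - CH (D.ke r).μ ((D.ke r).gz 0) (fun _ => ()) := by
    rw [← ch_diff (D.ke r).μ (fun ω => fl ((D.ke r).e M) ((D.ke r).z ω)) ((D.ke r).gz 0) (fun _ => ())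
      (fun _ _ _ _ _ h => fl_ref ((D.ke r).e_mono (Nat.zero_le M)) h)]
    apply ch_congr_right
    intro w w' _ _
    rw [Prod.mk.injEq]
    exact (and_iff_left rfl).symm
  have h4 : CH (D.ke r).μ ((D.ke r).gz 0) (fun _ => ()) ≤ D.R := by
    have hrn : r ≤ D.n := by
      have := (D.ke r).e_mono (Nat.zero_le M)
      have e0 : (D.ke r).e 0 = r := by
        unfold KE.e
        simp
      rw [e0] at this
      exact this.trans hM
    have hz0 : ∀ w, fl 0 ((D.ke r).z w) = 0 := by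
      intro w
      change fl 0 (zr D.n (D.z (D.π D.i0 w))) = 0
      rw [fl_zr (Nat.zero_le _)]
      unfold fl
      rw [pow_zero, one_mul, Int.floor_eq_zero_iff]
      exact D.hz _
    have a1 := ch_digits (D.ke r).μ (D.ke r).nn (D.ke r).z (fun _ => ()) (Nat.zero_le r)
      (fun w w' _ _ _ => by rw [hz0, hz0])
    have a2 : CH (D.ke r).μ ((D.ke r).gz 0) (fun _ => ())
        = CH (D.ke r).μ (fun ω => fl r ((D.ke r).z ω)) (fun _ => ()) := by
      have e0 : (D.ke r).e 0 = r := by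
        unfold KE.e
        simp
      unfold KE.gz
      rw [e0]
    rw [a2]
    refine a1.trans ?_
    have hms : mass (D.ke r).μ = 1 := D.ms'
    rw [hms, mul_one, Nat.sub_zero]
    exact_mod_cast hr
  have h5 : Hh D.μ (fun ω => fl D.n (D.z ω)) ≤
      CH (D.ke r).μ (fun ω => fl ((D.ke r).e M) ((D.ke r).z ω)) (fun _ => ()) + D.R := by
    have a1 := ch_tri (D.ke r).μ (D.ke r).nn (fun ω => fl D.n ((D.ke r).z ω))
      (fun ω => fl ((D.ke r).e M) ((D.ke r).z ω)) (fun _ => ())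
    have a2 := ch_digits (D.ke r).μ (D.ke r).nn (D.ke r).z
      (fun ω => (fl ((D.ke r).e M) ((D.ke r).z ω), ())) hM (fun w w' _ _ h => congrArg Prod.fst h)
    have hms : mass (D.ke r).μ = 1 := D.ms'
    rw [hms, mul_one] at a2
    have a3 : ((D.n - (D.ke r).e M : ℕ) : ℝ) ≤ D.R := by
      have : D.n - (D.ke r).e M ≤ D.R := by omega
      exact_mod_cast this
    have a4 : Hh D.μ (fun ω => fl D.n (D.z ω))
        = CH (D.ke r).μ (fun ω => fl D.n ((D.ke r).z ω)) (fun _ => ()) := by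
      have := push_CH (D.π D.i0) D.μ' (fun ω => fl D.n (D.z ω)) (fun _ => ())
      rw [D.hπ] at this
      unfold Hh
      rw [this]
      apply ch_congr_left
      intro w w' _ _ _
      rw [D.zn_z, D.zn_z]
    linarith
  linarith

end KC

end Pool.Agent.Helper61.GL
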