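import Pool.Agent.Helper61.GL.KC2

/-!
# Lemma K: core estimate, end
-/

set_option autoImplicit false

namespace Pool.Agent.Helper61.GL

open Finset Pool.Agent.Helper69.RK Pool.Agent.Helper46.WF

/-- `z` is deficient in the window `(t - R, t]` -/
def KI.Bd {Ω γ α β : Type} [Fintype Ω] (D : KI Ω γ α β) (hb : ℝ) (t : ℕ) (ω : Ω) : Prop :=
  LH D.μ (fun ω => fl t (D.z ω)) (fun ω => fl (t - D.R) (D.z ω)) ω ≤ hb

/-- the own cell of `v` is not atomic -/
def KI.Na {Ω γ α β : Type} [Fintype Ω] (D : KI Ω γ α β) (a : ℝ) (t : ℕ) (ω : Ω) : Prop :=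
  ∀ x : ℝ, a ≤ Pw (cw D.μ (fun ω' => D.cl (t - D.T) (D.v ω')) ω)
    (fun ω' => (1 / 2) ^ t < |D.F (D.ζ ω) (D.v ω') - x|)

namespace KC

variable {Ω Ω' γ α β : Type} [Fintype Ω] [Fintype Ω'] (D : KC Ω Ω' γ α β)

/-- last level of the tile `m` -/
def tm (r m : ℕ) : ℕ := r + m * (D.R + 1) + D.R

theorem e_eq (r m : ℕ) : (D.ke r).e m = r + m * (D.R + 1) := by
  unfold KE.e
  rw [D.R_eq]

theorem e_succ_eq (r m : ℕ) : (D.ke r).e (m + 1) = D.tm r m + 1 := by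
  rw [D.e_eq]
  unfold tm
  ring

theorem s_eq (r m : ℕ) : (D.ke r).s m = D.tm r m := by
  have h1 := (D.ke r).s_b m
  have h2 : (D.ke r).b = 1 := rfl
  rw [D.e_succ_eq, h2] at h1
  omega

theorem tm_sub (r m : ℕ) : D.tm r m - D.R = (D.ke r).e m := by
  rw [D.e_eq]
  unfold tm
  omega

open Classical in
/-- the chosen summands -/
noncomputable def TT (r : ℕ) (a : ℝ) (m : ℕ) (g : ℤ × γ × (Fin (4 ^ D.k) → β)) :
    Finset (Fin (4 ^ D.k)) :=
  univ.filter (fun i => ∃ w, D.μ' w ≠ 0 ∧ D.ζ (D.π D.i0 w) = g.2.1 ∧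
    D.cl (D.tm r m - D.T) (D.v (D.π i w)) = g.2.2 i ∧ D.Na a (D.tm r m) (D.π i w))

/-- the event -/
def EE (r : ℕ) (a hb δ : ℝ) (m : ℕ) (g : ℤ × γ × (Fin (4 ^ D.k) → β)) : Prop :=
  δ ≤ Pw D.μ (fun ω => D.Bd hb (D.tm r m) ω ∧ D.Na a (D.tm r m) ω) ∧
  (∃ w, D.μ' w ≠ 0 ∧ fl ((D.ke r).e m) (D.z (D.π D.i0 w)) = g.1 ∧ D.Bd hb (D.tm r m) (D.π D.i0 w)) ∧
    δ / 2 * D.N ≤ (D.TT r a m g).card

theorem na_ke (r : ℕ) (a : ℝ) (m : ℕ) (i : Fin (4 ^ D.k)) {w w1 : Ω'}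
    (h1 : D.μ' w1 ≠ 0) (hf : D.ζ (D.π D.i0 w1) = D.ζ (D.π D.i0 w))
    (hc : D.cl (D.tm r m - D.T) (D.v (D.π i w1)) = D.cl (D.tm r m - D.T) (D.v (D.π i w)))
    (hn : D.Na a (D.tm r m) (D.π i w1)) (c : ℝ) :
    a ≤ ∑ w' ∈ univ.filter (fun w' => 2 ≤ |(2 : ℝ) ^ (D.ke r).e (m + 1) *
        (D.ke r).X i ((D.ke r).f w) ((D.ke r).A i w') - c|),
      cw (D.ke r).μ (fun w'' => (D.ke r).cl ((D.ke r).s m) ((D.ke r).A i w'')) w w' := by
  classical
  set t := D.tm r m with ht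
  have h2 := hn (c / 2 ^ (t + 1))
  have h2' : Pw (cw D.μ (fun ω' => D.cl (t - D.T) (D.v ω')) (D.π i w1))
    (fun ω' => (1 / 2) ^ t < |D.F (D.ζ (D.π i w1)) (D.v ω') - c / 2 ^ (t + 1)|)
    = ∑ ω', cw D.μ (fun ω' => D.cl (t - D.T) (D.v ω')) (D.π i w1) ω' *
      (if (1 / 2 : ℝ) ^ t < |D.F (D.ζ (D.π i w1)) (D.v ω') - c / 2 ^ (t + 1)| then 1 else 0) := by
    unfold Pw
    refine Finset.sum_congr rfl fun ω' _ => ?_
    rw [mul_ite, mul_one, mul_zero]
  have h3 := push_cw (D.π i) D.μ' (fun ω' => D.cl (t - D.T) (D.v ω')) w1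
    (fun ω' => if (1 / 2 : ℝ) ^ t < |D.F (D.ζ (D.π i w1)) (D.v ω') - c / 2 ^ (t + 1)| then (1 : ℝ) else 0)
  rw [D.hπ] at h3
  rw [h2', h3] at h2
  refine h2.trans ?_
  rw [Finset.sum_filter]
  refine Finset.sum_le_sum fun w' _ => ?_
  have hs : (D.ke r).s m = t := D.s_eq r m
  have h5 : cw D.μ' (fun w'' => D.cl (t - D.T) (D.v (D.π i w''))) w1 w' =
      cw (D.ke r).μ (fun w'' => (D.ke r).cl ((D.ke r).s m) ((D.ke r).A i w'')) w w' := by
    rw [hs]
    exact cw_congr D.μ' (fun w'' => D.cl (t - D.T) (D.v (D.π i w''))) hc w'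
  rw [h5]
  have hcw : 0 ≤ cw (D.ke r).μ (fun w'' => (D.ke r).cl ((D.ke r).s m) ((D.ke r).A i w'')) w w' :=
    cw_nonneg _ _ D.nn' _ _
  by_cases h6 : (1 / 2 : ℝ) ^ t < |D.F (D.ζ (D.π i w1)) (D.v (D.π i w')) - c / 2 ^ (t + 1)|
  · rw [if_pos h6, mul_one, if_pos]
    have e1 : (D.ke r).X i ((D.ke r).f w) ((D.ke r).A i w') = D.F (D.ζ (D.π i w1)) (D.v (D.π i w')) := by
      rw [D.hζ h1 i D.i0, hf]
    have e2 : (2 : ℝ) ^ (t + 1) * D.F (D.ζ (D.π i w1)) (D.v (D.π i w')) - c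
        = 2 ^ (t + 1) * (D.F (D.ζ (D.π i w1)) (D.v (D.π i w')) - c / 2 ^ (t + 1)) := by
      field_simp
    rw [e1, D.e_succ_eq, ← ht, e2, abs_mul, abs_of_pos (by positivity)]
    have e3 : (2 : ℝ) = 2 ^ (t + 1) * (1 / 2) ^ t := by
      rw [pow_succ, one_div, inv_pow]
      field_simp
    calc (2 : ℝ) = 2 ^ (t + 1) * (1 / 2) ^ t := e3
      _ ≤ _ := mul_le_mul_of_nonneg_left h6.le (by positivity)
  · rw [if_neg h6, mul_zero]
    split_ifs
    · exact hcw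
    · exact le_rfl

theorem NA_EE (r : ℕ) (a hb δ : ℝ) (m : ℕ) : (D.ke r).NA a (D.EE r a hb δ m) (D.TT r a m) m := by
  classical
  intro w _ _ i hi c
  unfold TT at hi
  obtain ⟨w1, h1, h2, h3, h4⟩ := (Finset.mem_filter.1 hi).2
  have h3' : D.cl (D.tm r m - D.T) (D.v (D.π i w1)) = D.cl (D.tm r m - D.T) (D.v (D.π i w)) := by
    rw [h3]
    change D.cl ((D.ke r).s m - D.T) (D.v (D.π i w)) = _
    rw [D.s_eq]
  exact D.na_ke r a m i h1 h2 h3' h4 c

/-- `Bd` is a function of the first `n` digits of `z` -/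
theorem Bd_congr {hb : ℝ} {t : ℕ} (ht : t ≤ D.n) {ω ω' : Ω} (h : fl D.n (D.z ω) = fl D.n (D.z ω')) :
    D.Bd hb t ω ↔ D.Bd hb t ω' := by
  unfold KI.Bd
  rw [LH_congr D.μ (fun ω => fl t (D.z ω)) (fun ω => fl (t - D.R) (D.z ω))
    (fl_ref ((Nat.sub_le _ _).trans ht) h)]

/-- mass of the event -/
theorem mass_EE (r : ℕ) (a hb δ : ℝ) (hδ : 0 < δ) (m : ℕ) (ht : D.tm r m ≤ D.n)
    (h : δ ≤ Pw D.μ (fun ω => D.Bd hb (D.tm r m) ω ∧ D.Na a (D.tm r m) ω)) :
    δ / 2 ≤ mass (res (D.ke r).μ (fun w => D.EE r a hb δ m ((D.ke r).g0 m w))) := by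
  classical
  have hN : ((4 ^ D.k : ℕ) : ℝ) = D.N := by
    unfold KI.N
    push_cast
    rfl
  have hN0 : 0 < D.N := by unfold KI.N; positivity
  -- the average
  set Y : Ω' → ℝ := fun w => (if D.Bd hb (D.tm r m) (D.π D.i0 w) then 1 else 0) *
    ((univ.filter (fun i => D.Na a (D.tm r m) (D.π i w))).card / D.N) with hY
  have hY1 : ∀ w, Y w ≤ 1 := by
    intro w
    have h1 : ((univ.filter (fun i => D.Na a (D.tm r m) (D.π i w))).card : ℝ) / D.N ≤ 1 := by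
      rw [div_le_one hN0, ← hN]
      have := Finset.card_le_card (Finset.filter_subset (fun i => D.Na a (D.tm r m) (D.π i w)) univ)
      rw [Finset.card_univ, Fintype.card_fin] at this
      exact_mod_cast this
    simp only [hY]
    split_ifs
    · rw [one_mul]
      exact h1
    · rw [zero_mul]
      exact zero_le_one
  have hEY : δ ≤ ∑ w, D.μ' w * Y w := by
    have e1 : ∀ w, D.μ' w * Y w = (1 / D.N) * ∑ i : Fin (4 ^ D.k), D.μ' w *
        (if D.Bd hb (D.tm r m) (D.π i w) ∧ D.Na a (D.tm r m) (D.π i w) then 1 else 0) := by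
      intro w
      by_cases h0 : D.μ' w = 0
      · rw [h0]
        simp
      have e2 : ∀ i, (if D.Bd hb (D.tm r m) (D.π i w) ∧ D.Na a (D.tm r m) (D.π i w) then (1 : ℝ) else 0)
          = (if D.Bd hb (D.tm r m) (D.π D.i0 w) then 1 else 0) *
            (if D.Na a (D.tm r m) (D.π i w) then 1 else 0) := by
        intro i
        have hb1 := D.Bd_congr (hb := hb) ht (D.hzn h0 i D.i0)
        by_cases b1 : D.Bd hb (D.tm r m) (D.π D.i0 w) <;>
          by_cases b2 : D.Na a (D.tm r m) (D.π i w) <;> simp [hb1, b1, b2]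
      simp only [e2, hY]
      rw [← Finset.mul_sum, ← Finset.mul_sum, Finset.sum_boole]
      ring
    rw [Finset.sum_congr rfl (fun w _ => e1 w), ← Finset.mul_sum, Finset.sum_comm]
    have e3 : ∀ i : Fin (4 ^ D.k), ∑ w, D.μ' w *
        (if D.Bd hb (D.tm r m) (D.π i w) ∧ D.Na a (D.tm r m) (D.π i w) then (1 : ℝ) else 0)
        = Pw D.μ (fun ω => D.Bd hb (D.tm r m) ω ∧ D.Na a (D.tm r m) ω) := by
      intro i
      have := push_sum (D.π i) D.μ'
        (fun ω => if D.Bd hb (D.tm r m) ω ∧ D.Na a (D.tm r m) ω then (1 : ℝ) else 0)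
      rw [D.hπ] at this
      rw [← this]
      unfold Pw
      refine Finset.sum_congr rfl fun ω _ => ?_
      by_cases hω : D.Bd hb (D.tm r m) ω ∧ D.Na a (D.tm r m) ω
      · rw [if_pos hω, mul_one]
        exact (if_pos hω).symm
      · rw [if_neg hω, mul_zero]
        exact (if_neg hω).symm
    rw [Finset.sum_congr rfl (fun i _ => e3 i), Finset.sum_const, Finset.card_univ,
      Fintype.card_fin, nsmul_eq_mul, hN, ← mul_assoc, one_div, inv_mul_cancel₀ hN0.ne', one_mul]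
    exact h
  -- Markov
  have hms : ∑ w, D.μ' w = 1 := D.ms'
  have hkey : ∑ w, D.μ' w * Y w ≤ (∑ w, (if δ / 2 ≤ Y w then D.μ' w else 0)) + δ / 2 := by
    have h1 : ∑ w, D.μ' w * Y w ≤ ∑ w, ((if δ / 2 ≤ Y w then D.μ' w else 0) + D.μ' w * (δ / 2)) := by
      refine Finset.sum_le_sum fun w _ => ?_
      have h0 := D.nn' w
      by_cases h2 : δ / 2 ≤ Y w
      · rw [if_pos h2]
        have h3 := mul_le_mul_of_nonneg_left (hY1 w) h0
        have : 0 ≤ D.μ' w * (δ / 2) := mul_nonneg h0 (by linarith)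
        linarith
      · rw [if_neg h2, zero_add]
        push Not at h2
        exact mul_le_mul_of_nonneg_left h2.le h0
    refine h1.trans (le_of_eq ?_)
    rw [Finset.sum_add_distrib, ← Finset.sum_mul, hms, one_mul]
  have h1 : δ / 2 ≤ ∑ w, (if δ / 2 ≤ Y w then D.μ' w else 0) := by linarith
  refine h1.trans ?_
  unfold mass
  refine Finset.sum_le_sum fun w _ => ?_
  have hres : 0 ≤ res (D.ke r).μ (fun w => D.EE r a hb δ m ((D.ke r).g0 m w)) w :=
    e4_res_nonneg _ _ D.nn' w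
  by_cases h2 : δ / 2 ≤ Y w
  · rw [if_pos h2]
    by_cases h0 : D.μ' w = 0
    · rw [h0]
      exact hres
    have hb1 : D.Bd hb (D.tm r m) (D.π D.i0 w) := by
      by_contra hc
      simp only [hY, if_neg hc, zero_mul] at h2
      linarith
    have he : (D.ke r).e m ≤ D.n := by
      rw [← D.tm_sub]
      exact (Nat.sub_le _ _).trans ht
    have hP : D.EE r a hb δ m ((D.ke r).g0 m w) := by
      refine ⟨h, ⟨w, h0, (fl_zr he _).symm, hb1⟩, ?_⟩
      simp only [hY, if_pos hb1, one_mul] at h2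
      rw [le_div_iff₀ hN0] at h2
      refine h2.trans ?_
      have : univ.filter (fun i => D.Na a (D.tm r m) (D.π i w)) ⊆ D.TT r a m ((D.ke r).g0 m w) := by
        intro i hi
        unfold TT
        rw [Finset.mem_filter]
        refine ⟨Finset.mem_univ _, w, h0, rfl, ?_, (Finset.mem_filter.1 hi).2⟩
        change _ = D.cl ((D.ke r).s m - D.T) (D.v (D.π i w))
        rw [D.s_eq]
      exact_mod_cast Finset.card_le_card this
    exact le_of_eq (e4_res_pos (D.ke r).μ (fun w => D.EE r a hb δ m ((D.ke r).g0 m w)) w hP).symm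
  · rw [if_neg h2]
    exact hres

/-- local entropies -/
theorem lz_le (r m : ℕ) (hb : ℝ) (ht : D.tm r m + 1 ≤ D.n) {w w1 : Ω'} (h1 : D.μ' w1 ≠ 0)
    (hz : fl ((D.ke r).e m) (D.z (D.π D.i0 w1)) = fl ((D.ke r).e m) ((D.ke r).z w))
    (hB : D.Bd hb (D.tm r m) (D.π D.i0 w1)) :
    LH (D.ke r).μ (fun w => fl ((D.ke r).e (m + 1)) ((D.ke r).z w)) ((D.ke r).gz m) w ≤ hb + 1 := by
  have he : (D.ke r).e m ≤ D.n := by
    rw [← D.tm_sub]
    omega
  have he' : (D.ke r).e (m + 1) ≤ D.n := by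
    rw [D.e_succ_eq]
    exact ht
  have hgz : (D.ke r).gz m w = (D.ke r).gz m w1 := by
    unfold KE.gz
    rw [← hz]
    exact (fl_zr he _).symm
  rw [LH_congr (D.ke r).μ (fun w => fl ((D.ke r).e (m + 1)) ((D.ke r).z w)) ((D.ke r).gz m) hgz]
  have e1 : (fun w => fl ((D.ke r).e (m + 1)) ((D.ke r).z w))
      = (fun w => fl ((D.ke r).e (m + 1)) (D.z (D.π D.i0 w))) := funext fun w => fl_zr he' _
  have e2 : (D.ke r).gz m = fun w => fl ((D.ke r).e m) (D.z (D.π D.i0 w)) :=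
    funext fun w => fl_zr he _
  have e3 := push_LH (D.π D.i0) D.μ' (fun ω => fl ((D.ke r).e (m + 1)) (D.z ω))
    (fun ω => fl ((D.ke r).e m) (D.z ω)) w1
  rw [D.hπ] at e3
  rw [e1, e2]
  refine le_trans (le_of_eq e3.symm) ?_
  rw [D.e_succ_eq]
  refine (LH_succ D.μ D.nn D.z _ _ (D.supp w1 h1 D.i0)).trans ?_
  unfold KI.Bd at hB
  rw [D.tm_sub] at hB
  linarith

/-- the error terms -/
noncomputable def Err : ℝ :=
  4 * (D.N * D.ε) + (((D.R : ℝ) + 2) ^ 2 + 1) * ((D.N + 1) * D.ε) +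
    (Real.logb 2 (D.N + 1) + D.N * (2 * D.ε + 1) + 3 * D.N * (D.N * D.ε) + 2 * D.R)

open Classical in
/-- **core estimate** for one residue class of levels -/
theorem core (r M : ℕ) (hr : r ≤ D.R) (hM : r + M * (D.R + 1) ≤ D.n)
    (hM' : D.n ≤ r + M * (D.R + 1) + D.R) {a hb δ : ℝ} (ha : 0 < a) (ha1 : a ≤ 1) (hδ : 0 < δ)
    (hg : 0 ≤ D.k + 1 / 2 * Real.logb 2 (a * δ / 2) - (hb + 1)) :
    (((range M).filter (fun m =>
        δ ≤ Pw D.μ (fun ω => D.Bd hb (D.tm r m) ω ∧ D.Na a (D.tm r m) ω))).card : ℝ) *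
      (δ / 2) * (D.k + 1 / 2 * Real.logb 2 (a * δ / 2) - (hb + 1)) ≤ 14 * M + D.Err := by
  have htm : ∀ m < M, D.tm r m + 1 ≤ D.n := by
    intro m hm
    refine le_trans ?_ hM
    unfold tm
    have : (m + 1) * (D.R + 1) ≤ M * (D.R + 1) := Nat.mul_le_mul_right _ hm
    linarith
  have h1 := (D.ke r).growth M ha ha1 (fun m => D.EE r a hb δ m) (fun m => D.TT r a m)
    (fun m _ => D.NA_EE r a hb δ m)
  have heM : (D.ke r).e M ≤ D.n := by
    rw [D.e_eq]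
    exact hM
  have heM' : D.n ≤ (D.ke r).e M + D.R := by
    rw [D.e_eq]
    exact hM'
  have h2 := D.Th_le r ((D.ke r).s (M + 1))
  have h3 := D.Ia_le r M heM
  have h4 := D.Delta_le r M hr heM heM'
  have hRR : ((D.ke r).R : ℝ) = D.R + 1 := by
    rw [D.R_eq]
    push_cast
    rfl
  have h5 := mul_le_mul_of_nonneg_left h3 (by positivity : (0 : ℝ) ≤ (((D.ke r).R : ℝ) + 1) ^ 2 + 1)
  rw [hRR] at h5 h1
  have e5 : ((D.R : ℝ) + 1 + 1) = (D.R : ℝ) + 2 := by ring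
  rw [e5] at h5 h1
  refine le_trans ?_ (h1.trans (by unfold Err; linarith))
  -- lower bound for the sum
  have hn0 : Real.logb 2 ((4 : ℝ) ^ D.k) = 2 * D.k := by
    rw [Real.logb_pow, show (4 : ℝ) = 2 ^ (2 : ℝ) by norm_num, Real.logb_rpow (by norm_num) (by norm_num)]
    ring
  have hterm : ∀ m ∈ range M,
      (if δ ≤ Pw D.μ (fun ω => D.Bd hb (D.tm r m) ω ∧ D.Na a (D.tm r m) ω) then (1 : ℝ) else 0) *
        ((δ / 2) * (D.k + 1 / 2 * Real.logb 2 (a * δ / 2) - (hb + 1))) ≤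
      ∑ w, res (D.ke r).μ (fun w => D.EE r a hb δ m ((D.ke r).g0 m w)) w *
        (1 / 2 * Real.logb 2 (a * ((D.TT r a m ((D.ke r).g0 m w)).card + 1)) -
          LH (D.ke r).μ (fun w => fl ((D.ke r).e (m + 1)) ((D.ke r).z w)) ((D.ke r).gz m) w) := by
    intro m hm
    have hm' := htm m (Finset.mem_range.1 hm)
    have hlow : ∀ w, res (D.ke r).μ (fun w => D.EE r a hb δ m ((D.ke r).g0 m w)) w *
        (D.k + 1 / 2 * Real.logb 2 (a * δ / 2) - (hb + 1)) ≤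
        res (D.ke r).μ (fun w => D.EE r a hb δ m ((D.ke r).g0 m w)) w *
        (1 / 2 * Real.logb 2 (a * ((D.TT r a m ((D.ke r).g0 m w)).card + 1)) -
          LH (D.ke r).μ (fun w => fl ((D.ke r).e (m + 1)) ((D.ke r).z w)) ((D.ke r).gz m) w) := by
      intro w
      by_cases h0 : res (D.ke r).μ (fun w => D.EE r a hb δ m ((D.ke r).g0 m w)) w = 0
      · rw [h0, zero_mul, zero_mul]
      obtain ⟨h4, h5⟩ := res_ne _ _ h0
      refine mul_le_mul_of_nonneg_left ?_ (e4_res_nonneg _ _ (D.ke r).nn w)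
      obtain ⟨_, ⟨w1, hw1, hw2, hw3⟩, h6⟩ := h5
      have h7 := D.lz_le r m hb hm' hw1 hw2 hw3
      have h8 : Real.logb 2 (a * δ / 2) + 2 * D.k ≤
          Real.logb 2 (a * ((D.TT r a m ((D.ke r).g0 m w)).card + 1)) := by
        rw [← hn0, ← Real.logb_mul (by positivity) (by positivity)]
        apply Real.logb_le_logb_of_le (by norm_num) (by positivity)
        have : a * (δ / 2 * D.N) ≤ a * ((D.TT r a m ((D.ke r).g0 m w)).card + 1) :=
          mul_le_mul_of_nonneg_left (by linarith) ha.le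
        calc a * δ / 2 * 4 ^ D.k = a * (δ / 2 * D.N) := by unfold KI.N; ring
          _ ≤ _ := this
      linarith
    refine le_trans ?_ (Finset.sum_le_sum fun w _ => hlow w)
    rw [← Finset.sum_mul]
    by_cases h4 : δ ≤ Pw D.μ (fun ω => D.Bd hb (D.tm r m) ω ∧ D.Na a (D.tm r m) ω)
    · rw [if_pos h4, one_mul]
      exact mul_le_mul_of_nonneg_right (D.mass_EE r a hb δ hδ m (by omega) h4) hg
    · rw [if_neg h4, zero_mul]
      exact mul_nonneg (Finset.sum_nonneg fun w _ => e4_res_nonneg _ _ (D.ke r).nn w) hg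
  refine le_trans (le_of_eq ?_) (Finset.sum_le_sum hterm)
  rw [← Finset.sum_mul, ← Finset.sum_filter, Finset.sum_const, nsmul_eq_mul, mul_one]
  ring

end KC

end Pool.Agent.Helper61.GL
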