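import Pool.Agent.Helper61.GL.Win

/-!
# The window bound, general form: the summands depend on the full condition, their laws only on
their own conditions
-/

set_option autoImplicit false

namespace Pool.Agent.Helper61.GL

open Finset Pool.Agent.Helper69.RK

variable {Ω γ β ι α : Type} [Fintype Ω] [Fintype ι] [DecidableEq ι]

/-- **fine part of the window bound** -/
theorem window_fine2 (μ : Ω → ℝ) (D : ι → Ω → α) (G : Ω → γ) (H : ι → γ → β) (hμ : ∀ ω, 0 ≤ μ ω)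
    (E : γ → Prop)
    (z : γ → ℝ) (x : ι → γ → α → ℝ) {p : ℝ} (hp : 0 < p) (hp1 : p ≤ 1) (T : γ → Finset ι)
    (hx : ∀ ω, μ ω ≠ 0 → E (G ω) → ∀ i ∈ T (G ω), ∀ c : ℝ,
      p ≤ ∑ ω' ∈ univ.filter (fun ω' => 1 ≤ |x i (G ω) (D i ω') - c|),
        cw μ (hg H G i) ω ω') :
    (∑ ω, res μ (fun ω => E (G ω)) ω * (1 / 2 * Real.logb 2 (p * ((T (G ω)).card + 1))))
        - TC μ D G H ≤
      CH (res μ (fun ω => E (G ω))) (fun ω => ⌊z (G ω) + ∑ i, x i (G ω) (D i ω)⌋) G := by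
  classical
  have h := entropy_lower μ D G H hμ E (fun g d => ⌊z g + ∑ i, x i g (d i)⌋)
    (fun g => 1 / Real.sqrt (p * ((T g).card + 1))) (fun ω _ _ => by positivity) ?_
  · refine le_trans (le_of_eq ?_) h
    congr 1
    refine Finset.sum_congr rfl fun ω _ => ?_
    congr 1
    have hpos : 0 < p * (((T (G ω)).card : ℝ) + 1) := by positivity
    rw [one_div_one_div, Real.sqrt_eq_rpow, Real.logb_rpow_eq_mul_logb_of_pos hpos]
  · intro ω h0 hE c
    have h1 := kolmogorov_rogozin (fun i : ι => cw μ (hg H G i) ω)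
      (fun i ω' => x i (G ω) (D i ω'))
      (fun i ω' => cw_nonneg μ (hg H G i) hμ ω ω') (fun i => cw_sum μ (hg H G i) hμ ω h0) hp hp1
      (T (G ω)) (hx ω h0 hE) ((c : ℝ) - z (G ω))
    refine le_trans (le_of_eq ?_) h1
    unfold EQ
    rw [Finset.sum_filter]
    refine Finset.sum_congr rfl fun a _ => ?_
    have h2 : (⌊z (G ω) + ∑ i, x i (G ω) (D i (a i))⌋ = c) ↔
        ((c : ℝ) - z (G ω) ≤ ∑ i, x i (G ω) (D i (a i)) ∧
          ∑ i, x i (G ω) (D i (a i)) < (c : ℝ) - z (G ω) + 1) := by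
      rw [Int.floor_eq_iff]
      constructor
      · rintro ⟨a1, a2⟩
        constructor <;> linarith
      · rintro ⟨a1, a2⟩
        constructor <;> linarith
    by_cases h3 : ⌊z (G ω) + ∑ i, x i (G ω) (D i (a i))⌋ = c
    · simp only [if_pos h3, if_pos (h2.1 h3), mul_one]
    · simp only [if_neg h3, if_neg (fun h4 => h3 (h2.2 h4)), mul_zero]

/-- **coarse part of the window bound** -/
theorem window_coarse2 (μ : Ω → ℝ) (D : ι → Ω → α) (G : Ω → γ) (H : ι → γ → β) (hμ : ∀ ω, 0 ≤ μ ω)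
    (E : γ → Prop) (z : γ → ℝ) (x : ι → γ → α → ℝ) (K L : ℝ) (hL : 0 < L) (hKL : Fintype.card ι * K ^ 2 ≤ L ^ 2)
    (hx : ∀ i ω0 ω ω', μ ω0 ≠ 0 → μ ω ≠ 0 → μ ω' ≠ 0 → H i (G ω) = H i (G ω0) →
      H i (G ω') = H i (G ω0) → |x i (G ω0) (D i ω) - x i (G ω0) (D i ω')| ≤ K) :
    CH (res μ (fun ω => E (G ω))) (fun ω => ⌊(z (G ω) + ∑ i, x i (G ω) (D i ω)) / L⌋) G ≤
      TC μ D G H + 6 * mass (res μ (fun ω => E (G ω))) := by
  classical
  -- the mean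
  set mn : Ω → ℝ := fun ω =>
    (z (G ω) + ∑ i, cm μ (hg H G i) ω (fun ω' => x i (G ω) (D i ω'))) / L with hmn
  have hmnc : ∀ ω ω', G ω = G ω' → mn ω = mn ω' := by
    intro ω ω' h
    simp only [hmn]
    rw [h]
    have h' : ∀ i, hg H G i ω = hg H G i ω' := fun i => by
      unfold hg
      rw [h]
    simp only [fun i => cm_congr μ (hg H G i) (h' i)]
  set c0 : γ → ℤ := fun g => if h : ∃ ω, G ω = g then ⌊mn h.choose⌋ else 0 with hc0
  have hc0e : ∀ ω, c0 (G ω) = ⌊mn ω⌋ := by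
    intro ω
    have hex : ∃ ω', G ω' = G ω := ⟨ω, rfl⟩
    simp only [hc0, dif_pos hex]
    rw [hmnc _ ω hex.choose_spec]
  have h := entropy_upper μ D G H hμ E (fun g d => ⌊(z g + ∑ i, x i g (d i)) / L⌋)
    (fun g c => 1 / (3 * (1 + |((c - c0 g : ℤ) : ℝ)|) ^ 2)) (fun g c => by positivity)
    (fun g S => heavy (c0 g) S) 60 (by norm_num) ?_
  · refine h.trans ?_
    have h1 : 0 ≤ mass (res μ (fun ω => E (G ω))) :=
      Finset.sum_nonneg fun ω _ => e4_res_nonneg μ _ hμ ω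
    have h2 := mul_le_mul_of_nonneg_left logb_sixty h1
    linarith
  · intro ω h0 _
    set y : ι → Ω → ℝ := fun i ω' => x i (G ω) (D i ω')
      - cm μ (hg H G i) ω (fun ω' => x i (G ω) (D i ω')) with hy
    have hcw : ∀ i, ∑ ω', cw μ (hg H G i) ω ω' = 1 := fun i => cw_sum μ (hg H G i) hμ ω h0
    have hy0 : ∀ i, cm μ (hg H G i) ω (y i) = 0 := by
      intro i
      unfold cm
      simp only [hy, mul_sub]
      rw [Finset.sum_sub_distrib, ← Finset.sum_mul, hcw, one_mul]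
      exact sub_self _
    have hyK : ∀ i ω', hg H G i ω' = hg H G i ω → μ ω' ≠ 0 → |y i ω'| ≤ K := by
      intro i ω' h1 h2
      have e1 : y i ω' = ∑ ω2, cw μ (hg H G i) ω ω2 *
          (x i (G ω) (D i ω') - x i (G ω) (D i ω2)) := by
        simp only [hy, mul_sub]
        rw [Finset.sum_sub_distrib, ← Finset.sum_mul, hcw, one_mul]
        rfl
      rw [e1]
      calc |∑ ω2, cw μ (hg H G i) ω ω2 * (x i (G ω) (D i ω') - x i (G ω) (D i ω2))|
          ≤ ∑ ω2, |cw μ (hg H G i) ω ω2 *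
              (x i (G ω) (D i ω') - x i (G ω) (D i ω2))| :=
            Finset.abs_sum_le_sum_abs _ _
        _ ≤ ∑ ω2, cw μ (hg H G i) ω ω2 * K := by
            refine Finset.sum_le_sum fun ω2 _ => ?_
            rw [abs_mul, abs_of_nonneg (cw_nonneg μ (hg H G i) hμ ω ω2)]
            by_cases h3 : cw μ (hg H G i) ω ω2 = 0
            · rw [h3, zero_mul, zero_mul]
            · obtain ⟨h4, h5⟩ := cw_ne_zero μ (hg H G i) h3
              have h7 : H i (G ω') = H i (G ω) := h1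
              have h8 : H i (G ω2) = H i (G ω) := h4
              have h6 := hx i ω ω' ω2 h0 h2 h5 h7 h8
              exact mul_le_mul_of_nonneg_left h6 (cw_nonneg μ (hg H G i) hμ ω ω2)
        _ = K := by rw [← Finset.sum_mul, hcw, one_mul]
    have hvar := EQ_var μ (hg H G) hμ ω h0 y K hy0 hyK
    have hpt : ∀ a : ι → Ω, 1 / (1 / (3 * (1 + |((⌊(z (G ω) +
        ∑ i, x i (G ω) (D i (a i))) / L⌋ - c0 (G ω) : ℤ) : ℝ)|) ^ 2))
          ≤ 54 + (6 / L ^ 2) * (∑ i, y i (a i)) ^ 2 := by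
      intro a
      rw [one_div_one_div, hc0e]
      set s := (z (G ω) + ∑ i, x i (G ω) (D i (a i))) / L with hs
      have e2 : s - mn ω = (∑ i, y i (a i)) / L := by
        simp only [hs, hmn, hy]
        rw [Finset.sum_sub_distrib, ← sub_div]
        congr 1
        ring
      have e3 : |((⌊s⌋ - ⌊mn ω⌋ : ℤ) : ℝ)| ≤ 2 + |s - mn ω| := by
        push_cast
        have a1 := Int.floor_le s
        have a2 := Int.lt_floor_add_one s
        have a3 := Int.floor_le (mn ω)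
        have a4 := Int.lt_floor_add_one (mn ω)
        have a5 := neg_abs_le (s - mn ω)
        have a6 := le_abs_self (s - mn ω)
        rw [abs_le]
        constructor <;> linarith
      have e4 : (1 + |((⌊s⌋ - ⌊mn ω⌋ : ℤ) : ℝ)|) ^ 2 ≤ 18 + 2 * (s - mn ω) ^ 2 := by
        have a7 := abs_nonneg ((⌊s⌋ - ⌊mn ω⌋ : ℤ) : ℝ)
        have a8 : (1 + |((⌊s⌋ - ⌊mn ω⌋ : ℤ) : ℝ)|) ^ 2 ≤ (3 + |s - mn ω|) ^ 2 :=
          pow_le_pow_left₀ (by linarith) (by linarith) 2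
        have a9 : (3 + |s - mn ω|) ^ 2 ≤ 18 + 2 * (s - mn ω) ^ 2 := by
          rw [← sq_abs (s - mn ω)]
          nlinarith [sq_nonneg (3 - |s - mn ω|)]
        linarith
      rw [e2, div_pow] at e4
      have e5 : (6 / L ^ 2) * (∑ i, y i (a i)) ^ 2 = 3 * (2 * ((∑ i, y i (a i)) ^ 2 / L ^ 2)) := by
        ring
      rw [e5]
      linarith
    have h7 := EQ_mono μ (hg H G) hμ ω (Ψ := fun a : ι → Ω => 1 / (1 / (3 * (1 + |((⌊(z (G ω) +
        ∑ i, x i (G ω) (D i (a i))) / L⌋ - c0 (G ω) : ℤ) : ℝ)|) ^ 2)))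
        (Ψ' := fun a => 54 + (6 / L ^ 2) * (∑ i, y i (a i)) ^ 2) (fun a _ => hpt a)
    refine h7.trans ?_
    rw [EQ_add, EQ_const μ (hg H G) hμ ω h0, EQ_mul]
    have h8 : (6 / L ^ 2) * EQ μ (hg H G) ω (fun a : ι → Ω => (∑ i, y i (a i)) ^ 2) ≤ 6 := by
      have hL2 : 0 < L ^ 2 := by positivity
      calc (6 / L ^ 2) * EQ μ (hg H G) ω (fun a : ι → Ω => (∑ i, y i (a i)) ^ 2)
          ≤ (6 / L ^ 2) * L ^ 2 := mul_le_mul_of_nonneg_left (hvar.trans hKL) (by positivity)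
        _ = 6 := by field_simp
    linarith

/-- **window bound** -/
theorem window_bound2 (μ : Ω → ℝ) (D : ι → Ω → α) (G : Ω → γ) (H : ι → γ → β) (hμ : ∀ ω, 0 ≤ μ ω)
    (E : γ → Prop)
    (z : γ → ℝ) (x : ι → γ → α → ℝ) {p : ℝ} (hp : 0 < p) (hp1 : p ≤ 1) (T : γ → Finset ι)
    (hT : ∀ ω, μ ω ≠ 0 → E (G ω) → ∀ i ∈ T (G ω), ∀ c : ℝ,
      p ≤ ∑ ω' ∈ univ.filter (fun ω' => 1 ≤ |x i (G ω) (D i ω') - c|),
        cw μ (hg H G i) ω ω')
    (K L : ℝ) (hL : 0 < L) (hKL : Fintype.card ι * K ^ 2 ≤ L ^ 2)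
    (hx : ∀ i ω0 ω ω', μ ω0 ≠ 0 → μ ω ≠ 0 → μ ω' ≠ 0 → H i (G ω) = H i (G ω0) →
      H i (G ω') = H i (G ω0) → |x i (G ω0) (D i ω) - x i (G ω0) (D i ω')| ≤ K) :
    (∑ ω, res μ (fun ω => E (G ω)) ω * (1 / 2 * Real.logb 2 (p * ((T (G ω)).card + 1))))
        - 2 * TC μ D G H - 6 * mass (res μ (fun ω => E (G ω))) ≤
      CH (res μ (fun ω => E (G ω))) (fun ω => ⌊z (G ω) + ∑ i, x i (G ω) (D i ω)⌋)
        (fun ω => (⌊(z (G ω) + ∑ i, x i (G ω) (D i ω)) / L⌋, G ω)) := by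
  have h1 := window_fine2 μ D G H hμ E z x hp hp1 T hT
  have h2 := window_coarse2 μ D G H hμ E z x K L hL hKL hx
  set ν := res μ (fun ω => E (G ω)) with hν
  have hν0 : ∀ ω, 0 ≤ ν ω := e4_res_nonneg μ _ hμ
  have h3 := e1_chain ν (fun ω => ⌊(z (G ω) + ∑ i, x i (G ω) (D i ω)) / L⌋)
    (fun ω => ⌊z (G ω) + ∑ i, x i (G ω) (D i ω)⌋) G
  have h4 := (st_E2 st_E1).1 Ω _ _ _ ν (fun ω => ⌊z (G ω) + ∑ i, x i (G ω) (D i ω)⌋)
    (fun ω => (⌊(z (G ω) + ∑ i, x i (G ω) (D i ω)) / L⌋,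
      ⌊z (G ω) + ∑ i, x i (G ω) (D i ω)⌋)) G hν0
    (fun ω ω' _ _ h => by
      rw [Prod.mk.injEq, Prod.mk.injEq] at h
      exact h.1.2)
  linarith

end Pool.Agent.Helper61.GL
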