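import Pool.Agent.Helper61.GL.KRG2
import Pool.Agent.Helper61.GL.Win2

/-!
# Kolmogorov-Rogozin growth, with own conditions only

The laws of the summands are conditioned on their own cells only, the local entropies of `z` on its
own cell only.
-/

set_option autoImplicit false

namespace Pool.Agent.Helper61.GL

open Finset Pool.Agent.Helper69.RK

theorem ke_card {α β : Type} (i1 i2 : DecidableEq β) (p : α → Prop) (j1 j2 : DecidablePred p) (f : α → β)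
    (s : Finset α) : ((@Finset.image α β i1 f (@Finset.filter α p j1 s)).card : ℝ) =
      (@Finset.image α β i2 f (@Finset.filter α p j2 s)).card := by
  rw [Subsingleton.elim i1 i2, Subsingleton.elim j1 j2]

/-- data for the growth theorem -/
structure KE (Ω γ α β : Type) [Fintype Ω] where
  μ : Ω → ℝ
  nn : ∀ ω, 0 ≤ μ ω
  ms : mass μ = 1
  f : Ω → γ
  z : Ω → ℝ
  n0 : ℕ
  κ : ℕ
  b : ℕ
  e0 : ℕ
  A : Fin (4 ^ n0) → Ω → α
  X : Fin (4 ^ n0) → γ → α → ℝ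
  cl : ℕ → α → β
  ref : ∀ i l ω ω', μ ω ≠ 0 → μ ω' ≠ 0 → cl (l + 1) (A i ω) = cl (l + 1) (A i ω') →
    cl l (A i ω) = cl l (A i ω')
  reg : ∀ i l ω0 ω ω', μ ω0 ≠ 0 → μ ω ≠ 0 → μ ω' ≠ 0 → cl l (A i ω) = cl l (A i ω') →
    |X i (f ω0) (A i ω) - X i (f ω0) (A i ω')| ≤ 2 ^ κ / 2 ^ l

namespace KE

variable {Ω γ α β : Type} [Fintype Ω] (d : KE Ω γ α β)

/-- length of a tile -/
def R : ℕ := d.b + d.n0 + d.κ + 2
/-- start of the tile -/
def e (m : ℕ) : ℕ := d.e0 + m * d.R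
/-- level of the conditioning cells -/
def s (m : ℕ) : ℕ := d.e m + (d.n0 + d.κ + 2)
/-- level of the data seen in the tile -/
def F (m : ℕ) : ℕ := d.e (m + 1) + d.κ + 2 * d.n0

/-- the sum -/
noncomputable def zN (ω : Ω) : ℝ := d.z ω + ∑ i, d.X i (d.f ω) (d.A i ω)

/-- the cells of all the data -/
def C (l : ℕ) (ω : Ω) : Fin (4 ^ d.n0) → β := fun i => d.cl l (d.A i ω)

theorem e_succ (m : ℕ) : d.e (m + 1) = d.e m + d.R := by
  unfold e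
  ring

theorem s_b (m : ℕ) : d.s m + d.b = d.e (m + 1) := by
  rw [e_succ]
  unfold s R
  ring

theorem e_mono {m m' : ℕ} (h : m ≤ m') : d.e m ≤ d.e m' := by
  unfold e
  exact Nat.add_le_add_left (Nat.mul_le_mul_right _ h) _

theorem s_mono {m m' : ℕ} (h : m ≤ m') : d.s m ≤ d.s m' := by
  unfold s
  exact Nat.add_le_add_right (d.e_mono h) _

theorem s_le_F (m : ℕ) : d.s m ≤ d.F m := by
  have := d.s_b m
  unfold F
  omega

theorem F_le_s (m : ℕ) : d.F m ≤ d.s (m + 2) := by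
  unfold F
  unfold s
  rw [d.e_succ (m + 1)]
  unfold R
  omega

theorem cl_ref (i : Fin (4 ^ d.n0)) {l l' : ℕ} (h : l ≤ l') {ω ω' : Ω} (h0 : d.μ ω ≠ 0)
    (h0' : d.μ ω' ≠ 0) (hC : d.cl l' (d.A i ω) = d.cl l' (d.A i ω')) :
    d.cl l (d.A i ω) = d.cl l (d.A i ω') := by
  induction l', h using Nat.le_induction with
  | base => exact hC
  | succ l' _ ih => exact ih (d.ref i l' ω ω' h0 h0' hC)

theorem C_ref {l l' : ℕ} (h : l ≤ l') {ω ω' : Ω} (h0 : d.μ ω ≠ 0) (h0' : d.μ ω' ≠ 0)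
    (hC : d.C l' ω = d.C l' ω') : d.C l ω = d.C l ω' := by
  funext i
  exact d.cl_ref i h h0 h0' (congrFun hC i)

/-- the condition in a tile -/
noncomputable def GG (l : ℕ) (ω : Ω) : ℝ × γ × (Fin (4 ^ d.n0) → β) := (d.z ω, d.f ω, d.C l ω)

/-- the own condition of a summand -/
def HH (d : KE Ω γ α β) (i : Fin (4 ^ d.n0)) (g : ℝ × γ × (Fin (4 ^ d.n0) → β)) : β := g.2.2 i

/-- total correlation up to level `l` -/
noncomputable def Th (l : ℕ) : ℝ :=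
  (∑ i, CH d.μ (fun ω => d.cl l (d.A i ω)) (fun _ => ())) -
    CH d.μ (fun ω => d.C l ω) (fun ω => (d.z ω, d.f ω))

/-- total correlation between two levels -/
noncomputable def TL (l l' : ℕ) : ℝ := TC d.μ (fun i ω => d.cl l' (d.A i ω)) (d.GG l) d.HH

theorem TL_eq {l l' : ℕ} (h : l ≤ l') : d.TL l l' = d.Th l' - d.Th l := by
  unfold TL TC Th
  have h1 : ∀ i, CH d.μ (fun ω => d.cl l' (d.A i ω)) (hg d.HH (d.GG l) i)
      = CH d.μ (fun ω => d.cl l' (d.A i ω)) (fun _ => ())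
        - CH d.μ (fun ω => d.cl l (d.A i ω)) (fun _ => ()) := by
    intro i
    rw [← ch_diff d.μ (fun ω => d.cl l' (d.A i ω)) (fun ω => d.cl l (d.A i ω)) (fun _ => ())]
    · apply ch_congr_right
      intro ω ω' _ _
      change (d.cl l (d.A i ω) = d.cl l (d.A i ω')) ↔ _
      rw [Prod.mk.injEq]
      exact (and_iff_left rfl).symm
    · intro ω ω' h0 h0' _ hc
      exact d.cl_ref i h h0 h0' hc
  have h2 : CH d.μ (fun ω => fun i => d.cl l' (d.A i ω)) (d.GG l)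
      = CH d.μ (fun ω => d.C l' ω) (fun ω => (d.z ω, d.f ω))
        - CH d.μ (fun ω => d.C l ω) (fun ω => (d.z ω, d.f ω)) := by
    rw [← ch_diff d.μ (fun ω => d.C l' ω) (fun ω => d.C l ω) (fun ω => (d.z ω, d.f ω))]
    · change CH d.μ (fun ω => d.C l' ω) (d.GG l) = _
      apply ch_congr_right
      intro ω ω' _ _
      unfold GG
      rw [Prod.mk.injEq, Prod.mk.injEq, Prod.mk.injEq, Prod.mk.injEq]
      tauto
    · intro ω ω' h0 h0' _ hc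
      exact d.C_ref h h0 h0' hc
  rw [Finset.sum_congr rfl (fun i _ => h1 i), h2, Finset.sum_sub_distrib]
  ring

theorem TL_nonneg (l l' : ℕ) : 0 ≤ d.TL l l' := TC_nonneg _ _ _ _ d.nn

theorem Th_mono {l l' : ℕ} (h : l ≤ l') : d.Th l ≤ d.Th l' := by
  have := d.TL_nonneg l l'
  rw [d.TL_eq h] at this
  linarith

theorem Th_nonneg (l : ℕ) : 0 ≤ d.Th l := by
  have h := TC_nonneg d.μ (fun i ω => d.cl l (d.A i ω)) (fun ω => (d.z ω, d.f ω))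
    (fun _ _ => ()) d.nn
  exact h

/-- the total correlations of the tiles overlap at most twice -/
theorem sum_TL (M : ℕ) : ∑ m ∈ range M, d.TL (d.s m) (d.F m) ≤ 2 * d.Th (d.s (M + 1)) := by
  have h1 : ∑ m ∈ range M, d.TL (d.s m) (d.F m)
      ≤ ∑ m ∈ range M, (d.Th (d.s (m + 2)) - d.Th (d.s m)) := by
    refine Finset.sum_le_sum fun m _ => ?_
    rw [d.TL_eq (d.s_le_F m)]
    have := d.Th_mono (d.F_le_s m)
    linarith
  have h2 : ∀ M : ℕ, ∑ m ∈ range M, (d.Th (d.s (m + 2)) - d.Th (d.s m))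
      = d.Th (d.s (M + 1)) + d.Th (d.s M) - d.Th (d.s 1) - d.Th (d.s 0) := by
    intro M
    induction M with
    | zero => simp
    | succ M ih =>
      rw [Finset.sum_range_succ, ih]
      ring
  rw [h2] at h1
  have h3 := d.Th_mono (d.s_mono (Nat.le_succ M))
  have h4 := d.Th_nonneg (d.s 1)
  have h5 := d.Th_nonneg (d.s 0)
  linarith

/-- the variables seen at the start of a tile -/
noncomputable def g0 (m : ℕ) (ω : Ω) : ℤ × γ × (Fin (4 ^ d.n0) → β) :=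
  (fl (d.e m) (d.z ω), d.f ω, d.C (d.s m) ω)

/-- the condition in a tile of `z` -/
noncomputable def gz (m : ℕ) (ω : Ω) : ℤ := fl (d.e m) (d.z ω)

/-- all the data -/
def AF (M : ℕ) (ω : Ω) : (Fin (4 ^ d.n0) → β) × γ := (d.C (d.s (M + 1)) ω, d.f ω)

/-- the hypothesis: on the event `E` of the tile `m` the summands in `T` are not atomic -/
def NA (d : KE Ω γ α β) (p : ℝ) (E : ℤ × γ × (Fin (4 ^ d.n0) → β) → Prop)
    (T : ℤ × γ × (Fin (4 ^ d.n0) → β) → Finset (Fin (4 ^ d.n0))) (m : ℕ) : Prop :=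
  ∀ ω, d.μ ω ≠ 0 → E (d.g0 m ω) → ∀ i ∈ T (d.g0 m ω), ∀ c : ℝ,
    p ≤ ∑ ω' ∈ univ.filter (fun ω' => 2 ≤ |(2 : ℝ) ^ d.e (m + 1) * d.X i (d.f ω) (d.A i ω') - c|),
      cw d.μ (fun ω'' => d.cl (d.s m) (d.A i ω'')) ω ω'

open Classical in
/-- the summand as a function of the data of level `F` -/
noncomputable def xt (m : ℕ) (i : Fin (4 ^ d.n0)) (g : ℝ × γ × (Fin (4 ^ d.n0) → β)) (c : β) : ℝ :=
  if h : ∃ ω, d.μ ω ≠ 0 ∧ d.cl (d.F m) (d.A i ω) = c then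
    (2 : ℝ) ^ d.e (m + 1) * d.X i g.2.1 (d.A i h.choose) else 0

theorem four_pow_inv : (4 : ℝ) ^ d.n0 * (1 / 4 ^ d.n0) = 1 := by
  rw [mul_one_div, div_self (by positivity)]

/-- truncation error -/
theorem xt_err (m : ℕ) (i : Fin (4 ^ d.n0)) (l : ℕ) (ω0 ω : Ω) (h0 : d.μ ω0 ≠ 0) (h : d.μ ω ≠ 0) :
    |d.xt m i (d.GG l ω0) (d.cl (d.F m) (d.A i ω)) -
      (2 : ℝ) ^ d.e (m + 1) * d.X i (d.f ω0) (d.A i ω)| ≤ 1 / 4 ^ d.n0 := by
  have hex : ∃ ω', d.μ ω' ≠ 0 ∧ d.cl (d.F m) (d.A i ω') = d.cl (d.F m) (d.A i ω) := ⟨ω, h, rfl⟩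
  unfold xt
  rw [dif_pos hex]
  change |(2 : ℝ) ^ d.e (m + 1) * d.X i (d.f ω0) (d.A i hex.choose) -
    (2 : ℝ) ^ d.e (m + 1) * d.X i (d.f ω0) (d.A i ω)| ≤ _
  rw [← mul_sub, abs_mul, abs_of_pos (by positivity)]
  have h1 := d.reg i (d.F m) ω0 _ _ h0 hex.choose_spec.1 h hex.choose_spec.2
  calc (2 : ℝ) ^ d.e (m + 1) * |d.X i (d.f ω0) (d.A i hex.choose) - d.X i (d.f ω0) (d.A i ω)|
      ≤ (2 : ℝ) ^ d.e (m + 1) * (2 ^ d.κ / 2 ^ d.F m) := mul_le_mul_of_nonneg_left h1 (by positivity)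
    _ = 1 / 4 ^ d.n0 := by
      have e1 : (2 : ℝ) ^ d.F m = 2 ^ d.e (m + 1) * 2 ^ d.κ * 4 ^ d.n0 := by
        unfold F
        rw [pow_add, pow_add, pow_mul]
        norm_num
      rw [e1]
      field_simp

theorem four_inv_le : (1 : ℝ) / 4 ^ d.n0 ≤ 1 := by
  rw [div_le_one (by positivity)]
  exact one_le_pow₀ (by norm_num)

/-- entropy of the tile of the sum on the event -/
theorem tile_event (m : ℕ) {p : ℝ} (hp : 0 < p) (hp1 : p ≤ 1)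
    (E : ℤ × γ × (Fin (4 ^ d.n0) → β) → Prop)
    (T : ℤ × γ × (Fin (4 ^ d.n0) → β) → Finset (Fin (4 ^ d.n0))) (hT : d.NA p E T m) :
    (∑ ω, res d.μ (fun ω => E (d.g0 m ω)) ω *
        (1 / 2 * Real.logb 2 (p * ((T (d.g0 m ω)).card + 1)))) - 2 * d.TL (d.s m) (d.F m)
        - 12 * mass (res d.μ (fun ω => E (d.g0 m ω))) ≤
      CH (res d.μ (fun ω => E (d.g0 m ω))) (fun ω => fl (d.e (m + 1)) (d.zN ω))
        (fun ω => (fl (d.e m) (d.zN ω), d.GG (d.s m) ω)) := by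
  classical
  set E' : ℝ × γ × (Fin (4 ^ d.n0) → β) → Prop := fun g => E (fl (d.e m) g.1, g.2.1, g.2.2) with hE'
  set T' : ℝ × γ × (Fin (4 ^ d.n0) → β) → Finset (Fin (4 ^ d.n0)) :=
    fun g => T (fl (d.e m) g.1, g.2.1, g.2.2) with hT'
  have hxe : ∀ i ω ω', d.μ ω ≠ 0 → d.μ ω' ≠ 0 → |d.xt m i (d.GG (d.s m) ω)
      (d.cl (d.F m) (d.A i ω')) - (2 : ℝ) ^ d.e (m + 1) * d.X i (d.f ω) (d.A i ω')|
        ≤ 1 / 4 ^ d.n0 := fun i ω ω' h h' => d.xt_err m i (d.s m) ω ω' h h'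
  have h1 := window_bound2 d.μ (fun i ω => d.cl (d.F m) (d.A i ω)) (d.GG (d.s m)) d.HH d.nn E'
    (fun g => (2 : ℝ) ^ d.e (m + 1) * g.1) (d.xt m) hp hp1 T'
    (fun ω h0 hE i hi c => by
      refine (hT ω h0 hE i hi c).trans ?_
      rw [Finset.sum_filter, Finset.sum_filter]
      refine Finset.sum_le_sum fun ω' _ => ?_
      have hcw : cw d.μ (fun ω'' => d.cl (d.s m) (d.A i ω'')) ω ω'
          = cw d.μ (hg d.HH (d.GG (d.s m)) i) ω ω' := rfl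
      rw [hcw]
      by_cases hz : cw d.μ (hg d.HH (d.GG (d.s m)) i) ω ω' = 0
      · rw [hz]
        split_ifs <;> exact le_rfl
      have h2 := (cw_ne_zero d.μ _ hz).2
      have h3 := hxe i ω ω' h0 h2
      by_cases h4 : 2 ≤ |(2 : ℝ) ^ d.e (m + 1) * d.X i (d.f ω) (d.A i ω') - c|
      · rw [if_pos h4, if_pos]
        have h5 := abs_sub_abs_le_abs_sub ((2 : ℝ) ^ d.e (m + 1) * d.X i (d.f ω) (d.A i ω') - c)
          (d.xt m i (d.GG (d.s m) ω) (d.cl (d.F m) (d.A i ω')) - c)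
        have h6 : ((2 : ℝ) ^ d.e (m + 1) * d.X i (d.f ω) (d.A i ω') - c) -
            (d.xt m i (d.GG (d.s m) ω) (d.cl (d.F m) (d.A i ω')) - c)
            = - (d.xt m i (d.GG (d.s m) ω) (d.cl (d.F m) (d.A i ω'))
              - (2 : ℝ) ^ d.e (m + 1) * d.X i (d.f ω) (d.A i ω')) := by ring
        rw [h6, abs_neg] at h5
        have h7 := d.four_inv_le
        linarith
      · rw [if_neg h4]
        split_ifs
        · exact cw_nonneg _ _ d.nn _ _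
        · exact le_rfl)
    (2 ^ (d.b + d.κ + 2)) (2 ^ d.R) (by positivity)
    (by
      rw [Fintype.card_fin]
      push_cast
      apply le_of_eq
      unfold R
      rw [← pow_mul, ← pow_mul, show ((4 : ℝ)) = 2 ^ 2 by norm_num, ← pow_mul, ← pow_add]
      congr 1
      ring)
    (fun i ω0 ω ω' h0 hω hω' h2 h2' => by
      have hc : d.cl (d.s m) (d.A i ω) = d.cl (d.s m) (d.A i ω') :=
        (show d.cl (d.s m) (d.A i ω) = d.cl (d.s m) (d.A i ω0) from h2).trans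
          (show d.cl (d.s m) (d.A i ω0) = d.cl (d.s m) (d.A i ω') from Eq.symm h2')
      have h3 := hxe i ω0 ω h0 hω
      have h4 := hxe i ω0 ω' h0 hω'
      have h5 := d.reg i (d.s m) ω0 _ _ h0 hω hω' hc
      have h6 : (2 : ℝ) ^ d.e (m + 1) * (2 ^ d.κ / 2 ^ d.s m) = 2 ^ (d.b + d.κ) := by
        rw [← d.s_b m, pow_add, pow_add]
        field_simp
      have h7 := mul_le_mul_of_nonneg_left h5 (by positivity : (0 : ℝ) ≤ 2 ^ d.e (m + 1))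
      rw [h6, ← abs_of_pos (by positivity : (0 : ℝ) < 2 ^ d.e (m + 1)), ← abs_mul] at h7
      have h8 := d.four_inv_le
      have h9 : (2 : ℝ) ^ (d.b + d.κ + 2) = 4 * 2 ^ (d.b + d.κ) := by
        rw [pow_add]
        ring
      have h10 : (1 : ℝ) ≤ 2 ^ (d.b + d.κ) := one_le_pow₀ (by norm_num)
      rw [h9]
      set x1 := d.xt m i (d.GG (d.s m) ω0) (d.cl (d.F m) (d.A i ω)) with hx1
      set x2 := d.xt m i (d.GG (d.s m) ω0) (d.cl (d.F m) (d.A i ω')) with hx2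
      have h11 : x1 - x2 = (x1 - (2 : ℝ) ^ d.e (m + 1) * d.X i (d.f ω0) (d.A i ω))
          - (x2 - (2 : ℝ) ^ d.e (m + 1) * d.X i (d.f ω0) (d.A i ω'))
          + (2 : ℝ) ^ d.e (m + 1) * (d.X i (d.f ω0) (d.A i ω) - d.X i (d.f ω0) (d.A i ω')) := by
        ring
      rw [h11]
      have t1 := abs_add_le ((x1 - (2 : ℝ) ^ d.e (m + 1) * d.X i (d.f ω0) (d.A i ω))
          - (x2 - (2 : ℝ) ^ d.e (m + 1) * d.X i (d.f ω0) (d.A i ω')))
          ((2 : ℝ) ^ d.e (m + 1) * (d.X i (d.f ω0) (d.A i ω) - d.X i (d.f ω0) (d.A i ω')))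
      have t2 := abs_sub (x1 - (2 : ℝ) ^ d.e (m + 1) * d.X i (d.f ω0) (d.A i ω))
          (x2 - (2 : ℝ) ^ d.e (m + 1) * d.X i (d.f ω0) (d.A i ω'))
      linarith)
  -- compare with the true sum
  set ν := res d.μ (fun ω => E (d.g0 m ω)) with hν
  have hν0 : ∀ ω, 0 ≤ ν ω := e4_res_nonneg _ _ d.nn
  have hνμ : ∀ ω, ν ω ≠ 0 → d.μ ω ≠ 0 := fun ω h => (res_ne _ _ h).1
  have hνe : res d.μ (fun ω => E' (d.GG (d.s m) ω)) = ν := rfl
  rw [hνe] at h1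
  set S : Ω → ℝ := fun ω => (2 : ℝ) ^ d.e (m + 1) * (d.GG (d.s m) ω).1
    + ∑ i, d.xt m i (d.GG (d.s m) ω) (d.cl (d.F m) (d.A i ω)) with hS
  have hSz : ∀ ω, d.μ ω ≠ 0 → |S ω - (2 : ℝ) ^ d.e (m + 1) * d.zN ω| ≤ 1 := by
    intro ω h0
    have e1 : S ω - (2 : ℝ) ^ d.e (m + 1) * d.zN ω
        = ∑ i, (d.xt m i (d.GG (d.s m) ω) (d.cl (d.F m) (d.A i ω))
          - (2 : ℝ) ^ d.e (m + 1) * d.X i (d.f ω) (d.A i ω)) := by
      rw [Finset.sum_sub_distrib, ← Finset.mul_sum]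
      simp only [hS]
      unfold zN GG
      ring
    rw [e1]
    refine (Finset.abs_sum_le_sum_abs _ _).trans ?_
    calc ∑ i, |d.xt m i (d.GG (d.s m) ω) (d.cl (d.F m) (d.A i ω))
          - (2 : ℝ) ^ d.e (m + 1) * d.X i (d.f ω) (d.A i ω)|
        ≤ ∑ _i : Fin (4 ^ d.n0), (1 : ℝ) / 4 ^ d.n0 :=
          Finset.sum_le_sum fun i _ => hxe i ω ω h0 h0
      _ = 1 := by
        rw [Finset.sum_const, Finset.card_univ, Fintype.card_fin, nsmul_eq_mul]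
        push_cast
        exact d.four_pow_inv
  have h2 := ch_near ν hν0 (fun ω => ⌊S ω⌋) (fun ω => fl (d.e (m + 1)) (d.zN ω))
    (fun ω => ⌊S ω / 2 ^ d.R⌋) (fun ω => fl (d.e m) (d.zN ω)) (d.GG (d.s m))
    (fun ω ω' h0 h0' _ hu => by
      have a1 := floor_near (S ω) (S ω')
      have a2 := floor_eq_near hu
      have a3 : S ω - S ω' = (S ω - (2 : ℝ) ^ d.e (m + 1) * d.zN ω)
        - (S ω' - (2 : ℝ) ^ d.e (m + 1) * d.zN ω')
        + ((2 : ℝ) ^ d.e (m + 1) * d.zN ω - (2 : ℝ) ^ d.e (m + 1) * d.zN ω') := by ring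
      have t1 := abs_add_le ((S ω - (2 : ℝ) ^ d.e (m + 1) * d.zN ω)
        - (S ω' - (2 : ℝ) ^ d.e (m + 1) * d.zN ω'))
        ((2 : ℝ) ^ d.e (m + 1) * d.zN ω - (2 : ℝ) ^ d.e (m + 1) * d.zN ω')
      have t2 := abs_sub (S ω - (2 : ℝ) ^ d.e (m + 1) * d.zN ω)
        (S ω' - (2 : ℝ) ^ d.e (m + 1) * d.zN ω')
      rw [← a3] at t1
      have t3 := hSz ω (hνμ ω h0)
      have t4 := hSz ω' (hνμ ω' h0')
      linarith)
    (fun ω ω' h0 h0' _ hv => by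
      have a2 := floor_eq_near hv
      have a1 := floor_near ((2 : ℝ) ^ d.e m * d.zN ω) ((2 : ℝ) ^ d.e m * d.zN ω')
      have hR1 : (1 : ℝ) ≤ 2 ^ d.R := one_le_pow₀ (by norm_num)
      have e2 : ∀ y : ℝ, (2 : ℝ) ^ d.e m * y = (2 : ℝ) ^ d.e (m + 1) * y / 2 ^ d.R := by
        intro y
        rw [d.e_succ, pow_add]
        field_simp
      have hb : ∀ ω, d.μ ω ≠ 0 → |(2 : ℝ) ^ d.e m * d.zN ω - S ω / 2 ^ d.R| ≤ 1 := by
        intro ω h0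
        rw [e2, ← sub_div, abs_div, abs_of_pos (by positivity : (0 : ℝ) < 2 ^ d.R),
          div_le_one (by positivity), abs_sub_comm]
        exact (hSz ω h0).trans hR1
      have a3 : (2 : ℝ) ^ d.e m * d.zN ω - (2 : ℝ) ^ d.e m * d.zN ω'
        = ((2 : ℝ) ^ d.e m * d.zN ω - S ω / 2 ^ d.R) - ((2 : ℝ) ^ d.e m * d.zN ω' - S ω' / 2 ^ d.R)
          + (S ω / 2 ^ d.R - S ω' / 2 ^ d.R) := by ring
      have t1 := abs_add_le (((2 : ℝ) ^ d.e m * d.zN ω - S ω / 2 ^ d.R) -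
        ((2 : ℝ) ^ d.e m * d.zN ω' - S ω' / 2 ^ d.R)) (S ω / 2 ^ d.R - S ω' / 2 ^ d.R)
      have t2 := abs_sub ((2 : ℝ) ^ d.e m * d.zN ω - S ω / 2 ^ d.R)
        ((2 : ℝ) ^ d.e m * d.zN ω' - S ω' / 2 ^ d.R)
      rw [← a3] at t1
      have t3 := hb ω (hνμ ω h0)
      have t4 := hb ω' (hνμ ω' h0')
      unfold fl
      linarith)
  have h3 : TC d.μ (fun i ω => d.cl (d.F m) (d.A i ω)) (d.GG (d.s m)) d.HH
      = d.TL (d.s m) (d.F m) := rfl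
  rw [h3] at h1
  have h4 : (∑ ω, ν ω * (1 / 2 * Real.logb 2 (p * ((T' (d.GG (d.s m) ω)).card + 1))))
      = ∑ ω, ν ω * (1 / 2 * Real.logb 2 (p * ((T (d.g0 m ω)).card + 1))) := rfl
  rw [h4] at h1
  linarith

/-- the increment is nearly constant on the cells of all the data -/
theorem incr (m M : ℕ) (hm : m < M) {ω ω' : Ω} (h0 : d.μ ω ≠ 0) (h0' : d.μ ω' ≠ 0)
    (hf : d.f ω = d.f ω') (hC : d.C (d.s (M + 1)) ω = d.C (d.s (M + 1)) ω') :
    |((2 : ℝ) ^ d.e (m + 1) * d.zN ω - 2 ^ d.e (m + 1) * d.zN ω') -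
      ((2 : ℝ) ^ d.e (m + 1) * d.z ω - 2 ^ d.e (m + 1) * d.z ω')| ≤ 1 := by
  have e1 : ((2 : ℝ) ^ d.e (m + 1) * d.zN ω - 2 ^ d.e (m + 1) * d.zN ω') -
      ((2 : ℝ) ^ d.e (m + 1) * d.z ω - 2 ^ d.e (m + 1) * d.z ω')
      = 2 ^ d.e (m + 1) * ∑ i, (d.X i (d.f ω) (d.A i ω) - d.X i (d.f ω) (d.A i ω')) := by
    unfold zN
    rw [Finset.sum_sub_distrib, hf]
    ring
  rw [e1, abs_mul, abs_of_pos (by positivity)]
  have h1 : |∑ i, (d.X i (d.f ω) (d.A i ω) - d.X i (d.f ω) (d.A i ω'))|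
      ≤ (4 : ℝ) ^ d.n0 * (2 ^ d.κ / 2 ^ d.s (M + 1)) := by
    refine (Finset.abs_sum_le_sum_abs _ _).trans ?_
    calc ∑ i, |d.X i (d.f ω) (d.A i ω) - d.X i (d.f ω) (d.A i ω')|
        ≤ ∑ _i : Fin (4 ^ d.n0), ((2 : ℝ) ^ d.κ / 2 ^ d.s (M + 1)) :=
          Finset.sum_le_sum fun i _ => d.reg i _ ω _ _ h0 h0 h0' (congrFun hC i)
      _ = (4 : ℝ) ^ d.n0 * (2 ^ d.κ / 2 ^ d.s (M + 1)) := by
          rw [Finset.sum_const, Finset.card_univ, Fintype.card_fin, nsmul_eq_mul]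
          push_cast
          ring
  have hle : d.e (m + 1) + (2 * d.n0 + d.κ) ≤ d.s (M + 1) := by
    have h3 : d.e (m + 1) + d.R ≤ d.e (M + 1) := by
      rw [← d.e_succ (m + 1)]
      exact d.e_mono (by omega)
    unfold s
    unfold R at h3
    omega
  have h4 : (2 : ℝ) ^ (d.e (m + 1) + (2 * d.n0 + d.κ)) ≤ 2 ^ d.s (M + 1) :=
    pow_le_pow_right₀ (by norm_num) hle
  calc (2 : ℝ) ^ d.e (m + 1) * |∑ i, (d.X i (d.f ω) (d.A i ω) - d.X i (d.f ω) (d.A i ω'))|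
      ≤ (2 : ℝ) ^ d.e (m + 1) * ((4 : ℝ) ^ d.n0 * (2 ^ d.κ / 2 ^ d.s (M + 1))) :=
        mul_le_mul_of_nonneg_left h1 (by positivity)
    _ = (2 : ℝ) ^ (d.e (m + 1) + (2 * d.n0 + d.κ)) / 2 ^ d.s (M + 1) := by
        rw [pow_add, pow_add, pow_mul]
        norm_num
        ring
    _ ≤ 1 := by
        rw [div_le_one (by positivity)]
        exact h4

/-- the same at the start of the tile -/
theorem incr0 (m M : ℕ) (hm : m < M) {ω ω' : Ω} (h0 : d.μ ω ≠ 0) (h0' : d.μ ω' ≠ 0)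
    (hf : d.f ω = d.f ω') (hC : d.C (d.s (M + 1)) ω = d.C (d.s (M + 1)) ω') :
    |((2 : ℝ) ^ d.e m * d.zN ω - 2 ^ d.e m * d.zN ω') -
      ((2 : ℝ) ^ d.e m * d.z ω - 2 ^ d.e m * d.z ω')| ≤ 1 := by
  have h := d.incr m M hm h0 h0' hf hC
  have hR1 : (1 : ℝ) ≤ 2 ^ d.R := one_le_pow₀ (by norm_num)
  have e1 : ((2 : ℝ) ^ d.e (m + 1) * d.zN ω - 2 ^ d.e (m + 1) * d.zN ω') -
      ((2 : ℝ) ^ d.e (m + 1) * d.z ω - 2 ^ d.e (m + 1) * d.z ω')
      = 2 ^ d.R * (((2 : ℝ) ^ d.e m * d.zN ω - 2 ^ d.e m * d.zN ω') -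
      ((2 : ℝ) ^ d.e m * d.z ω - 2 ^ d.e m * d.z ω')) := by
    rw [d.e_succ, pow_add]
    ring
  rw [e1, abs_mul, abs_of_pos (by positivity)] at h
  have h2 := mul_le_mul_of_nonneg_right hR1 (abs_nonneg (((2 : ℝ) ^ d.e m * d.zN ω -
    2 ^ d.e m * d.zN ω') - ((2 : ℝ) ^ d.e m * d.z ω - 2 ^ d.e m * d.z ω')))
  linarith

/-- the complement of the event -/
theorem tile_compl (m M : ℕ) (hm : m < M) (ν : Ω → ℝ) (hν : ∀ ω, 0 ≤ ν ω)
    (hνμ : ∀ ω, ν ω ≠ 0 → d.μ ω ≠ 0) :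
    CH ν (fun ω => fl (d.e (m + 1)) (d.z ω)) (fun ω => (d.AF M ω, d.gz m ω)) - 6 * mass ν ≤
      CH ν (fun ω => fl (d.e (m + 1)) (d.zN ω))
        (fun ω => (fl (d.e m) (d.zN ω), (d.AF M ω, d.gz m ω))) := by
  have h1 := ch_near ν hν (fun ω => fl (d.e (m + 1)) (d.z ω)) (fun ω => fl (d.e (m + 1)) (d.zN ω))
    (fun ω => fl (d.e m) (d.z ω)) (fun ω => fl (d.e m) (d.zN ω))
    (fun ω => (d.AF M ω, d.gz m ω))
    (fun ω ω' h0 h0' hG hu => by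
      unfold AF at hG
      rw [Prod.mk.injEq, Prod.mk.injEq] at hG
      have h2 := d.incr m M hm (hνμ ω h0) (hνμ ω' h0') hG.1.2 hG.1.1
      have h3 := floor_eq_near hu
      have h4 := floor_near ((2 : ℝ) ^ d.e (m + 1) * d.z ω) ((2 : ℝ) ^ d.e (m + 1) * d.z ω')
      have t1 := abs_sub ((2 : ℝ) ^ d.e (m + 1) * d.zN ω - 2 ^ d.e (m + 1) * d.zN ω')
        (((2 : ℝ) ^ d.e (m + 1) * d.zN ω - 2 ^ d.e (m + 1) * d.zN ω') -
          ((2 : ℝ) ^ d.e (m + 1) * d.z ω - 2 ^ d.e (m + 1) * d.z ω'))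
      rw [sub_sub_cancel] at t1
      unfold fl
      linarith)
    (fun ω ω' h0 h0' hG hu => by
      unfold AF at hG
      rw [Prod.mk.injEq, Prod.mk.injEq] at hG
      have h2 := d.incr0 m M hm (hνμ ω h0) (hνμ ω' h0') hG.1.2 hG.1.1
      have h3 := floor_eq_near hu
      have h4 := floor_near ((2 : ℝ) ^ d.e m * d.zN ω) ((2 : ℝ) ^ d.e m * d.zN ω')
      have t1 := abs_add_le (((2 : ℝ) ^ d.e m * d.zN ω - 2 ^ d.e m * d.zN ω') -
          ((2 : ℝ) ^ d.e m * d.z ω - 2 ^ d.e m * d.z ω'))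
          ((2 : ℝ) ^ d.e m * d.z ω - 2 ^ d.e m * d.z ω')
      rw [sub_add_cancel] at t1
      unfold fl
      linarith)
  have h5 : CH ν (fun ω => fl (d.e (m + 1)) (d.z ω))
      (fun ω => (fl (d.e m) (d.z ω), (d.AF M ω, d.gz m ω)))
      = CH ν (fun ω => fl (d.e (m + 1)) (d.z ω)) (fun ω => (d.AF M ω, d.gz m ω)) := by
    apply ch_congr_right
    intro ω ω' _ _
    unfold gz
    rw [Prod.mk.injEq, Prod.mk.injEq]
    tauto
  rw [h5] at h1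
  linarith

/-- one tile -/
theorem tile (m M : ℕ) (hm : m < M) {p : ℝ} (hp : 0 < p) (hp1 : p ≤ 1)
    (E : ℤ × γ × (Fin (4 ^ d.n0) → β) → Prop)
    (T : ℤ × γ × (Fin (4 ^ d.n0) → β) → Finset (Fin (4 ^ d.n0))) (hT : d.NA p E T m) :
    ∑ ω, res d.μ (fun ω => E (d.g0 m ω)) ω *
        (1 / 2 * Real.logb 2 (p * ((T (d.g0 m ω)).card + 1)) -
          LH d.μ (fun ω => fl (d.e (m + 1)) (d.z ω)) (d.gz m) ω) ≤
      14 + 2 * d.TL (d.s m) (d.F m) +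
      (((d.R : ℝ) + 1) ^ 2 + 1) * (CH d.μ (fun ω => fl (d.e (m + 1)) (d.z ω)) (d.gz m) -
        CH d.μ (fun ω => fl (d.e (m + 1)) (d.z ω)) (fun ω => (d.AF M ω, d.gz m ω))) +
      (CH d.μ (fun ω => fl (d.e (m + 1)) (d.zN ω)) (fun ω => (fl (d.e m) (d.zN ω), d.f ω)) -
        CH d.μ (fun ω => fl (d.e (m + 1)) (d.z ω)) (d.gz m)) := by
  classical
  set ν := res d.μ (fun ω => E (d.g0 m ω)) with hν
  set ν' := res d.μ (fun ω => ¬ E (d.g0 m ω)) with hν'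
  have hν0 : ∀ ω, 0 ≤ ν ω := e4_res_nonneg _ _ d.nn
  have hν'0 : ∀ ω, 0 ≤ ν' ω := e4_res_nonneg _ _ d.nn
  have hν'μ : ∀ ω, ν' ω ≠ 0 → d.μ ω ≠ 0 := fun ω h => (res_ne _ _ h).1
  have hms : mass ν + mass ν' = 1 := by
    rw [← d.ms]
    unfold mass
    rw [← Finset.sum_add_distrib]
    exact Finset.sum_congr rfl fun ω _ => (e4_res_add d.μ (fun ω => E (d.g0 m ω)) ω).symm
  have hm1 : 0 ≤ mass ν := Finset.sum_nonneg fun ω _ => hν0 ω
  have hm2 : 0 ≤ mass ν' := Finset.sum_nonneg fun ω _ => hν'0 ω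
  -- claim A
  have a1 := d.tile_event m hp hp1 E T hT
  rw [← hν] at a1
  have a2 := d.tile_compl m M hm ν' hν'0 hν'μ
  have a3 : CH d.μ (fun ω => fl (d.e (m + 1)) (d.zN ω)) (fun ω => (fl (d.e m) (d.zN ω), d.g0 m ω))
      ≤ CH d.μ (fun ω => fl (d.e (m + 1)) (d.zN ω)) (fun ω => (fl (d.e m) (d.zN ω), d.f ω)) :=
    ch_cond d.μ d.nn _ _ _ (fun ω ω' _ _ h => by
      unfold g0 at h
      rw [Prod.mk.injEq, Prod.mk.injEq, Prod.mk.injEq] at h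
      exact Prod.ext h.1 h.2.2.1)
  have a4 := e4_split d.μ (fun ω => fl (d.e (m + 1)) (d.zN ω))
    (fun ω => (fl (d.e m) (d.zN ω), d.g0 m ω)) (fun ω => E (d.g0 m ω))
    (fun ω ω' _ _ h => congrArg E (Prod.ext_iff.1 h).2)
  rw [← hν, ← hν'] at a4
  have a5 : CH ν (fun ω => fl (d.e (m + 1)) (d.zN ω)) (fun ω => (fl (d.e m) (d.zN ω), d.GG (d.s m) ω))
      ≤ CH ν (fun ω => fl (d.e (m + 1)) (d.zN ω)) (fun ω => (fl (d.e m) (d.zN ω), d.g0 m ω)) :=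
    ch_cond ν hν0 _ _ _ (fun ω ω' _ _ h => by
      unfold GG at h
      unfold g0
      rw [Prod.mk.injEq, Prod.mk.injEq, Prod.mk.injEq] at h
      rw [Prod.mk.injEq, Prod.mk.injEq, Prod.mk.injEq]
      exact ⟨h.1, by rw [h.2.1], h.2.2⟩)
  have a6 : CH ν' (fun ω => fl (d.e (m + 1)) (d.zN ω))
        (fun ω => (fl (d.e m) (d.zN ω), (d.AF M ω, d.gz m ω)))
      ≤ CH ν' (fun ω => fl (d.e (m + 1)) (d.zN ω)) (fun ω => (fl (d.e m) (d.zN ω), d.g0 m ω)) :=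
    ch_cond ν' hν'0 _ _ _ (fun ω ω' h0 h0' h => by
      unfold gz AF at h
      unfold g0
      rw [Prod.mk.injEq, Prod.mk.injEq, Prod.mk.injEq] at h
      rw [Prod.mk.injEq, Prod.mk.injEq, Prod.mk.injEq]
      exact ⟨h.1, h.2.2, h.2.1.2,
        d.C_ref (d.s_mono (by omega)) (hν'μ ω h0) (hν'μ ω' h0') h.2.1.1⟩)
  -- claim B
  have hg0 : ∀ ω ω', d.μ ω ≠ 0 → d.μ ω' ≠ 0 → d.AF M ω = d.AF M ω' → d.gz m ω = d.gz m ω' →
      d.g0 m ω = d.g0 m ω' := by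
    intro ω ω' h0 h0' h1 h2
    unfold AF at h1
    rw [Prod.mk.injEq] at h1
    unfold g0
    rw [Prod.mk.injEq, Prod.mk.injEq]
    exact ⟨h2, h1.2, d.C_ref (d.s_mono (by omega)) h0 h0' h1.1⟩
  have b1 := e4_split d.μ (fun ω => fl (d.e (m + 1)) (d.z ω))
    (fun ω => (d.AF M ω, d.gz m ω)) (fun ω => E (d.g0 m ω))
    (fun ω ω' h0 h0' h => by
      rw [Prod.mk.injEq] at h
      exact congrArg E (hg0 ω ω' h0 h0' h.1 h.2))
  rw [← hν, ← hν'] at b1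
  set E'' : ((Fin (4 ^ d.n0) → β) × γ) × ℤ → Prop := fun g =>
    ∃ ω, d.μ ω ≠ 0 ∧ d.AF M ω = g.1 ∧ d.gz m ω = g.2 ∧ E (d.g0 m ω) with hE''
  have b2 : res d.μ (fun ω => E'' (d.AF M ω, d.gz m ω)) = ν := by
    rw [hν]
    apply res_congr
    intro ω h0
    constructor
    · rintro ⟨ω', h1, h2, h3, h4⟩
      rw [← hg0 ω' ω h1 h0 h2 h3]
      exact h4
    · intro h
      exact ⟨ω, h0, rfl, rfl, h⟩
  have b3 := ch_event_le d.μ d.nn (fun ω => fl (d.e (m + 1)) (d.z ω)) (d.gz m)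
    (fun ω => d.AF M ω) E'' d.R
    (fun g => by
      have hsub : (univ.filter (fun ω' => d.μ ω' ≠ 0 ∧ d.gz m ω' = g)).image
          (fun ω => fl (d.e (m + 1)) (d.z ω)) ⊆
          Finset.Ico (g * ((2 ^ d.R : ℕ) : ℤ)) (g * ((2 ^ d.R : ℕ) : ℤ) + ((2 ^ d.R : ℕ) : ℤ)) := by
        intro c hc
        obtain ⟨ω', hω', rfl⟩ := Finset.mem_image.1 hc
        have h2 := (Finset.mem_filter.1 hω').2.2
        have h3 : fl (d.e m) (d.z ω') = g := h2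
        have h4 := fl_div (l := d.e m) (l' := d.e (m + 1)) (d.e_mono (by omega)) (d.z ω')
        have h5 : d.e (m + 1) - d.e m = d.R := by
          rw [d.e_succ]
          omega
        rw [h5, h3] at h4
        have hpos : (0 : ℤ) < ((2 ^ d.R : ℕ) : ℤ) := by positivity
        rw [Finset.mem_Ico]
        have h6 := Int.mul_ediv_add_emod (fl (d.e (m + 1)) (d.z ω')) ((2 ^ d.R : ℕ) : ℤ)
        have h7 := Int.emod_nonneg (fl (d.e (m + 1)) (d.z ω')) hpos.ne'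
        have h8 := Int.emod_lt_of_pos (fl (d.e (m + 1)) (d.z ω')) hpos
        rw [← h4] at h6
        constructor <;> nlinarith
      have h9 := Finset.card_le_card hsub
      rw [Int.card_Ico, add_sub_cancel_left, Int.toNat_natCast] at h9
      have h10 : (((univ.filter (fun ω' => d.μ ω' ≠ 0 ∧ d.gz m ω' = g)).image
          (fun ω => fl (d.e (m + 1)) (d.z ω))).card : ℝ) ≤ 2 ^ d.R := by exact_mod_cast h9
      exact (ke_card _ _ _ _ _ _ _).le.trans h10)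
  rw [b2, d.ms] at b3
  -- sum of the two parts
  have c1 : ∑ ω, ν ω * (1 / 2 * Real.logb 2 (p * ((T (d.g0 m ω)).card + 1)) -
          LH d.μ (fun ω => fl (d.e (m + 1)) (d.z ω)) (d.gz m) ω)
      = (∑ ω, ν ω * (1 / 2 * Real.logb 2 (p * ((T (d.g0 m ω)).card + 1))))
        - ((∑ ω, ν ω * (LH d.μ (fun ω => fl (d.e (m + 1)) (d.z ω)) (d.gz m) ω + 1)) - mass ν) := by
    unfold mass
    rw [← Finset.sum_sub_distrib, ← Finset.sum_sub_distrib]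
    exact Finset.sum_congr rfl fun ω _ => by ring
  rw [c1]
  nlinarith

/-- information on all the data -/
noncomputable def Ia (M : ℕ) : ℝ :=
  CH d.μ (fun ω => fl (d.e M) (d.z ω)) (d.gz 0) -
      CH d.μ (fun ω => fl (d.e M) (d.z ω)) (fun ω => (d.AF M ω, d.gz 0 ω))

/-- **Kolmogorov-Rogozin growth, own conditions** -/
theorem growth (M : ℕ) {p : ℝ} (hp : 0 < p) (hp1 : p ≤ 1)
    (E : ℕ → ℤ × γ × (Fin (4 ^ d.n0) → β) → Prop)
    (T : ℕ → ℤ × γ × (Fin (4 ^ d.n0) → β) → Finset (Fin (4 ^ d.n0)))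
    (hT : ∀ m < M, d.NA p (E m) (T m) m) :
    ∑ m ∈ range M, ∑ ω, res d.μ (fun ω => E m (d.g0 m ω)) ω *
        (1 / 2 * Real.logb 2 (p * ((T m (d.g0 m ω)).card + 1)) -
          LH d.μ (fun ω => fl (d.e (m + 1)) (d.z ω)) (d.gz m) ω) ≤
      14 * M + 4 * d.Th (d.s (M + 1)) + (((d.R : ℝ) + 1) ^ 2 + 1) * d.Ia M +
      (CH d.μ (fun ω => fl (d.e M) (d.zN ω)) (fun ω => (fl (d.e 0) (d.zN ω), d.f ω)) -
        CH d.μ (fun ω => fl (d.e M) (d.z ω)) (d.gz 0)) := by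
  have h1 := Finset.sum_le_sum (fun m (hm : m ∈ range M) =>
    d.tile m M (Finset.mem_range.1 hm) hp hp1 (E m) (T m) (hT m (Finset.mem_range.1 hm)))
  refine h1.trans ?_
  rw [Finset.sum_add_distrib, Finset.sum_add_distrib, Finset.sum_add_distrib, ← Finset.mul_sum,
    ← Finset.mul_sum, Finset.sum_sub_distrib, Finset.sum_sub_distrib, Finset.sum_const,
    Finset.card_range, nsmul_eq_mul]
  have href : ∀ (y : Ω → ℝ) (m : ℕ) (ω ω' : Ω), d.μ ω ≠ 0 → d.μ ω' ≠ 0 →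
      fl (d.e (m + 1)) (y ω) = fl (d.e (m + 1)) (y ω') → fl (d.e m) (y ω) = fl (d.e m) (y ω') :=
    fun y m ω ω' _ _ h => fl_ref (d.e_mono (by omega)) h
  have t1 := ch_tel d.μ (fun m ω => fl (d.e m) (d.z ω)) (fun _ => ()) (href d.z) M
  have t2 := ch_tel d.μ (fun m ω => fl (d.e m) (d.zN ω)) d.f (href d.zN) M
  have t3 := ch_tel d.μ (fun m ω => fl (d.e m) (d.z ω)) (fun ω => d.AF M ω)
    (href d.z) M
  have t4 : ∀ m m' : ℕ, CH d.μ (fun ω => fl (d.e m') (d.z ω))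
      (fun ω => (fl (d.e m) (d.z ω), d.AF M ω))
      = CH d.μ (fun ω => fl (d.e m') (d.z ω)) (fun ω => (d.AF M ω, d.gz m ω)) := by
    intro m m'
    apply ch_congr_right
    intro ω ω' _ _
    constructor
    · intro h
      exact Prod.ext (congrArg Prod.snd h) (congrArg Prod.fst h)
    · intro h
      exact Prod.ext (congrArg Prod.snd h) (congrArg Prod.fst h)
  have t4' : ∀ m m' : ℕ, CH d.μ (fun ω => fl (d.e m') (d.z ω))
      (fun ω => (fl (d.e m) (d.z ω), ()))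
      = CH d.μ (fun ω => fl (d.e m') (d.z ω)) (d.gz m) := by
    intro m m'
    apply ch_congr_right
    intro ω ω' _ _
    unfold gz
    rw [Prod.mk.injEq]
    exact and_iff_left rfl
  rw [t4 0 M, Finset.sum_congr rfl (fun m _ => t4 m (m + 1))] at t3
  rw [t4' 0 M, Finset.sum_congr rfl (fun m _ => t4' m (m + 1))] at t1
  rw [t2, t3, t1]
  have t7 := d.sum_TL M
  have t9 : CH d.μ (fun ω => fl (d.e M) (d.z ω)) (d.gz 0) -
      CH d.μ (fun ω => fl (d.e M) (d.z ω)) (fun ω => (d.AF M ω, d.gz 0 ω)) = d.Ia M := rfl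
  rw [t9]
  linarith

end KE

end Pool.Agent.Helper61.GL
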