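import Pool.Agent.Helper61.GL.KRG

/-!
# Kolmogorov-Rogozin growth, final theorem
-/

set_option autoImplicit false

namespace Pool.Agent.Helper61.GL

open Finset Pool.Agent.Helper69.RK

theorem krg_card {α β : Type} (i1 i2 : DecidableEq β) (p : α → Prop) (j1 j2 : DecidablePred p) (f : α → β)
    (s : Finset α) : ((@Finset.image α β i1 f (@Finset.filter α p j1 s)).card : ℝ) =
      (@Finset.image α β i2 f (@Finset.filter α p j2 s)).card := by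
  rw [Subsingleton.elim i1 i2, Subsingleton.elim j1 j2]

namespace KD

variable {Ω γ α β : Type} [Fintype Ω] (d : KD Ω γ α β)

theorem C_s (m : ℕ) {ω ω' : Ω} (hf : d.f ω = d.f ω') {l : ℕ} (h : d.s m ≤ l)
    (hC : d.C l ω = d.C l ω') : d.C (d.s m) ω = d.C (d.s m) ω' := d.C_ref h hf hC

/-- the increment is nearly constant on the cells of all the data -/
theorem incr (m M : ℕ) (hm : m < M) {ω ω' : Ω} (hf : d.f ω = d.f ω')
    (hC : d.C (d.s (M + 1)) ω = d.C (d.s (M + 1)) ω') :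
    |((2 : ℝ) ^ d.e (m + 1) * d.zN ω - 2 ^ d.e (m + 1) * d.zN ω') -
      ((2 : ℝ) ^ d.e (m + 1) * d.z ω - 2 ^ d.e (m + 1) * d.z ω')| ≤ 1 := by
  have e1 : ((2 : ℝ) ^ d.e (m + 1) * d.zN ω - 2 ^ d.e (m + 1) * d.zN ω') -
      ((2 : ℝ) ^ d.e (m + 1) * d.z ω - 2 ^ d.e (m + 1) * d.z ω')
      = 2 ^ d.e (m + 1) * ∑ i, (d.X i (d.f ω) (d.A i ω) - d.X i (d.f ω) (d.A i ω')) := by
    unfold zN
    rw [Finset.sum_sub_distrib, hf]
    ring
  rw [e1, abs_mul, abs_of_pos (by positivity)]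
  have h1 : |∑ i, (d.X i (d.f ω) (d.A i ω) - d.X i (d.f ω) (d.A i ω'))|
      ≤ (4 : ℝ) ^ d.n0 * (2 ^ d.κ / 2 ^ d.s (M + 1)) := by
    refine (Finset.abs_sum_le_sum_abs _ _).trans ?_
    calc ∑ i, |d.X i (d.f ω) (d.A i ω) - d.X i (d.f ω) (d.A i ω')|
        ≤ ∑ _i : Fin (4 ^ d.n0), ((2 : ℝ) ^ d.κ / 2 ^ d.s (M + 1)) := by
          refine Finset.sum_le_sum fun i _ => d.reg i (d.f ω) _ _ _ ?_
          have h2 : d.cl (d.f ω) (d.s (M + 1)) (d.A i ω) = d.cl (d.f ω') (d.s (M + 1)) (d.A i ω') :=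
            congrFun hC i
          rw [← hf] at h2
          exact h2
      _ = (4 : ℝ) ^ d.n0 * (2 ^ d.κ / 2 ^ d.s (M + 1)) := by
          rw [Finset.sum_const, Finset.card_univ, Fintype.card_fin, nsmul_eq_mul]
          push_cast
          ring
  have hle : d.e (m + 1) + (2 * d.n0 + d.κ) ≤ d.s (M + 1) := by
    have h3 : d.e (m + 1) + d.R ≤ d.e (M + 1) := by
      rw [← d.e_succ (m + 1)]
      exact d.e_mono (by omega)
    unfold s
    unfold R at h3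
    omega
  have h4 : (2 : ℝ) ^ (d.e (m + 1) + (2 * d.n0 + d.κ)) ≤ 2 ^ d.s (M + 1) :=
    pow_le_pow_right₀ (by norm_num) hle
  calc (2 : ℝ) ^ d.e (m + 1) * |∑ i, (d.X i (d.f ω) (d.A i ω) - d.X i (d.f ω) (d.A i ω'))|
      ≤ (2 : ℝ) ^ d.e (m + 1) * ((4 : ℝ) ^ d.n0 * (2 ^ d.κ / 2 ^ d.s (M + 1))) :=
        mul_le_mul_of_nonneg_left h1 (by positivity)
    _ = (2 : ℝ) ^ (d.e (m + 1) + (2 * d.n0 + d.κ)) / 2 ^ d.s (M + 1) := by
        rw [pow_add, pow_add, pow_mul]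
        norm_num
        ring
    _ ≤ 1 := by
        rw [div_le_one (by positivity)]
        exact h4

/-- the same at the start of the tile -/
theorem incr0 (m M : ℕ) (hm : m < M) {ω ω' : Ω} (hf : d.f ω = d.f ω')
    (hC : d.C (d.s (M + 1)) ω = d.C (d.s (M + 1)) ω') :
    |((2 : ℝ) ^ d.e m * d.zN ω - 2 ^ d.e m * d.zN ω') -
      ((2 : ℝ) ^ d.e m * d.z ω - 2 ^ d.e m * d.z ω')| ≤ 1 := by
  have h := d.incr m M hm hf hC
  have hR1 : (1 : ℝ) ≤ 2 ^ d.R := one_le_pow₀ (by norm_num)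
  have e1 : ((2 : ℝ) ^ d.e (m + 1) * d.zN ω - 2 ^ d.e (m + 1) * d.zN ω') -
      ((2 : ℝ) ^ d.e (m + 1) * d.z ω - 2 ^ d.e (m + 1) * d.z ω')
      = 2 ^ d.R * (((2 : ℝ) ^ d.e m * d.zN ω - 2 ^ d.e m * d.zN ω') -
      ((2 : ℝ) ^ d.e m * d.z ω - 2 ^ d.e m * d.z ω')) := by
    rw [d.e_succ, pow_add]
    ring
  rw [e1, abs_mul, abs_of_pos (by positivity)] at h
  have h2 := mul_le_mul_of_nonneg_right hR1 (abs_nonneg (((2 : ℝ) ^ d.e m * d.zN ω -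
    2 ^ d.e m * d.zN ω') - ((2 : ℝ) ^ d.e m * d.z ω - 2 ^ d.e m * d.z ω')))
  linarith

/-- the complement of the event -/
theorem tile_compl (m M : ℕ) (hm : m < M) (ν : Ω → ℝ) (hν : ∀ ω, 0 ≤ ν ω) :
    CH ν (fun ω => fl (d.e (m + 1)) (d.z ω))
        (fun ω => (d.C (d.s (M + 1)) ω, d.gz m ω)) - 6 * mass ν ≤
      CH ν (fun ω => fl (d.e (m + 1)) (d.zN ω))
        (fun ω => (fl (d.e m) (d.zN ω), (d.C (d.s (M + 1)) ω, d.gz m ω))) := by
  have h1 := ch_near ν hν (fun ω => fl (d.e (m + 1)) (d.z ω)) (fun ω => fl (d.e (m + 1)) (d.zN ω))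
    (fun ω => fl (d.e m) (d.z ω)) (fun ω => fl (d.e m) (d.zN ω))
    (fun ω => (d.C (d.s (M + 1)) ω, d.gz m ω))
    (fun ω ω' _ _ hG hu => by
      unfold gz at hG
      rw [Prod.mk.injEq, Prod.mk.injEq] at hG
      have h2 := d.incr m M hm hG.2.2 hG.1
      have h3 := floor_eq_near hu
      have h4 := floor_near ((2 : ℝ) ^ d.e (m + 1) * d.z ω) ((2 : ℝ) ^ d.e (m + 1) * d.z ω')
      have t1 := abs_sub ((2 : ℝ) ^ d.e (m + 1) * d.zN ω - 2 ^ d.e (m + 1) * d.zN ω')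
        (((2 : ℝ) ^ d.e (m + 1) * d.zN ω - 2 ^ d.e (m + 1) * d.zN ω') -
          ((2 : ℝ) ^ d.e (m + 1) * d.z ω - 2 ^ d.e (m + 1) * d.z ω'))
      rw [sub_sub_cancel] at t1
      unfold fl
      linarith)
    (fun ω ω' _ _ hG hu => by
      unfold gz at hG
      rw [Prod.mk.injEq, Prod.mk.injEq] at hG
      have h2 := d.incr0 m M hm hG.2.2 hG.1
      have h3 := floor_eq_near hu
      have h4 := floor_near ((2 : ℝ) ^ d.e m * d.zN ω) ((2 : ℝ) ^ d.e m * d.zN ω')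
      have t1 := abs_add_le (((2 : ℝ) ^ d.e m * d.zN ω - 2 ^ d.e m * d.zN ω') -
          ((2 : ℝ) ^ d.e m * d.z ω - 2 ^ d.e m * d.z ω'))
          ((2 : ℝ) ^ d.e m * d.z ω - 2 ^ d.e m * d.z ω')
      rw [sub_add_cancel] at t1
      unfold fl
      linarith)
  have h5 : CH ν (fun ω => fl (d.e (m + 1)) (d.z ω))
      (fun ω => (fl (d.e m) (d.z ω), (d.C (d.s (M + 1)) ω, d.gz m ω)))
      = CH ν (fun ω => fl (d.e (m + 1)) (d.z ω)) (fun ω => (d.C (d.s (M + 1)) ω, d.gz m ω)) := by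
    apply ch_congr_right
    intro ω ω' _ _
    unfold gz
    rw [Prod.mk.injEq, Prod.mk.injEq, Prod.mk.injEq]
    tauto
  rw [h5] at h1
  linarith

/-- one tile -/
theorem tile (m M : ℕ) (hm : m < M) {p : ℝ} (hp : 0 < p) (hp1 : p ≤ 1)
    (E : ℤ × γ × (Fin (4 ^ d.n0) → β) → Prop)
    (T : ℤ × γ × (Fin (4 ^ d.n0) → β) → Finset (Fin (4 ^ d.n0))) (hT : d.NA p E T m) :
    ∑ ω, res d.μ (fun ω => E (d.g0 m ω)) ω *
        (1 / 2 * Real.logb 2 (p * ((T (d.g0 m ω)).card + 1)) -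
          LH d.μ (fun ω => fl (d.e (m + 1)) (d.z ω)) (d.gz m) ω) ≤
      14 + 2 * d.TL (d.s m) (d.F m) +
      (((d.R : ℝ) + 1) ^ 2 + 1) * (CH d.μ (fun ω => fl (d.e (m + 1)) (d.z ω)) (d.gz m) -
        CH d.μ (fun ω => fl (d.e (m + 1)) (d.z ω)) (fun ω => (d.C (d.s (M + 1)) ω, d.gz m ω))) +
      (CH d.μ (fun ω => fl (d.e (m + 1)) (d.zN ω)) (fun ω => (fl (d.e m) (d.zN ω), d.f ω)) -
        CH d.μ (fun ω => fl (d.e (m + 1)) (d.z ω)) (d.gz m)) := by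
  classical
  set ν := res d.μ (fun ω => E (d.g0 m ω)) with hν
  set ν' := res d.μ (fun ω => ¬ E (d.g0 m ω)) with hν'
  have hν0 : ∀ ω, 0 ≤ ν ω := e4_res_nonneg _ _ d.nn
  have hν'0 : ∀ ω, 0 ≤ ν' ω := e4_res_nonneg _ _ d.nn
  have hms : mass ν + mass ν' = 1 := by
    rw [← d.ms]
    unfold mass
    rw [← Finset.sum_add_distrib]
    exact Finset.sum_congr rfl fun ω _ => (e4_res_add d.μ (fun ω => E (d.g0 m ω)) ω).symm
  have hm1 : 0 ≤ mass ν := Finset.sum_nonneg fun ω _ => hν0 ω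
  have hm2 : 0 ≤ mass ν' := Finset.sum_nonneg fun ω _ => hν'0 ω
  -- claim A
  have a1 := d.tile_event m hp hp1 E T hT
  rw [← hν] at a1
  have a2 := d.tile_compl m M hm ν' hν'0
  have a3 : CH d.μ (fun ω => fl (d.e (m + 1)) (d.zN ω)) (fun ω => (fl (d.e m) (d.zN ω), d.g0 m ω))
      ≤ CH d.μ (fun ω => fl (d.e (m + 1)) (d.zN ω)) (fun ω => (fl (d.e m) (d.zN ω), d.f ω)) :=
    ch_cond d.μ d.nn _ _ _ (fun ω ω' _ _ h => by
      unfold g0 at h
      rw [Prod.mk.injEq, Prod.mk.injEq, Prod.mk.injEq] at h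
      exact Prod.ext h.1 h.2.2.1)
  have a4 := e4_split d.μ (fun ω => fl (d.e (m + 1)) (d.zN ω))
    (fun ω => (fl (d.e m) (d.zN ω), d.g0 m ω)) (fun ω => E (d.g0 m ω))
    (fun ω ω' _ _ h => congrArg E (Prod.ext_iff.1 h).2)
  rw [← hν, ← hν'] at a4
  have a5 : CH ν (fun ω => fl (d.e (m + 1)) (d.zN ω)) (fun ω => (fl (d.e m) (d.zN ω), d.GG (d.s m) ω))
      ≤ CH ν (fun ω => fl (d.e (m + 1)) (d.zN ω)) (fun ω => (fl (d.e m) (d.zN ω), d.g0 m ω)) :=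
    ch_cond ν hν0 _ _ _ (fun ω ω' _ _ h => by
      unfold GG at h
      unfold g0
      rw [Prod.mk.injEq, Prod.mk.injEq, Prod.mk.injEq] at h
      rw [Prod.mk.injEq, Prod.mk.injEq, Prod.mk.injEq]
      exact ⟨h.1, by rw [h.2.1], h.2.2⟩)
  have a6 : CH ν' (fun ω => fl (d.e (m + 1)) (d.zN ω))
        (fun ω => (fl (d.e m) (d.zN ω), (d.C (d.s (M + 1)) ω, d.gz m ω)))
      ≤ CH ν' (fun ω => fl (d.e (m + 1)) (d.zN ω)) (fun ω => (fl (d.e m) (d.zN ω), d.g0 m ω)) :=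
    ch_cond ν' hν'0 _ _ _ (fun ω ω' _ _ h => by
      unfold gz at h
      unfold g0
      rw [Prod.mk.injEq, Prod.mk.injEq, Prod.mk.injEq] at h
      rw [Prod.mk.injEq, Prod.mk.injEq, Prod.mk.injEq]
      exact ⟨h.1, h.2.2.1, h.2.2.2, d.C_s m h.2.2.2 (d.s_mono (by omega)) h.2.1⟩)
  -- claim B
  have b1 := e4_split d.μ (fun ω => fl (d.e (m + 1)) (d.z ω))
    (fun ω => (d.C (d.s (M + 1)) ω, d.gz m ω)) (fun ω => E (d.g0 m ω))
    (fun ω ω' _ _ h => by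
      unfold gz at h
      rw [Prod.mk.injEq, Prod.mk.injEq] at h
      have : d.g0 m ω = d.g0 m ω' := by
        unfold g0
        rw [Prod.mk.injEq, Prod.mk.injEq]
        exact ⟨h.2.1, h.2.2, d.C_s m h.2.2 (d.s_mono (by omega)) h.1⟩
      exact congrArg E this)
  rw [← hν, ← hν'] at b1
  set E'' : (Fin (4 ^ d.n0) → β) × (ℤ × γ) → Prop := fun g =>
    ∃ ω, d.μ ω ≠ 0 ∧ d.C (d.s (M + 1)) ω = g.1 ∧ d.gz m ω = g.2 ∧ E (d.g0 m ω) with hE''
  have b2 : res d.μ (fun ω => E'' (d.C (d.s (M + 1)) ω, d.gz m ω)) = ν := by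
    rw [hν]
    apply res_congr
    intro ω h0
    constructor
    · rintro ⟨ω', h1, h2, h3, h4⟩
      have : d.g0 m ω = d.g0 m ω' := by
        have h5 := Prod.ext_iff.1 h3
        change fl (d.e m) (d.z ω') = fl (d.e m) (d.z ω) ∧ d.f ω' = d.f ω at h5
        unfold g0
        rw [Prod.mk.injEq, Prod.mk.injEq]
        exact ⟨h5.1.symm, h5.2.symm, d.C_s m h5.2.symm (d.s_mono (by omega)) h2.symm⟩
      rw [this]
      exact h4
    · intro h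
      exact ⟨ω, h0, rfl, rfl, h⟩
  have b3 := ch_event_le d.μ d.nn (fun ω => fl (d.e (m + 1)) (d.z ω)) (d.gz m)
    (fun ω => d.C (d.s (M + 1)) ω) E'' d.R
    (fun g => by
      have hsub : (univ.filter (fun ω' => d.μ ω' ≠ 0 ∧ d.gz m ω' = g)).image
          (fun ω => fl (d.e (m + 1)) (d.z ω)) ⊆
          Finset.Ico (g.1 * ((2 ^ d.R : ℕ) : ℤ)) (g.1 * ((2 ^ d.R : ℕ) : ℤ) + ((2 ^ d.R : ℕ) : ℤ)) := by
        intro c hc
        obtain ⟨ω', hω', rfl⟩ := Finset.mem_image.1 hc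
        have h2 := (Finset.mem_filter.1 hω').2.2
        have h3 : fl (d.e m) (d.z ω') = g.1 := congrArg Prod.fst h2
        have h4 := fl_div (l := d.e m) (l' := d.e (m + 1)) (d.e_mono (by omega)) (d.z ω')
        have h5 : d.e (m + 1) - d.e m = d.R := by
          rw [d.e_succ]
          omega
        rw [h5, h3] at h4
        have hpos : (0 : ℤ) < ((2 ^ d.R : ℕ) : ℤ) := by positivity
        rw [Finset.mem_Ico]
        have h6 := Int.mul_ediv_add_emod (fl (d.e (m + 1)) (d.z ω')) ((2 ^ d.R : ℕ) : ℤ)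
        have h7 := Int.emod_nonneg (fl (d.e (m + 1)) (d.z ω')) hpos.ne'
        have h8 := Int.emod_lt_of_pos (fl (d.e (m + 1)) (d.z ω')) hpos
        rw [← h4] at h6
        constructor <;> nlinarith
      have h9 := Finset.card_le_card hsub
      rw [Int.card_Ico, add_sub_cancel_left, Int.toNat_natCast] at h9
      have h10 : (((univ.filter (fun ω' => d.μ ω' ≠ 0 ∧ d.gz m ω' = g)).image
          (fun ω => fl (d.e (m + 1)) (d.z ω))).card : ℝ) ≤ 2 ^ d.R := by exact_mod_cast h9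
      exact (krg_card _ _ _ _ _ _ _).le.trans h10)
  rw [b2, d.ms] at b3
  -- sum of the two parts
  have c1 : ∑ ω, ν ω * (1 / 2 * Real.logb 2 (p * ((T (d.g0 m ω)).card + 1)) -
          LH d.μ (fun ω => fl (d.e (m + 1)) (d.z ω)) (d.gz m) ω)
      = (∑ ω, ν ω * (1 / 2 * Real.logb 2 (p * ((T (d.g0 m ω)).card + 1))))
        - ((∑ ω, ν ω * (LH d.μ (fun ω => fl (d.e (m + 1)) (d.z ω)) (d.gz m) ω + 1)) - mass ν) := by
    unfold mass
    rw [← Finset.sum_sub_distrib, ← Finset.sum_sub_distrib]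
    exact Finset.sum_congr rfl fun ω _ => by ring
  rw [c1]
  nlinarith

/-- information on the cells of all the data -/
theorem info_le (l M : ℕ) :
    CH d.μ (fun ω => fl (d.e M) (d.z ω)) (d.gz 0) -
      CH d.μ (fun ω => fl (d.e M) (d.z ω)) (fun ω => (d.C l ω, d.gz 0 ω)) ≤ d.Th l := by
  rw [ch_symm]
  unfold Th
  have h1 : CH d.μ (fun ω => d.C l ω) (d.gz 0) ≤ CH d.μ (fun ω => d.C l ω) d.f :=
    ch_cond d.μ d.nn _ _ _ (fun ω ω' _ _ h => (Prod.ext_iff.1 h).2)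
  have h2 : CH d.μ (fun ω => d.C l ω) d.f ≤ ∑ i, CH d.μ (fun ω => d.cl (d.f ω) l (d.A i ω)) d.f :=
    ch_pi_le d.μ d.nn (fun i ω => d.cl (d.f ω) l (d.A i ω)) d.f (fun _ g => g)
  have h3 : CH d.μ (fun ω => d.C l ω) (fun ω => (d.z ω, d.f ω)) ≤
      CH d.μ (fun ω => d.C l ω) (fun ω => (fl (d.e M) (d.z ω), d.gz 0 ω)) :=
    ch_cond d.μ d.nn _ _ _ (fun ω ω' _ _ h => by
      rw [Prod.mk.injEq] at h
      unfold gz
      rw [Prod.mk.injEq, Prod.mk.injEq]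
      exact ⟨by rw [h.1], by rw [h.1], h.2⟩)
  linarith

/-- **Kolmogorov-Rogozin growth** -/
theorem growth (M : ℕ) {p : ℝ} (hp : 0 < p) (hp1 : p ≤ 1)
    (E : ℕ → ℤ × γ × (Fin (4 ^ d.n0) → β) → Prop)
    (T : ℕ → ℤ × γ × (Fin (4 ^ d.n0) → β) → Finset (Fin (4 ^ d.n0)))
    (hT : ∀ m < M, d.NA p (E m) (T m) m) :
    ∑ m ∈ range M, ∑ ω, res d.μ (fun ω => E m (d.g0 m ω)) ω *
        (1 / 2 * Real.logb 2 (p * ((T m (d.g0 m ω)).card + 1)) -
          LH d.μ (fun ω => fl (d.e (m + 1)) (d.z ω)) (d.gz m) ω) ≤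
      14 * M + (((d.R : ℝ) + 1) ^ 2 + 5) * d.Th (d.s (M + 1)) +
      (CH d.μ (fun ω => fl (d.e M) (d.zN ω)) (fun ω => (fl (d.e 0) (d.zN ω), d.f ω)) -
        CH d.μ (fun ω => fl (d.e M) (d.z ω)) (d.gz 0)) := by
  have h1 := Finset.sum_le_sum (fun m (hm : m ∈ range M) =>
    d.tile m M (Finset.mem_range.1 hm) hp hp1 (E m) (T m) (hT m (Finset.mem_range.1 hm)))
  refine h1.trans ?_
  rw [Finset.sum_add_distrib, Finset.sum_add_distrib, Finset.sum_add_distrib, ← Finset.mul_sum,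
    ← Finset.mul_sum, Finset.sum_sub_distrib, Finset.sum_sub_distrib, Finset.sum_const,
    Finset.card_range, nsmul_eq_mul]
  have href : ∀ (y : Ω → ℝ) (m : ℕ) (ω ω' : Ω), d.μ ω ≠ 0 → d.μ ω' ≠ 0 →
      fl (d.e (m + 1)) (y ω) = fl (d.e (m + 1)) (y ω') → fl (d.e m) (y ω) = fl (d.e m) (y ω') :=
    fun y m ω ω' _ _ h => fl_ref (d.e_mono (by omega)) h
  have t1 := ch_tel d.μ (fun m ω => fl (d.e m) (d.z ω)) d.f (href d.z) M
  have t2 := ch_tel d.μ (fun m ω => fl (d.e m) (d.zN ω)) d.f (href d.zN) M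
  have t3 := ch_tel d.μ (fun m ω => fl (d.e m) (d.z ω)) (fun ω => (d.C (d.s (M + 1)) ω, d.f ω))
    (href d.z) M
  have t4 : ∀ m m' : ℕ, CH d.μ (fun ω => fl (d.e m') (d.z ω))
      (fun ω => (fl (d.e m) (d.z ω), (d.C (d.s (M + 1)) ω, d.f ω)))
      = CH d.μ (fun ω => fl (d.e m') (d.z ω)) (fun ω => (d.C (d.s (M + 1)) ω, d.gz m ω)) := by
    intro m m'
    apply ch_congr_right
    intro ω ω' _ _
    unfold gz
    rw [Prod.mk.injEq, Prod.mk.injEq, Prod.mk.injEq, Prod.mk.injEq]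
    tauto
  rw [t4 0 M, Finset.sum_congr rfl (fun m _ => t4 m (m + 1))] at t3
  have t5 : ∑ m ∈ range M, CH d.μ (fun ω => fl (d.e (m + 1)) (d.z ω)) (d.gz m)
      = CH d.μ (fun ω => fl (d.e M) (d.z ω)) (d.gz 0) := t1
  rw [t2, t3, t5]
  have t6 := d.info_le (d.s (M + 1)) M
  have t7 := d.sum_TL M
  have t8 := mul_le_mul_of_nonneg_left t6 (by positivity : (0 : ℝ) ≤ ((d.R : ℝ) + 1) ^ 2 + 1)
  linarith

end KD

end Pool.Agent.Helper61.GL
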