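import Pool.Agent.Helper61.GL.Push

/-!
# Kolmogorov-Rogozin along a stationary walk, pathwise form
-/

set_option autoImplicit false

namespace Pool.Agent.Helper61.GL

open Finset Pool.Agent.Helper69.RK

/-- the block and the walk: `μ` the law of one block `(z, q, ζ)`, `μ'` the law of the walk -/
structure WKD (Ω Ω' γ α β : Type) [Fintype Ω] [Fintype Ω'] where
  μ : Ω → ℝ
  nn : ∀ ω, 0 ≤ μ ω
  ms : mass μ = 1
  μ' : Ω' → ℝ
  nn' : ∀ w, 0 ≤ μ' w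
  ms' : mass μ' = 1
  ζ : Ω → γ
  z : Ω → ℝ
  q : Ω → α
  X : γ → α → ℝ
  n0 : ℕ
  κ : ℕ
  b : ℕ
  e0 : ℕ
  cl : γ → ℕ → α → β
  ref : ∀ g l l' a a', l ≤ l' → cl g l' a = cl g l' a' → cl g l a = cl g l a'
  reg : ∀ g l a a', cl g l a = cl g l a' → |X g a - X g a'| ≤ 2 ^ κ / 2 ^ l
  π : Fin (4 ^ n0) → Ω' → Ω
  i0 : Fin (4 ^ n0)
  hπ : ∀ i, push (π i) μ' = μ
  πe : Ω' → Ω
  hπe : push πe μ' = μ
  hζ : ∀ w, μ' w ≠ 0 → ∀ i, ζ (π i w) = ζ (π i0 w)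
  hζe : ∀ w, μ' w ≠ 0 → ζ (πe w) = ζ (π i0 w)
  sg : Fin (4 ^ n0) → ℝ
  hsg : ∀ i, sg i = 1 ∨ sg i = -1
  hz : ∀ w, μ' w ≠ 0 → z (πe w) = z (π i0 w) + ∑ i, sg i * X (ζ (π i w)) (q (π i w))
  ε : ℝ
  hTC : (∑ i, CH μ' (fun w => q (π i w)) (fun w => ζ (π i0 w))) -
    CH μ' (fun w => fun i => q (π i w)) (fun w => (z (π i0 w), ζ (π i0 w))) ≤ ε
  hsel : ∀ (B N : Ω → Prop) (δ : ℝ), 0 < δ → δ ≤ mass (res μ (fun ω => B ω ∧ N ω)) →
    δ ^ 2 / 8 ≤ mass (res μ' (fun w => B (π i0 w) ∧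
      ∃ S : Finset (Fin (4 ^ n0)), (∀ i ∈ S, N (π i w)) ∧ δ / 8 * 4 ^ n0 ≤ S.card))

namespace WKD

variable {Ω Ω' γ α β : Type} [Fintype Ω] [Fintype Ω'] (D : WKD Ω Ω' γ α β)

theorem abs_sg (i : Fin (4 ^ D.n0)) : |D.sg i| = 1 := by
  rcases D.hsg i with h | h <;> rw [h] <;> simp

theorem sg_sq (i : Fin (4 ^ D.n0)) : D.sg i * D.sg i = 1 := by
  rcases D.hsg i with h | h <;> rw [h] <;> simp

/-- the data of the growth theorem -/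
noncomputable abbrev kd : KD Ω' γ α β where
  μ := D.μ'
  nn := D.nn'
  ms := D.ms'
  f := fun w => D.ζ (D.π D.i0 w)
  z := fun w => D.z (D.π D.i0 w)
  n0 := D.n0
  κ := D.κ
  b := D.b
  e0 := D.e0
  A := fun i w => D.q (D.π i w)
  X := fun i g a => D.sg i * D.X g a
  cl := D.cl
  ref := D.ref
  reg := fun i g l a a' h => by
    rw [← mul_sub, abs_mul, D.abs_sg, one_mul]
    exact D.reg g l a a' h

/-- the length of a tile -/
def R : ℕ := D.b + D.n0 + D.κ + 2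
def e (m : ℕ) : ℕ := D.e0 + m * D.R
def s (m : ℕ) : ℕ := D.e m + (D.n0 + D.κ + 2)

theorem e_eq (m : ℕ) : D.kd.e m = D.e m := rfl
theorem s_eq (m : ℕ) : D.kd.s m = D.s m := rfl

/-- entropy of the next `R` digits of `z` -/
noncomputable def lz (m : ℕ) (ω : Ω) : ℝ :=
  LH D.μ (fun ω => fl (D.e (m + 1)) (D.z ω)) (fun ω => (fl (D.e m) (D.z ω), D.ζ ω)) ω

/-- the own law of the increment is not atomic -/
def na (p : ℝ) (m : ℕ) (ω : Ω) : Prop :=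
  ∀ c : ℝ, p ≤ ∑ ω', cw D.μ (fun ω'' => (D.ζ ω'', D.cl (D.ζ ω'') (D.s m) (D.q ω''))) ω ω' *
    e1_ind (2 ≤ |(2 : ℝ) ^ D.e (m + 1) * D.X (D.ζ ω) (D.q ω') - c|)

theorem supp (i : Fin (4 ^ D.n0)) {w : Ω'} (h : D.μ' w ≠ 0) : D.μ (D.π i w) ≠ 0 := by
  classical
  rw [← D.hπ i]
  unfold push
  intro h1
  rw [Finset.sum_eq_zero_iff_of_nonneg] at h1
  · have := h1 w (Finset.mem_univ _)
    rw [if_pos rfl] at this
    exact h this
  · intro w' _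
    split_ifs
    · exact D.nn' w'
    · exact le_rfl

theorem lz_eq (m : ℕ) (w : Ω') :
    LH D.kd.μ (fun w => fl (D.kd.e (m + 1)) (D.kd.z w)) (D.kd.gz m) w = D.lz m (D.π D.i0 w) := by
  unfold lz
  have h := push_LH (D.π D.i0) D.μ' (fun ω => fl (D.e (m + 1)) (D.z ω))
    (fun ω => (fl (D.e m) (D.z ω), D.ζ ω)) w
  rw [D.hπ] at h
  exact h.symm

theorem Th_le (l : ℕ) : D.kd.Th l ≤ D.ε := by
  refine le_trans ?_ D.hTC
  unfold KD.Th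
  have h1 : ∀ i, CH D.kd.μ (D.kd.A i) D.kd.f
      = CH D.kd.μ (fun ω => D.kd.cl (D.kd.f ω) l (D.kd.A i ω)) D.kd.f
        + CH D.kd.μ (D.kd.A i) (fun ω => (D.kd.cl (D.kd.f ω) l (D.kd.A i ω), D.kd.f ω)) := by
    intro i
    have := ch_diff D.kd.μ (D.kd.A i) (fun ω => D.kd.cl (D.kd.f ω) l (D.kd.A i ω)) D.kd.f
      (fun ω ω' _ _ hf hA => by rw [hf, hA])
    linarith
  have h2 := ch_diff D.kd.μ (fun ω => fun i => D.kd.A i ω) (fun ω => D.kd.C l ω)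
    (fun ω => (D.kd.z ω, D.kd.f ω)) (fun ω ω' _ _ hG hA => by
      have hf := (Prod.ext_iff.1 hG).2
      funext i
      have hA' := congrFun hA i
      change D.kd.cl (D.kd.f ω) l (D.kd.A i ω) = D.kd.cl (D.kd.f ω') l (D.kd.A i ω')
      have hf' : D.kd.f ω = D.kd.f ω' := hf
      have hA'' : D.kd.A i ω = D.kd.A i ω' := hA'
      rw [hf', hA''])
  have h3 := ch_pi_le D.kd.μ D.kd.nn D.kd.A (fun ω => (D.kd.C l ω, (D.kd.z ω, D.kd.f ω)))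
    (fun i g => (g.1 i, g.2.2))
  have h4 : ∀ i, CH D.kd.μ (D.kd.A i)
      (hg (fun i g => (g.1 i, g.2.2)) (fun ω => (D.kd.C l ω, (D.kd.z ω, D.kd.f ω))) i)
      = CH D.kd.μ (D.kd.A i) (fun ω => (D.kd.cl (D.kd.f ω) l (D.kd.A i ω), D.kd.f ω)) := fun i => rfl
  rw [Finset.sum_congr rfl (fun i _ => h4 i)] at h3
  have h5 : (∑ i, CH D.μ' (fun w => D.q (D.π i w)) (fun w => D.ζ (D.π D.i0 w)))
      = ∑ i, CH D.kd.μ (D.kd.A i) D.kd.f := rfl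
  have h6 : CH D.μ' (fun w => fun i => D.q (D.π i w)) (fun w => (D.z (D.π D.i0 w), D.ζ (D.π D.i0 w)))
      = CH D.kd.μ (fun ω => fun i => D.kd.A i ω) (fun ω => (D.kd.z ω, D.kd.f ω)) := rfl
  rw [h5, h6, Finset.sum_congr rfl (fun i _ => h1 i), Finset.sum_add_distrib]
  have h7 : CH D.kd.μ (fun w => fun i => D.kd.A i w) (fun ω => (D.kd.C l ω, (D.kd.z ω, D.kd.f ω)))
    = CH D.kd.μ (fun ω => fun i => D.kd.A i ω) (fun ω => (D.kd.C l ω, (D.kd.z ω, D.kd.f ω))) := rfl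
  linarith

/-- the chosen summands -/
noncomputable def TT (p : ℝ) (m : ℕ) (g : ℤ × γ × (Fin (4 ^ D.n0) → β)) : Finset (Fin (4 ^ D.n0)) := by
  classical
  exact univ.filter (fun i => ∃ w, D.μ' w ≠ 0 ∧ D.ζ (D.π D.i0 w) = g.2.1 ∧
    D.cl (D.ζ (D.π D.i0 w)) (D.s m) (D.q (D.π i w)) = g.2.2 i ∧ D.na p m (D.π i w))

/-- the event -/
def EE (p hB δ : ℝ) (m : ℕ) (g : ℤ × γ × (Fin (4 ^ D.n0) → β)) : Prop :=
  δ ≤ mass (res D.μ (fun ω => D.lz m ω ≤ hB ∧ D.na p m ω)) ∧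
  (∃ w, D.μ' w ≠ 0 ∧ fl (D.e m) (D.z (D.π D.i0 w)) = g.1 ∧ D.ζ (D.π D.i0 w) = g.2.1 ∧
    D.lz m (D.π D.i0 w) ≤ hB) ∧ δ / 8 * 4 ^ D.n0 ≤ (D.TT p m g).card

theorem na_kd (p : ℝ) (m : ℕ) (i : Fin (4 ^ D.n0)) {w w1 : Ω'} (_h0 : D.μ' w ≠ 0) (h1 : D.μ' w1 ≠ 0)
    (hf : D.ζ (D.π D.i0 w1) = D.ζ (D.π D.i0 w))
    (hc : D.cl (D.ζ (D.π D.i0 w1)) (D.s m) (D.q (D.π i w1)) =
      D.cl (D.ζ (D.π D.i0 w)) (D.s m) (D.q (D.π i w))) (hn : D.na p m (D.π i w1)) (c : ℝ) :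
    p ≤ ∑ w' ∈ univ.filter (fun w' => 2 ≤ |(2 : ℝ) ^ D.kd.e (m + 1) *
        D.kd.X i (D.kd.f w) (D.kd.A i w') - c|),
      cw D.kd.μ (fun w'' => (D.kd.f w'', D.kd.cl (D.kd.f w'') (D.kd.s m) (D.kd.A i w''))) w w' := by
  classical
  have h2 := hn (D.sg i * c)
  have h3 := push_cw (D.π i) D.μ' (fun ω'' => (D.ζ ω'', D.cl (D.ζ ω'') (D.s m) (D.q ω''))) w1
    (fun ω' => e1_ind (2 ≤ |(2 : ℝ) ^ D.e (m + 1) * D.X (D.ζ (D.π i w1)) (D.q ω') - D.sg i * c|))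
  rw [D.hπ] at h3
  rw [h3] at h2
  refine h2.trans (le_of_eq ?_)
  rw [Finset.sum_filter]
  refine Finset.sum_congr rfl fun w' _ => ?_
  have h4 := cw_congr_cond D.μ'
    (fun w'' => (D.ζ (D.π i w''), D.cl (D.ζ (D.π i w'')) (D.s m) (D.q (D.π i w''))))
    (fun w'' => (D.kd.f w'', D.kd.cl (D.kd.f w'') (D.kd.s m) (D.kd.A i w'')))
    (fun w2 w3 h2 h3 => by
      rw [D.hζ w2 h2 i, D.hζ w3 h3 i]
      rfl) h1 w'
  have h5 := cw_congr D.kd.μ (fun w'' => (D.kd.f w'', D.kd.cl (D.kd.f w'') (D.kd.s m) (D.kd.A i w'')))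
    (show (fun w'' => (D.kd.f w'', D.kd.cl (D.kd.f w'') (D.kd.s m) (D.kd.A i w''))) w1 =
      (fun w'' => (D.kd.f w'', D.kd.cl (D.kd.f w'') (D.kd.s m) (D.kd.A i w''))) w from
      Prod.ext hf hc) w'
  have h6 : cw D.μ' (fun w'' => (D.kd.f w'', D.kd.cl (D.kd.f w'') (D.kd.s m) (D.kd.A i w''))) w1 w'
    = cw D.kd.μ (fun w'' => (D.kd.f w'', D.kd.cl (D.kd.f w'') (D.kd.s m) (D.kd.A i w''))) w1 w' := rfl
  rw [h4, h6, h5]
  have h7 : |(2 : ℝ) ^ D.e (m + 1) * D.X (D.ζ (D.π i w1)) (D.q (D.π i w')) - D.sg i * c|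
      = |(2 : ℝ) ^ D.kd.e (m + 1) * D.kd.X i (D.kd.f w) (D.kd.A i w') - c| := by
    have e1 : D.kd.X i (D.kd.f w) (D.kd.A i w') = D.sg i * D.X (D.ζ (D.π i w1)) (D.q (D.π i w')) := by
      rw [D.hζ w1 h1 i, hf]
    rw [e1, D.e_eq]
    have e2 : (2 : ℝ) ^ D.e (m + 1) * (D.sg i * D.X (D.ζ (D.π i w1)) (D.q (D.π i w'))) - c
        = D.sg i * ((2 : ℝ) ^ D.e (m + 1) * D.X (D.ζ (D.π i w1)) (D.q (D.π i w')) - D.sg i * c) := by
      have := D.sg_sq i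
      linear_combination c * this
    rw [e2, abs_mul, D.abs_sg, one_mul]
  rw [h7]
  unfold e1_ind
  split_ifs
  · rw [mul_one]
  · rw [mul_zero]

theorem NA_EE (p hB δ : ℝ) (m : ℕ) : D.kd.NA p (D.EE p hB δ m) (D.TT p m) m := by
  classical
  intro w h0 _ i hi c
  unfold TT at hi
  obtain ⟨w1, h1, h2, h3, h4⟩ := (Finset.mem_filter.1 hi).2
  exact D.na_kd p m i h0 h1 h2 h3 h4 c

/-- mass of the event -/
theorem mass_EE (p hB δ : ℝ) (hδ : 0 < δ) (m : ℕ)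
    (h : δ ≤ mass (res D.μ (fun ω => D.lz m ω ≤ hB ∧ D.na p m ω))) :
    δ ^ 2 / 8 ≤ mass (res D.kd.μ (fun w => D.EE p hB δ m (D.kd.g0 m w))) := by
  classical
  refine (D.hsel (fun ω => D.lz m ω ≤ hB) (fun ω => D.na p m ω) δ hδ h).trans ?_
  unfold mass
  refine Finset.sum_le_sum fun w _ => ?_
  by_cases h0 : D.μ' w = 0
  · unfold res
    rw [h0]
    have h00 : D.kd.μ w = 0 := h0
    rw [h00]
    split_ifs <;> exact le_rfl
  by_cases h1 : D.lz m (D.π D.i0 w) ≤ hB ∧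
      ∃ S : Finset (Fin (4 ^ D.n0)), (∀ i ∈ S, D.na p m (D.π i w)) ∧ δ / 8 * 4 ^ D.n0 ≤ S.card
  · have hP : D.EE p hB δ m (D.kd.g0 m w) := by
      obtain ⟨h2, S, h3, h4⟩ := h1
      refine ⟨h, ⟨w, h0, rfl, rfl, h2⟩, h4.trans ?_⟩
      have : S ⊆ D.TT p m (D.kd.g0 m w) := by
        intro i hi
        unfold TT
        rw [Finset.mem_filter]
        exact ⟨Finset.mem_univ _, w, h0, rfl, rfl, h3 i hi⟩
      exact_mod_cast Finset.card_le_card this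
    exact le_of_eq ((e4_res_pos D.μ' (fun w => D.lz m (D.π D.i0 w) ≤ hB ∧
      ∃ S : Finset (Fin (4 ^ D.n0)), (∀ i ∈ S, D.na p m (D.π i w)) ∧ δ / 8 * 4 ^ D.n0 ≤ S.card)
      w h1).trans (e4_res_pos D.kd.μ (fun w => D.EE p hB δ m (D.kd.g0 m w)) w hP).symm)
  · refine le_trans (le_of_eq (e4_res_neg D.μ' (fun w => D.lz m (D.π D.i0 w) ≤ hB ∧
      ∃ S : Finset (Fin (4 ^ D.n0)), (∀ i ∈ S, D.na p m (D.π i w)) ∧ δ / 8 * 4 ^ D.n0 ≤ S.card)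
      w h1)) ?_
    exact e4_res_nonneg _ _ D.kd.nn w

theorem delta_zero (M : ℕ) :
    CH D.kd.μ (fun ω => fl (D.kd.e M) (D.kd.zN ω)) (fun ω => (fl (D.kd.e 0) (D.kd.zN ω), D.kd.f ω)) -
        CH D.kd.μ (fun ω => fl (D.kd.e M) (D.kd.z ω)) (D.kd.gz 0) = 0 := by
  have h1 := push_CH (D.π D.i0) D.μ' (fun ω => fl (D.e M) (D.z ω))
    (fun ω => (fl (D.e 0) (D.z ω), D.ζ ω))
  have h2 := push_CH D.πe D.μ' (fun ω => fl (D.e M) (D.z ω))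
    (fun ω => (fl (D.e 0) (D.z ω), D.ζ ω))
  rw [D.hπ] at h1
  rw [D.hπe] at h2
  have hz : ∀ w, D.μ' w ≠ 0 → D.kd.zN w = D.z (D.πe w) := by
    intro w h
    rw [D.hz w h]
    unfold KD.zN
    change D.z (D.π D.i0 w) + _ = _
    congr 1
    refine Finset.sum_congr rfl fun i _ => ?_
    rw [D.hζ w h i]
  have h3 : CH D.kd.μ (fun ω => fl (D.kd.e M) (D.kd.zN ω))
      (fun ω => (fl (D.kd.e 0) (D.kd.zN ω), D.kd.f ω))
      = CH D.μ' (fun w => fl (D.e M) (D.z (D.πe w)))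
        (fun w => (fl (D.e 0) (D.z (D.πe w)), D.ζ (D.πe w))) := by
    have e1 : CH D.kd.μ (fun ω => fl (D.kd.e M) (D.kd.zN ω))
      (fun ω => (fl (D.kd.e 0) (D.kd.zN ω), D.kd.f ω))
      = CH D.kd.μ (fun w => fl (D.e M) (D.z (D.πe w)))
        (fun ω => (fl (D.kd.e 0) (D.kd.zN ω), D.kd.f ω)) := by
      apply ch_congr_left
      intro w w' h h' _
      rw [hz w h, hz w' h']
      rfl
    rw [e1]
    apply ch_congr_right
    intro w w' h h'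
    rw [hz w h, hz w' h', D.hζe w h, D.hζe w' h']
    rfl
  have h4 : CH D.kd.μ (fun ω => fl (D.kd.e M) (D.kd.z ω)) (D.kd.gz 0)
      = CH D.μ' (fun w => fl (D.e M) (D.z (D.π D.i0 w)))
        (fun w => (fl (D.e 0) (D.z (D.π D.i0 w)), D.ζ (D.π D.i0 w))) := rfl
  rw [h3, h4, ← h1, ← h2, sub_self]

open Classical in
/-- **Kolmogorov-Rogozin, pathwise** -/
theorem krp (M : ℕ) {p hB δ : ℝ} (hp : 0 < p) (hp1 : p ≤ 1) (hδ : 0 < δ)
    (hg : 0 ≤ D.n0 + 1 / 2 * Real.logb 2 (p * δ / 8) - hB) :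
    (((range M).filter (fun m => δ ≤ mass (res D.μ (fun ω => D.lz m ω ≤ hB ∧ D.na p m ω)))).card : ℝ) *
      (δ ^ 2 / 8) * (D.n0 + 1 / 2 * Real.logb 2 (p * δ / 8) - hB) ≤
      14 * M + (((D.R : ℝ) + 1) ^ 2 + 5) * D.ε := by
  have h1 := D.kd.growth M hp hp1 (fun m => D.EE p hB δ m) (fun m => D.TT p m)
    (fun m _ => D.NA_EE p hB δ m)
  rw [D.delta_zero, add_zero] at h1
  have h2 := mul_le_mul_of_nonneg_left (D.Th_le (D.kd.s (M + 1)))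
    (by positivity : (0 : ℝ) ≤ ((D.kd.R : ℝ) + 1) ^ 2 + 5)
  have h3 : (D.kd.R : ℝ) = D.R := rfl
  rw [h3] at h1 h2
  refine le_trans ?_ (h1.trans (by linarith))
  -- lower bound for the sum
  have hn0 : Real.logb 2 ((4 : ℝ) ^ D.n0) = 2 * D.n0 := by
    rw [Real.logb_pow, show (4 : ℝ) = 2 ^ (2 : ℝ) by norm_num, Real.logb_rpow (by norm_num) (by norm_num)]
    ring
  have hterm : ∀ m ∈ range M,
      (if δ ≤ mass (res D.μ (fun ω => D.lz m ω ≤ hB ∧ D.na p m ω)) then (1 : ℝ) else 0) *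
        ((δ ^ 2 / 8) * (D.n0 + 1 / 2 * Real.logb 2 (p * δ / 8) - hB)) ≤
      ∑ w, res D.kd.μ (fun w => D.EE p hB δ m (D.kd.g0 m w)) w *
        (1 / 2 * Real.logb 2 (p * ((D.TT p m (D.kd.g0 m w)).card + 1)) -
          LH D.kd.μ (fun w => fl (D.kd.e (m + 1)) (D.kd.z w)) (D.kd.gz m) w) := by
    intro m _
    have hlow : ∀ w, res D.kd.μ (fun w => D.EE p hB δ m (D.kd.g0 m w)) w *
        (D.n0 + 1 / 2 * Real.logb 2 (p * δ / 8) - hB) ≤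
        res D.kd.μ (fun w => D.EE p hB δ m (D.kd.g0 m w)) w *
        (1 / 2 * Real.logb 2 (p * ((D.TT p m (D.kd.g0 m w)).card + 1)) -
          LH D.kd.μ (fun w => fl (D.kd.e (m + 1)) (D.kd.z w)) (D.kd.gz m) w) := by
      intro w
      by_cases h0 : res D.kd.μ (fun w => D.EE p hB δ m (D.kd.g0 m w)) w = 0
      · rw [h0, zero_mul, zero_mul]
      obtain ⟨h4, h5⟩ := res_ne _ _ h0
      refine mul_le_mul_of_nonneg_left ?_ (e4_res_nonneg _ _ D.kd.nn w)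
      obtain ⟨_, ⟨w1, hw1, hw2, hw3, hw4⟩, h6⟩ := h5
      have h7 : LH D.kd.μ (fun w => fl (D.kd.e (m + 1)) (D.kd.z w)) (D.kd.gz m) w ≤ hB := by
        rw [LH_congr D.kd.μ (fun w => fl (D.kd.e (m + 1)) (D.kd.z w)) (D.kd.gz m)
          (show D.kd.gz m w = D.kd.gz m w1 from Prod.ext hw2.symm hw3.symm), D.lz_eq]
        exact hw4
      have h8 : Real.logb 2 (p * δ / 8) + 2 * D.n0 ≤
          Real.logb 2 (p * ((D.TT p m (D.kd.g0 m w)).card + 1)) := by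
        rw [← hn0, ← Real.logb_mul (by positivity) (by positivity)]
        apply Real.logb_le_logb_of_le (by norm_num) (by positivity)
        have : p * (δ / 8 * 4 ^ D.n0) ≤ p * ((D.TT p m (D.kd.g0 m w)).card + 1) :=
          mul_le_mul_of_nonneg_left (by linarith) hp.le
        calc p * δ / 8 * 4 ^ D.n0 = p * (δ / 8 * 4 ^ D.n0) := by ring
          _ ≤ _ := this
      linarith
    refine le_trans ?_ (Finset.sum_le_sum fun w _ => hlow w)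
    rw [← Finset.sum_mul]
    by_cases h4 : δ ≤ mass (res D.μ (fun ω => D.lz m ω ≤ hB ∧ D.na p m ω))
    · rw [if_pos h4, one_mul]
      exact mul_le_mul_of_nonneg_right (D.mass_EE p hB δ hδ m h4) hg
    · rw [if_neg h4, zero_mul]
      exact mul_nonneg (Finset.sum_nonneg fun w _ => e4_res_nonneg _ _ D.kd.nn w) hg
  refine le_trans (le_of_eq ?_) (Finset.sum_le_sum hterm)
  rw [← Finset.sum_mul, ← Finset.sum_filter, Finset.sum_const, nsmul_eq_mul, mul_one]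
  ring

end WKD

end Pool.Agent.Helper61.GL
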